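import Pool.Agent.T9h40.PE.Ord
set_option autoImplicit false

/-!
Symbols on the curves `y² = x (x - σ²) (x - τ²)` with prescribed ramification.
-/

namespace Pool.Agent.T9h40.PE

open scoped WithZero ComplexConjugate

open Polynomial

open Pool.Agent.TH826.MK

variable {L : Type*} [Field L] {k : ℂ →+* L} {v : Valuation L ℤᵐ⁰} {x y : L}

/-- A nonzero complex number as a unit of `L`. -/
noncomputable def kc (k : ℂ →+* L) (c : ℂˣ) : Lˣ := Units.map (k : ℂ →* L) c

theorem coe_kc (c : ℂˣ) : (kc k c : L) = k c := rfl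

theorem kc_pow (c : ℂˣ) (n : ℤ) : kc k (c ^ n) = kc k c ^ n := map_zpow _ _ _

/-- The element `S` has the tame symbols `c` at `(x₀, y₀)` and `1 / c` at infinity, and it is
unramified at all the other places. -/
def Bd (k : ℂ →+* L) (x y : L) (x₀ y₀ : ℂ) (S : KQ L 2) (c : ℂˣ) : Prop :=
  ∀ v : Valuation L ℤᵐ⁰, Function.Surjective v → Triv k v →
    ∀ π : Lˣ, v (π : L) = WithZero.exp (-1) →
    (v x ≤ 1 → ¬ (v (x - k x₀) < 1 ∧ v (y - k y₀) < 1) → S ∈ unitPart v 2) ∧
    (v (x - k x₀) < 1 → v (y - k y₀) < 1 → S - symb ![kc k c, π] ∈ unitPart v 2) ∧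
    (1 < v x → S + symb ![kc k c, π] ∈ unitPart v 2)

theorem Triv.kc (hv : Triv k v) (c : ℂˣ) : v (kc k c : L) = 1 := hv _ c.ne_zero

/-- Symbols `{c, h}` with a constant `c`. -/
theorem bd_const (c : ℂˣ) (h : Lˣ) (n : ℤ) {x₀ y₀ : ℂ}
    (H1 : ∀ v : Valuation L ℤᵐ⁰, Function.Surjective v → Triv k v → v x ≤ 1 →
      ¬ (v (x - k x₀) < 1 ∧ v (y - k y₀) < 1) → v (h : L) = 1)
    (H2 : ∀ v : Valuation L ℤᵐ⁰, Function.Surjective v → Triv k v →
      v (x - k x₀) < 1 → v (y - k y₀) < 1 → v (h : L) = WithZero.exp (-n))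
    (H3 : ∀ v : Valuation L ℤᵐ⁰, Function.Surjective v → Triv k v → 1 < v x →
      v (h : L) = WithZero.exp n) :
    Bd k x y x₀ y₀ (symb ![kc k c, h]) (c ^ n) := by
  intro v hs hv π hπ
  have hc : v ((kc k c : L) - kc k c) < 1 := by
    rw [sub_self, map_zero]
    exact zero_lt_one
  refine ⟨fun h1 h2 => unit_mem (hv.kc c) (H1 v hs hv h1 h2), fun h1 h2 => ?_, fun h1 => ?_⟩
  · have h3 := tame (hv.kc c) hc (H2 v hs hv h1 h2) hπ
    rwa [kc_pow, symb_zpow_left]
  · have h3 := tame (hv.kc c) hc (m := -n) (by rw [neg_neg]; exact H3 v hs hv h1) hπ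
    rw [kc_pow, symb_zpow_left]
    rwa [Int.cast_neg, neg_smul, sub_neg_eq_add] at h3

theorem exists_two : ∃ c : ℂˣ, (c : ℂ) = 2 := ⟨Units.mk0 2 two_ne_zero, rfl⟩

/-- The points of order two. -/
theorem caseT (hG : Gen k x y) (hx : ∀ a, x ≠ k a) {g : ℂ[X]} {e : ℂ}
    (hxy : y ^ 2 = (x - k e) * g.eval₂ k x) (hg : g.eval e ≠ 0) (hdeg : g.natDegree = 2) :
    ∃ (S : KQ L 2) (c : ℂˣ), ‖(c : ℂ)‖ ≠ 1 ∧ Bd k x y e 0 S c := by
  obtain ⟨c, hc⟩ := exists_two
  have hxe : x - k e ≠ 0 := sub_ne_zero.2 (hx e)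
  have hf : y ^ 2 = ((X - C e) * g).eval₂ k x := by
    rw [Polynomial.eval₂_mul, Polynomial.eval₂_sub, Polynomial.eval₂_X, Polynomial.eval₂_C]
    exact hxy
  have hg0 : g ≠ 0 := by
    rintro rfl
    simp at hdeg
  have hfd : ((X - C e) * g).natDegree = 3 := by
    rw [natDegree_mul (X_sub_C_ne_zero e) hg0, natDegree_X_sub_C, hdeg]
  refine ⟨symb ![kc k c, Units.mk0 _ hxe], c ^ (2 : ℤ), ?_, bd_const c _ 2 ?_ ?_ ?_⟩
  · rw [Units.val_zpow_eq_zpow_val, hc]
    norm_num
  · intro v hs hv h1 h2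
    rw [Units.val_mk0]
    have h3 : v (x - k e) ≤ 1 := (v.map_sub _ _).trans (max_le h1 (hv.le e))
    refine le_antisymm h3 (not_lt.1 fun h4 => h2 ⟨h4, ?_⟩)
    rw [map_zero, sub_zero]
    have h5 : v y ^ 2 < 1 := by
      rw [← map_pow, hxy, map_mul]
      exact mul_lt_one_of_lt_of_le h4 (hv.eval_le h1 g)
    exact (pow_lt_one_iff two_ne_zero).1 h5
  · intro v hs hv h1 h2
    rw [Units.val_mk0]
    exact ordT hG hs hv hxy hg (hx e) h1
  · intro v hs hv h1
    rw [Units.val_mk0, Valuation.map_sub_eq_of_lt_left v ((hv.le _).trans_lt h1)]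
    exact (ordO hG hs hv hf hfd h1).1

/-- The identity for the norm of `y - ρ x`. -/
theorem norm_id {R : Type*} [CommRing R] {x y σ τ i : R} (hi : i ^ 2 = -1)
    (hxy : y ^ 2 = x * (x - σ ^ 2) * (x - τ ^ 2)) :
    (y - i * (σ - τ) * x) * (y + i * (σ - τ) * x) = x * (x - σ * τ) ^ 2 := by
  linear_combination hxy - (σ - τ) ^ 2 * x ^ 2 * hi

section Main

variable {σ τ : ℂ}

/-- The cubic polynomial. -/
noncomputable def cub (σ τ : ℂ) : ℂ[X] := X * (X - C (σ ^ 2)) * (X - C (τ ^ 2))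

theorem cub_deg : (cub σ τ).natDegree = 3 := by
  unfold cub
  rw [natDegree_mul (mul_ne_zero X_ne_zero (X_sub_C_ne_zero _)) (X_sub_C_ne_zero _),
    natDegree_mul X_ne_zero (X_sub_C_ne_zero _), natDegree_X, natDegree_X_sub_C,
    natDegree_X_sub_C]

theorem cub_eval : (cub σ τ).eval₂ k x = x * (x - k (σ ^ 2)) * (x - k (τ ^ 2)) := by
  unfold cub
  simp only [Polynomial.eval₂_mul, Polynomial.eval₂_sub, Polynomial.eval₂_X, Polynomial.eval₂_C]

theorem int_y (hxy : y ^ 2 = x * (x - k (σ ^ 2)) * (x - k (τ ^ 2))) (hv : Triv k v)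
    (hx : v x ≤ 1) : v y ≤ 1 := by
  have h1 : v y ^ 2 ≤ 1 := by
    rw [← map_pow, hxy, ← cub_eval]
    exact hv.eval_le hx _
  exact (pow_le_one_iff two_ne_zero).1 h1

variable {x₀ y₀ : ℂ}

/-- The points on the curve above `x₀`. -/
theorem above (hxy : y ^ 2 = x * (x - k (σ ^ 2)) * (x - k (τ ^ 2)))
    (h0 : y₀ ^ 2 = x₀ * (x₀ - σ ^ 2) * (x₀ - τ ^ 2)) (hv : Triv k v)
    (hx : v (x - k x₀) < 1) (hP : ¬ v (y - k y₀) < 1) : v (y + k y₀) < 1 := by
  have h1 : v ((y - k y₀) * (y + k y₀)) < 1 := by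
    have h2 : (y - k y₀) * (y + k y₀) = (cub σ τ).eval₂ k x - k ((cub σ τ).eval x₀) := by
      have h3 : (cub σ τ).eval x₀ = y₀ ^ 2 := by
        rw [h0]
        unfold cub
        simp
      rw [h3, cub_eval, ← hxy, map_pow]
      ring
    rw [h2]
    exact hv.eval_sub hx _
  rw [map_mul] at h1
  by_contra h4
  exact absurd h1 (not_lt.2 (one_le_mul (not_lt.1 hP) (not_lt.1 h4)))

/-- The generic points: symbols with the function `(y + ρ x) / (y - ρ x)`. -/
theorem caseG (hG : Gen k x y) (hx : ∀ a, x ≠ k a)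
    (hxy : y ^ 2 = x * (x - k (σ ^ 2)) * (x - k (τ ^ 2))) (hσ : σ ≠ 0) (hτ : τ ≠ 0)
    (h0 : y₀ ^ 2 = x₀ * (x₀ - σ ^ 2) * (x₀ - τ ^ 2)) (hy₀ : y₀ ≠ 0) (hs₀ : x₀ ≠ σ * τ)
    (hn : ‖y₀ + Complex.I * (σ - τ) * x₀‖ ≠ ‖y₀ - Complex.I * (σ - τ) * x₀‖) :
    ∃ (S : KQ L 2) (c : ℂˣ), ‖(c : ℂ)‖ ≠ 1 ∧ Bd k x y x₀ y₀ S c := by
  obtain ⟨ρ, hρ⟩ : ∃ ρ, ρ = Complex.I * (σ - τ) := ⟨_, rfl⟩
  rw [← hρ] at hn
  have hx₀ : x₀ ≠ 0 := by
    rintro rfl
    rw [zero_mul, zero_mul] at h0
    exact hy₀ (pow_eq_zero_iff two_ne_zero |>.1 h0)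
  have hI : (Complex.I : ℂ) ^ 2 = -1 := Complex.I_sq
  have hp0 : (y₀ - ρ * x₀) * (y₀ + ρ * x₀) = x₀ * (x₀ - σ * τ) ^ 2 := by
    rw [hρ]
    exact norm_id hI h0
  have hp0' : (y₀ - ρ * x₀) * (y₀ + ρ * x₀) ≠ 0 := by
    rw [hp0]
    exact mul_ne_zero hx₀ (pow_ne_zero 2 (sub_ne_zero.2 hs₀))
  have hm0 := left_ne_zero_of_mul hp0'
  have hq0 := right_ne_zero_of_mul hp0'
  have hkI : (k Complex.I) ^ 2 = -1 := by
    rw [← map_pow, hI, map_neg, map_one]
  have hpL : (y - k ρ * x) * (y + k ρ * x) = x * (x - k (σ * τ)) ^ 2 := by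
    rw [hρ, map_mul, map_sub, map_mul]
    rw [map_pow, map_pow] at hxy
    exact norm_id hkI hxy
  have hpL' : (y - k ρ * x) * (y + k ρ * x) ≠ 0 := by
    rw [hpL]
    have h1 := hx 0
    rw [map_zero] at h1
    exact mul_ne_zero h1 (pow_ne_zero 2 (sub_ne_zero.2 (hx _)))
  have hmL := left_ne_zero_of_mul hpL'
  have hqL := right_ne_zero_of_mul hpL'
  obtain ⟨ζ, hζ⟩ : ∃ ζ : ℂˣ, (ζ : ℂ) = (y₀ + ρ * x₀) / (y₀ - ρ * x₀) :=
    ⟨Units.mk0 _ (div_ne_zero hq0 hm0), rfl⟩
  have hζn : ‖(ζ : ℂ)‖ ≠ 1 := by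
    rw [hζ, norm_div]
    intro h
    exact hn ((div_eq_one_iff_eq (norm_ne_zero_iff.2 hm0)).1 h)
  obtain ⟨z, hz⟩ : ∃ z : Lˣ, (z : L) = (y + k ρ * x) / (y - k ρ * x) :=
    ⟨Units.mk0 _ (div_ne_zero hqL hmL), rfl⟩
  have hgs : k (σ * τ) - k x₀ ≠ 0 := by
    rw [← map_sub]
    exact (_root_.map_ne_zero k).2 (sub_ne_zero.2 (Ne.symm hs₀))
  obtain ⟨g, hg⟩ : ∃ g : Lˣ, (g : L) = (x - k x₀) / (k (σ * τ) - k x₀) :=
    ⟨Units.mk0 _ (div_ne_zero (sub_ne_zero.2 (hx _)) hgs), rfl⟩
  have hf : y ^ 2 = (cub σ τ).eval₂ k x := by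
    rw [cub_eval]
    exact hxy
  refine ⟨symb ![kc k ζ * z, g], ζ ^ (2 : ℤ), ?_, ?_⟩
  · rw [Units.val_zpow_eq_zpow_val, zpow_ofNat, norm_pow]
    intro h
    exact hζn ((pow_eq_one_iff_of_nonneg (norm_nonneg _) two_ne_zero).1 h)
  · intro v hs hv π hπ
    have hvg : v (g : L) = v (x - k x₀) := by
      rw [hg, map_div₀, ← map_sub k, hv _ (sub_ne_zero.2 (Ne.symm hs₀)), div_one]
    have hcoe : ((kc k ζ * z : Lˣ) : L) = k ζ * ((y + k ρ * x) / (y - k ρ * x)) := by
      rw [Units.val_mul, coe_kc, hz]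
    -- the value of `z` at a point with `y - ρ x ≠ 0`
    have hval : ∀ b : ℂ, b ^ 2 = y₀ ^ 2 → b - ρ * x₀ ≠ 0 → v (x - k x₀) < 1 →
        v (y - k b) < 1 → v ((y + k ρ * x) / (y - k ρ * x) -
          k ((b + ρ * x₀) / (b - ρ * x₀))) < 1 := by
      intro b _ hb h1 h2
      have e1 : v (y - k ρ * x - k (b - ρ * x₀)) < 1 := by
        have e2 : y - k ρ * x - k (b - ρ * x₀) = (y - k b) + -(k ρ * (x - k x₀)) := by
          rw [map_sub, map_mul]
          ring
        rw [e2]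
        refine v.map_add_lt h2 ?_
        rw [Valuation.map_neg, map_mul, mul_comm]
        exact mul_lt_one_of_lt_of_le h1 (hv.le _)
      have e1' : v (y + k ρ * x - k (b + ρ * x₀)) < 1 := by
        have e2 : y + k ρ * x - k (b + ρ * x₀) = (y - k b) + (k ρ * (x - k x₀)) := by
          rw [map_add, map_mul]
          ring
        rw [e2]
        refine v.map_add_lt h2 ?_
        rw [map_mul, mul_comm]
        exact mul_lt_one_of_lt_of_le h1 (hv.le _)
      have e3 : v (y - k ρ * x) = 1 := hv.eq_one hb e1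
      have hkb : k (b - ρ * x₀) ≠ 0 := (_root_.map_ne_zero k).2 hb
      have e4 : (y + k ρ * x) / (y - k ρ * x) - k ((b + ρ * x₀) / (b - ρ * x₀)) =
          ((y + k ρ * x - k (b + ρ * x₀)) * k (b - ρ * x₀) +
            -(k (b + ρ * x₀) * (y - k ρ * x - k (b - ρ * x₀)))) /
            ((y - k ρ * x) * k (b - ρ * x₀)) := by
        rw [map_div₀]
        field_simp
        ring
      rw [e4, map_div₀, map_mul, e3, hv _ hb, one_mul, div_one]
      refine v.map_add_lt ?_ ?_
      · rw [map_mul]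
        exact mul_lt_one_of_lt_of_le e1' (hv.le _)
      · rw [Valuation.map_neg, map_mul, mul_comm]
        exact mul_lt_one_of_lt_of_le e1 (hv.le _)
    refine ⟨fun h1 h2 => ?_, fun h1 h2 => ?_, fun h1 => ?_⟩
    · -- the other finite places
      have hy1 := int_y hxy hv h1
      by_cases hc : v (x - k x₀) < 1
      · have h3 := above hxy h0 hv hc (fun h => h2 ⟨hc, h⟩)
        have h4 : v (y - k (-y₀)) < 1 := by
          rw [map_neg, sub_neg_eq_add]
          exact h3
        have h5 := hval (-y₀) (by ring) (by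
          intro h
          apply hq0
          linear_combination -h) hc h4
        apply one_mem_left
        have h6 : (-y₀ + ρ * x₀) / (-y₀ - ρ * x₀) = (ζ : ℂ)⁻¹ := by
          rw [hζ, inv_div, show -y₀ + ρ * x₀ = -(y₀ - ρ * x₀) by ring,
            show -y₀ - ρ * x₀ = -(y₀ + ρ * x₀) by ring, neg_div_neg_eq]
        rw [h6] at h5
        have h7 : ((kc k ζ * z : Lˣ) : L) - 1 = k ζ * ((y + k ρ * x) / (y - k ρ * x) -
            k ((ζ : ℂ)⁻¹)) := by
          rw [hcoe, mul_sub, ← map_mul, mul_inv_cancel₀ ζ.ne_zero, map_one]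
        rw [h7, map_mul, hv _ ζ.ne_zero, one_mul]
        exact h5
      · have h3 : v (x - k x₀) = 1 :=
          le_antisymm ((v.map_sub _ _).trans (max_le h1 (hv.le _))) (not_lt.1 hc)
        by_cases hc2 : v (x - k (σ * τ)) < 1
        · apply one_mem_right
          have h4 : (g : L) - 1 = (x - k (σ * τ)) / (k (σ * τ) - k x₀) := by
            rw [hg]
            field_simp
            ring
          rw [h4, map_div₀, ← map_sub k, hv _ (sub_ne_zero.2 (Ne.symm hs₀)), div_one]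
          exact hc2
        · have h4 : v (x - k (σ * τ)) = 1 :=
            le_antisymm ((v.map_sub _ _).trans (max_le h1 (hv.le _))) (not_lt.1 hc2)
          refine unit_mem ?_ (by rw [hvg, h3])
          rw [hcoe, map_mul, hv _ ζ.ne_zero, one_mul, map_div₀]
          by_cases hc3 : v x < 1
          · have h5 : v y ^ 2 = v x := by
              rw [← map_pow, hxy, map_mul, map_mul]
              have h6 : ∀ a : ℂ, a ≠ 0 → v (x - k a) = 1 := by
                intro a ha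
                rw [Valuation.map_sub_swap, Valuation.map_sub_eq_of_lt_left v, hv a ha]
                rw [hv a ha]
                exact hc3
              rw [h6 _ (pow_ne_zero 2 hσ), h6 _ (pow_ne_zero 2 hτ), mul_one, mul_one]
            have h7 : v (k ρ * x) < v y := by
              rw [map_mul]
              refine (mul_le_of_le_one_left' (hv.le _)).trans_lt ?_
              have hy2 : v y < 1 := (pow_lt_one_iff two_ne_zero).1 (by rw [h5]; exact hc3)
              have hy0 : v y ≠ 0 := by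
                intro h
                rw [h, zero_pow two_ne_zero] at h5
                have h8 := hx 0
                rw [map_zero] at h8
                exact (Valuation.ne_zero_iff v).2 h8 h5.symm
              rw [← h5, pow_two]
              exact mul_lt_of_lt_one_left (zero_lt_iff.2 hy0) hy2
            rw [Valuation.map_add_eq_of_lt_left v h7, Valuation.map_sub_eq_of_lt_left v h7]
            exact div_self (fun h => by
              rw [h] at h7
              exact absurd h7 (not_lt.2 zero_le))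
          · have h5 : v x = 1 := le_antisymm h1 (not_lt.1 hc3)
            have h6 : v (y - k ρ * x) * v (y + k ρ * x) = 1 := by
              rw [← map_mul, hpL, map_mul, map_pow, h4, h5, one_pow, one_mul]
            have h7 : v (k ρ * x) ≤ 1 := by
              rw [map_mul, h5, mul_one]
              exact hv.le _
            have h8 : v (y - k ρ * x) ≤ 1 := (v.map_sub _ _).trans (max_le hy1 h7)
            have h9 : v (y + k ρ * x) ≤ 1 := (v.map_add _ _).trans (max_le hy1 h7)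
            have h10 : v (y - k ρ * x) = 1 := by
              refine le_antisymm h8 (not_lt.1 fun h => ?_)
              exact absurd h6 (mul_lt_one_of_lt_of_le h h9).ne
            rw [h10, one_mul] at h6
            rw [h10, h6, div_one]
    · -- the place `(x₀, y₀)`
      have h3 := hval y₀ rfl hm0 h1 h2
      rw [← hζ] at h3
      have h4 : v (((kc k ζ * z : Lˣ) : L) - kc k (ζ ^ (2 : ℤ))) < 1 := by
        have h5 : ((kc k ζ * z : Lˣ) : L) - kc k (ζ ^ (2 : ℤ)) =
            k ζ * ((y + k ρ * x) / (y - k ρ * x) - k ζ) := by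
          rw [hcoe, coe_kc, Units.val_zpow_eq_zpow_val, zpow_ofNat, pow_two, map_mul]
          ring
        rw [h5, map_mul, hv _ ζ.ne_zero, one_mul]
        exact h3
      have h6 : v (g : L) = WithZero.exp (-1) := by
        rw [hvg]
        exact ordP hG hs hv hf hy₀ (hx _) h1 h2
      have h7 := tame (hv.kc (ζ ^ (2 : ℤ))) h4 h6 hπ
      rwa [Int.cast_one, one_smul] at h7
    · -- the place at infinity
      obtain ⟨h2, h3⟩ := ordO hG hs hv hf cub_deg h1
      have h4 : v (k ρ * x) < v y := by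
        rw [map_mul]
        refine (mul_le_of_le_one_left' (hv.le _)).trans_lt ?_
        rw [h2, h3, WithZero.exp_lt_exp]
        norm_num
      have h5 : v (y - k ρ * x) = v y := Valuation.map_sub_eq_of_lt_left v h4
      have h6 : v (((kc k ζ * z : Lˣ) : L) - kc k ζ) < 1 := by
        have h7 : ((kc k ζ * z : Lˣ) : L) - kc k ζ =
            k ζ * (k 2 * (k ρ * x) / (y - k ρ * x)) := by
          rw [hcoe, coe_kc]
          field_simp
          rw [map_ofNat]
          ring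
        rw [h7, map_mul, hv _ ζ.ne_zero, one_mul, map_div₀, map_mul, hv _ two_ne_zero, one_mul,
          h5]
        have h8 : 0 < v y := by
          rw [h3]
          exact WithZero.exp_pos
        exact (div_lt_one₀ h8).2 h4
      have h7 : v (g : L) = WithZero.exp (-(-2)) := by
        rw [hvg, Valuation.map_sub_eq_of_lt_left v ((hv.le _).trans_lt h1), h2]
        norm_num
      have h8 := tame (hv.kc ζ) h6 h7 hπ
      rw [kc_pow, symb_zpow_left]
      rwa [Int.cast_neg, neg_smul, sub_neg_eq_add] at h8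

/-- The points with `x₀ = σ τ`, which are of order four. -/
theorem caseF (hG : Gen k x y) (hx : ∀ a, x ≠ k a)
    (hxy : y ^ 2 = x * (x - k (σ ^ 2)) * (x - k (τ ^ 2))) (hσ : σ ≠ 0) (hτ : τ ≠ 0)
    (h0 : y₀ ^ 2 = x₀ * (x₀ - σ ^ 2) * (x₀ - τ ^ 2)) (hy₀ : y₀ ≠ 0) (hs₀ : x₀ = σ * τ) :
    ∃ (S : KQ L 2) (c : ℂˣ), ‖(c : ℂ)‖ ≠ 1 ∧ Bd k x y x₀ y₀ S c := by
  obtain ⟨c, hc⟩ := exists_two
  have hx₀ : x₀ ≠ 0 := by
    rw [hs₀]
    exact mul_ne_zero hσ hτ
  obtain ⟨η, hη⟩ : ∃ η, η = y₀ / x₀ := ⟨_, rfl⟩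
  have hη0 : η * x₀ = y₀ := by
    rw [hη]
    field_simp
  have hη2 : η ^ 2 = -(σ - τ) ^ 2 := by
    have h1 : x₀ ^ 2 * (η ^ 2 + (σ - τ) ^ 2) = 0 := by
      have h2 : y₀ ^ 2 + (σ - τ) ^ 2 * x₀ ^ 2 = 0 := by
        rw [h0, hs₀]
        ring
      rw [← hη0] at h2
      linear_combination h2
    rcases mul_eq_zero.1 h1 with h | h
    · exact absurd h (pow_ne_zero 2 hx₀)
    · linear_combination h
  have hηne : η ≠ 0 := by
    rintro rfl
    rw [zero_mul] at hη0
    exact hy₀ hη0.symm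
  have hpL : (y - k η * x) * (y + k η * x) = x * (x - k (σ * τ)) ^ 2 := by
    have h1 : (k η) ^ 2 = -(k σ - k τ) ^ 2 := by
      rw [← map_pow, hη2, map_neg, map_pow, map_sub]
    rw [map_pow, map_pow] at hxy
    rw [map_mul]
    linear_combination hxy - x ^ 2 * h1
  have hxL : x ≠ 0 := by
    have h1 := hx 0
    rwa [map_zero] at h1
  have hpL' : (y - k η * x) * (y + k η * x) ≠ 0 := by
    rw [hpL]
    exact mul_ne_zero hxL (pow_ne_zero 2 (sub_ne_zero.2 (hx _)))
  have hmL := left_ne_zero_of_mul hpL'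
  have hf : y ^ 2 = (cub σ τ).eval₂ k x := by
    rw [cub_eval]
    exact hxy
  have hh : (y - k η * x) ^ 2 / x ≠ 0 := div_ne_zero (pow_ne_zero 2 hmL) hxL
  refine ⟨symb ![kc k c, Units.mk0 _ hh], c ^ (4 : ℤ), ?_, bd_const c _ 4 ?_ ?_ ?_⟩
  · rw [Units.val_zpow_eq_zpow_val, hc]
    norm_num
  · intro v hs hv h1 h2
    rw [Units.val_mk0]
    have hy1 := int_y hxy hv h1
    by_cases hc3 : v x < 1
    · have h5 : v y ^ 2 = v x := by
        rw [← map_pow, hxy, map_mul, map_mul]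
        have h6 : ∀ a : ℂ, a ≠ 0 → v (x - k a) = 1 := by
          intro a ha
          rw [Valuation.map_sub_swap, Valuation.map_sub_eq_of_lt_left v, hv a ha]
          rw [hv a ha]
          exact hc3
        rw [h6 _ (pow_ne_zero 2 hσ), h6 _ (pow_ne_zero 2 hτ), mul_one, mul_one]
      have hy0 : v y ≠ 0 := by
        intro h
        rw [h, zero_pow two_ne_zero] at h5
        exact (Valuation.ne_zero_iff v).2 hxL h5.symm
      have h7 : v (k η * x) < v y := by
        rw [map_mul]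
        refine (mul_le_of_le_one_left' (hv.le _)).trans_lt ?_
        have hy2 : v y < 1 := (pow_lt_one_iff two_ne_zero).1 (by rw [h5]; exact hc3)
        rw [← h5, pow_two]
        exact mul_lt_of_lt_one_left (zero_lt_iff.2 hy0) hy2
      rw [map_div₀, map_pow, Valuation.map_sub_eq_of_lt_left v h7, h5,
        div_self ((Valuation.ne_zero_iff v).2 hxL)]
    · have h5 : v x = 1 := le_antisymm h1 (not_lt.1 hc3)
      have h7 : v (k η * x) ≤ 1 := by
        rw [map_mul, h5, mul_one]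
        exact hv.le _
      have h8 : v (y - k η * x) ≤ 1 := (v.map_sub _ _).trans (max_le hy1 h7)
      have h9 : v (y + k η * x) ≤ 1 := (v.map_add _ _).trans (max_le hy1 h7)
      have h10 : v (y - k η * x) = 1 := by
        refine le_antisymm h8 (not_lt.1 fun h => ?_)
        have h11 : v (x - k x₀) < 1 := by
          have h12 : v ((y - k η * x) * (y + k η * x)) < 1 := by
            rw [map_mul]
            exact mul_lt_one_of_lt_of_le h h9
          rw [hpL, map_mul, h5, one_mul, map_pow, ← hs₀] at h12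
          exact (pow_lt_one_iff two_ne_zero).1 h12
        refine h2 ⟨h11, ?_⟩
        have h13 : y - k y₀ = (y - k η * x) + k η * (x - k x₀) := by
          rw [← hη0, map_mul]
          ring
        rw [h13]
        refine v.map_add_lt h ?_
        rw [map_mul, mul_comm]
        exact mul_lt_one_of_lt_of_le h11 (hv.le _)
      rw [map_div₀, map_pow, h10, h5, one_pow, div_one]
  · intro v hs hv h1 h2
    rw [Units.val_mk0]
    have h3 := ordP hG hs hv hf hy₀ (hx _) h1 h2
    have h4 : v x = 1 := hv.eq_one hx₀ h1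
    have h5 : v (y + k η * x) = 1 := by
      refine hv.eq_one (c := 2 * y₀) (mul_ne_zero two_ne_zero hy₀) ?_
      have h6 : y + k η * x - k (2 * y₀) = (y - k y₀) + k η * (x - k x₀) := by
        rw [map_mul, map_ofNat]
        have h7 : k η * k x₀ = k y₀ := by rw [← map_mul, hη0]
        linear_combination h7
      rw [h6]
      refine v.map_add_lt h2 ?_
      rw [map_mul, mul_comm]
      exact mul_lt_one_of_lt_of_le h1 (hv.le _)
    have h6 : v (y - k η * x) = WithZero.exp (-2) := by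
      have h7 := congrArg v hpL
      rw [map_mul, h5, mul_one, map_mul, h4, one_mul, map_pow, ← hs₀, h3,
        ← WithZero.exp_nsmul] at h7
      exact h7
    rw [map_div₀, map_pow, h6, h4, div_one, ← WithZero.exp_nsmul]
    congr 1
  · intro v hs hv h1
    rw [Units.val_mk0]
    obtain ⟨h2, h3⟩ := ordO hG hs hv hf cub_deg h1
    have h4 : v (k η * x) < v y := by
      rw [map_mul]
      refine (mul_le_of_le_one_left' (hv.le _)).trans_lt ?_
      rw [h2, h3, WithZero.exp_lt_exp]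
      norm_num
    rw [map_div₀, map_pow, Valuation.map_sub_eq_of_lt_left v h4, h3, h2, ← WithZero.exp_nsmul,
      ← WithZero.exp_sub]
    congr 1

/-- The condition on the absolute values for both signs of `τ`. -/
theorem real_ratio {x₀ y₀ : ℂ} (hx₀ : x₀ ≠ 0) (hy₀ : y₀ ≠ 0) (hτ : τ ≠ 0)
    (h1 : ‖y₀ + Complex.I * (σ - τ) * x₀‖ = ‖y₀ - Complex.I * (σ - τ) * x₀‖)
    (h2 : ‖y₀ + Complex.I * (σ - -τ) * x₀‖ = ‖y₀ - Complex.I * (σ - -τ) * x₀‖) :
    ∃ t : ℝ, σ = t * τ := by
  have key : ∀ w : ℂ, ‖y₀ + Complex.I * w * x₀‖ = ‖y₀ - Complex.I * w * x₀‖ →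
      ((y₀ * conj x₀) * conj w).im = 0 := by
    intro w h
    have h3 : Complex.normSq (y₀ + Complex.I * w * x₀) =
        Complex.normSq (y₀ - Complex.I * w * x₀) := by
      rw [Complex.normSq_eq_norm_sq, Complex.normSq_eq_norm_sq, h]
    rw [Complex.normSq_add, Complex.normSq_sub] at h3
    have h4 : (y₀ * conj (Complex.I * w * x₀)).re = 0 := by linarith
    have h5 : y₀ * conj (Complex.I * w * x₀) = -Complex.I * ((y₀ * conj x₀) * conj w) := by
      rw [map_mul, map_mul, Complex.conj_I]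
      ring
    rw [h5] at h4
    simpa using h4
  have k1 := key _ h1
  have k2 := key _ h2
  have k3 : ((y₀ * conj x₀) * conj σ).im = 0 := by
    have e : (y₀ * conj x₀) * conj (σ - τ) + (y₀ * conj x₀) * conj (σ - -τ) =
        ((2 : ℝ) : ℂ) * ((y₀ * conj x₀) * conj σ) := by
      simp only [map_sub, map_neg]
      push_cast
      ring
    have e2 := congrArg Complex.im e
    rw [Complex.add_im, k1, k2, Complex.im_ofReal_mul] at e2
    linarith
  have k4 : ((y₀ * conj x₀) * conj τ).im = 0 := by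
    have e : (y₀ * conj x₀) * conj (σ - -τ) - (y₀ * conj x₀) * conj (σ - τ) =
        ((2 : ℝ) : ℂ) * ((y₀ * conj x₀) * conj τ) := by
      simp only [map_sub, map_neg]
      push_cast
      ring
    have e2 := congrArg Complex.im e
    rw [Complex.sub_im, k1, k2, Complex.im_ofReal_mul] at e2
    linarith
  have hA : y₀ * conj x₀ ≠ 0 := mul_ne_zero hy₀ ((_root_.map_ne_zero _).2 hx₀)
  obtain ⟨a, ha⟩ : ∃ a : ℝ, (y₀ * conj x₀) * conj σ = a :=
    ⟨_, (Complex.conj_eq_iff_re.1 (Complex.conj_eq_iff_im.2 k3)).symm⟩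
  obtain ⟨b, hb⟩ : ∃ b : ℝ, (y₀ * conj x₀) * conj τ = b :=
    ⟨_, (Complex.conj_eq_iff_re.1 (Complex.conj_eq_iff_im.2 k4)).symm⟩
  have hb0 : (b : ℂ) ≠ 0 := by
    rw [← hb]
    exact mul_ne_zero hA ((_root_.map_ne_zero _).2 hτ)
  refine ⟨a / b, ?_⟩
  have h5 : (y₀ * conj x₀) * ((b : ℂ) * conj σ - a * conj τ) = 0 := by
    rw [← ha, ← hb]
    ring
  have h6 : (b : ℂ) * conj σ - a * conj τ = 0 := (mul_eq_zero.1 h5).resolve_left hA
  have h7 : (b : ℂ) * σ - a * τ = 0 := by
    have h8 := congrArg conj h6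
    simpa using h8
  rw [Complex.ofReal_div]
  field_simp
  linear_combination h7

/-- All the points of the curve. -/
theorem short (hG : Gen k x y) (hx : ∀ a, x ≠ k a)
    (hxy : y ^ 2 = x * (x - k (σ ^ 2)) * (x - k (τ ^ 2))) (hσ : σ ≠ 0) (hτ : τ ≠ 0)
    (hst : σ ^ 2 ≠ τ ^ 2) (hR : ∀ t : ℝ, σ ≠ t * τ)
    (h0 : y₀ ^ 2 = x₀ * (x₀ - σ ^ 2) * (x₀ - τ ^ 2)) :
    ∃ (S : KQ L 2) (c : ℂˣ), ‖(c : ℂ)‖ ≠ 1 ∧ Bd k x y x₀ y₀ S c := by
  have hdeg : ∀ a b : ℂ, ((X - C a) * (X - C b) : ℂ[X]).natDegree = 2 := by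
    intro a b
    rw [natDegree_mul (X_sub_C_ne_zero _) (X_sub_C_ne_zero _), natDegree_X_sub_C,
      natDegree_X_sub_C]
  by_cases hy₀ : y₀ = 0
  · subst hy₀
    rw [zero_pow two_ne_zero] at h0
    rcases mul_eq_zero.1 h0.symm with h1 | h1
    · rcases mul_eq_zero.1 h1 with h2 | h2
      · subst h2
        refine caseT hG hx (g := (X - C (σ ^ 2)) * (X - C (τ ^ 2))) ?_ ?_ (hdeg _ _)
        · rw [hxy]
          simp only [Polynomial.eval₂_mul, Polynomial.eval₂_sub, Polynomial.eval₂_X,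
            Polynomial.eval₂_C, map_zero, Polynomial.eval₂_zero]
          ring
        · simp [hσ, hτ]
      · obtain rfl := sub_eq_zero.1 h2
        refine caseT hG hx (g := (X - C 0) * (X - C (τ ^ 2))) ?_ ?_ (hdeg _ _)
        · rw [hxy]
          simp only [Polynomial.eval₂_mul, Polynomial.eval₂_sub, Polynomial.eval₂_X,
            Polynomial.eval₂_C, map_zero, Polynomial.eval₂_zero]
          ring
        · simp [hσ, sub_eq_zero, hst]
    · obtain rfl := sub_eq_zero.1 h1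
      refine caseT hG hx (g := (X - C 0) * (X - C (σ ^ 2))) ?_ ?_ (hdeg _ _)
      · rw [hxy]
        simp only [Polynomial.eval₂_mul, Polynomial.eval₂_sub, Polynomial.eval₂_X,
          Polynomial.eval₂_C, map_zero, Polynomial.eval₂_zero]
        ring
      · simp [hτ, sub_eq_zero, hst.symm]
  · have hx₀ : x₀ ≠ 0 := by
      rintro rfl
      rw [zero_mul, zero_mul] at h0
      exact hy₀ (pow_eq_zero_iff two_ne_zero |>.1 h0)
    by_cases hn1 : ‖y₀ + Complex.I * (σ - τ) * x₀‖ = ‖y₀ - Complex.I * (σ - τ) * x₀‖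
    · by_cases hn2 : ‖y₀ + Complex.I * (σ - -τ) * x₀‖ = ‖y₀ - Complex.I * (σ - -τ) * x₀‖
      · obtain ⟨t, ht⟩ := real_ratio hx₀ hy₀ hτ hn1 hn2
        exact absurd ht (hR t)
      · have e : (-τ) ^ 2 = τ ^ 2 := by ring
        by_cases hs : x₀ = σ * -τ
        · exact caseF hG hx (by rw [e]; exact hxy) hσ (neg_ne_zero.2 hτ) (by rw [e]; exact h0)
            hy₀ hs
        · exact caseG hG hx (by rw [e]; exact hxy) hσ (neg_ne_zero.2 hτ) (by rw [e]; exact h0)
            hy₀ hs hn2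
    · by_cases hs : x₀ = σ * τ
      · exact caseF hG hx hxy hσ hτ h0 hy₀ hs
      · exact caseG hG hx hxy hσ hτ h0 hy₀ hs hn1

end Main

end Pool.Agent.T9h40.PE
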