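import Pool.Agent.T9h40.PE.Fam
set_option autoImplicit false

/-!
Elliptic curves over the complex numbers: function fields with a solution of a Weierstrass
equation, and the model `w² = (u² + a)² - 4`.
-/

namespace Pool.Agent.T9h40.PE

open Polynomial

variable {L : Type*} [Field L] {k : ℂ →+* L} {x y : L} {σ τ : ℂ}

theorem gen_weier (W : WeierstrassCurve ℂ)
    (h : y ^ 2 + k W.a₁ * x * y + k W.a₃ * y = x ^ 3 + k W.a₂ * x ^ 2 + k W.a₄ * x + k W.a₆)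
    (hL : ∀ z : L, z ∈ Subfield.closure (Set.range k ∪ {x, y})) : Gen k x y := by
  refine gen_of_closure' (f := X ^ 3 + C W.a₂ * X ^ 2 + C W.a₄ * X + C W.a₆)
    (f₁ := -(C W.a₁ * X + C W.a₃)) ?_ hL
  simp only [Polynomial.eval₂_add, Polynomial.eval₂_mul, Polynomial.eval₂_neg,
    Polynomial.eval₂_X, Polynomial.eval₂_C, Polynomial.eval₂_X_pow]
  linear_combination h

theorem modelF (hG : Gen k x y) (hx : ∀ a, x ≠ k a)
    (hxy : y ^ 2 = x * (x - k (σ ^ 2)) * (x - k (τ ^ 2))) (hσ : σ ≠ 0) (hτ : τ ≠ 0)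
    (hst : σ ^ 2 ≠ τ ^ 2) :
    ∃ (a : ℂ) (u w : L), a ^ 2 ≠ 4 ∧ w ^ 2 = (u ^ 2 + k a) ^ 2 - 4 ∧
      ∀ K₀ : Subfield L, (∀ c, k c ∈ K₀) → u ∈ K₀ → w ∈ K₀ → ∀ z, z ∈ K₀ := by
  have : CharZero L := charZero_of_injective_ringHom k.injective
  obtain ⟨ω, hω⟩ := IsAlgClosed.exists_pow_nat_eq (σ * τ) two_pos
  have hω0 : ω ≠ 0 := by
    rintro rfl
    rw [zero_pow two_ne_zero] at hω
    exact mul_ne_zero hσ hτ hω.symm
  have hd : σ - τ ≠ 0 := by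
    intro h
    apply hst
    rw [sub_eq_zero.1 h]
  have hI := Complex.I_sq
  have hI0 := Complex.I_ne_zero
  have kI : (k Complex.I) ^ 2 = -1 := by rw [← map_pow, hI, map_neg, map_one]
  have kI0 : k Complex.I ≠ 0 := (_root_.map_ne_zero k).2 hI0
  have kω : (k ω) ^ 2 = k σ * k τ := by rw [← map_pow, hω, map_mul]
  have kσ0 : k σ ≠ 0 := (_root_.map_ne_zero k).2 hσ
  have kτ0 : k τ ≠ 0 := (_root_.map_ne_zero k).2 hτ
  have kω0 : k ω ≠ 0 := (_root_.map_ne_zero k).2 hω0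
  have kd : k σ - k τ ≠ 0 := by
    rw [← map_sub]
    exact (_root_.map_ne_zero k).2 hd
  have hxs : x - k σ * k τ ≠ 0 := by
    rw [← map_mul]
    exact sub_ne_zero.2 (hx _)
  obtain ⟨β, hβ⟩ : ∃ β : ℂ, β = Complex.I * (σ - τ) / ω := ⟨_, rfl⟩
  have kβ : k β = k Complex.I * (k σ - k τ) / k ω := by
    rw [hβ, map_div₀, map_mul, map_sub]
  have kβ0 : k β ≠ 0 := by
    rw [kβ]
    exact div_ne_zero (mul_ne_zero kI0 kd) kω0
  have kβ2 : (k β) ^ 2 = -(k σ - k τ) ^ 2 / (k σ * k τ) := by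
    rw [kβ, div_pow, mul_pow, kI, kω]
    ring
  obtain ⟨x₁, hx₁⟩ : ∃ x₁ : L, x₁ = k β * (x + k σ * k τ) / (x - k σ * k τ) := ⟨_, rfl⟩
  obtain ⟨y₁, hy₁⟩ : ∃ y₁ : L, y₁ = 4 * k Complex.I * (k σ - k τ) * y / (x - k σ * k τ) ^ 2 :=
    ⟨_, rfl⟩
  have hx₁2 : x₁ ^ 2 = -(k σ - k τ) ^ 2 / (k σ * k τ) * (x + k σ * k τ) ^ 2 /
      (x - k σ * k τ) ^ 2 := by
    rw [hx₁, div_pow, mul_pow, kβ2]
  have hy₁2 : y₁ ^ 2 = -16 * (k σ - k τ) ^ 2 * (x * (x - k σ ^ 2) * (x - k τ ^ 2)) /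
      (x - k σ * k τ) ^ 4 := by
    rw [map_pow, map_pow] at hxy
    rw [hy₁, div_pow, ← hxy, ← pow_mul]
    congr 1
    linear_combination 16 * (k σ - k τ) ^ 2 * y ^ 2 * kI
  have e1 : x₁ - k β = 2 * k β * (k σ * k τ) / (x - k σ * k τ) := by
    rw [hx₁]
    field_simp
    ring
  have e2 : x₁ + k β = 2 * k β * x / (x - k σ * k τ) := by
    rw [hx₁]
    field_simp
    ring
  have e3 : x₁ - k β ≠ 0 := by
    rw [e1]
    exact div_ne_zero (mul_ne_zero (mul_ne_zero two_ne_zero kβ0) (mul_ne_zero kσ0 kτ0)) hxs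
  have ex : x = k σ * k τ * (x₁ + k β) / (x₁ - k β) := by
    rw [e1, e2]
    field_simp
  have ey : y = y₁ * (x - k σ * k τ) ^ 2 / (4 * k Complex.I * (k σ - k τ)) := by
    rw [hy₁]
    have h4 : (4 : L) ≠ 0 := by norm_num
    field_simp
  refine ⟨(σ ^ 2 + τ ^ 2) / (σ * τ), x₁, y₁, ?_, ?_, ?_⟩
  · intro h
    rw [div_pow, div_eq_iff (pow_ne_zero 2 (mul_ne_zero hσ hτ))] at h
    have h1 : (σ ^ 2 - τ ^ 2) ^ 2 = 0 := by linear_combination h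
    exact hst (sub_eq_zero.1 (pow_eq_zero_iff two_ne_zero |>.1 h1))
  · rw [map_div₀, map_add, map_pow, map_pow, map_mul, hx₁2, hy₁2]
    field_simp
    ring
  · intro K₀ hk mx₁ my₁
    have mx : x ∈ K₀ := by
      rw [ex]
      exact div_mem (mul_mem (mul_mem (hk _) (hk _)) (add_mem mx₁ (hk _)))
        (sub_mem mx₁ (hk _))
    have m4 : (4 : L) ∈ K₀ := by
      rw [← (map_ofNat k 4 : k 4 = 4)]
      exact hk 4
    have my : y ∈ K₀ := by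
      rw [ey]
      exact div_mem (mul_mem my₁ (pow_mem (sub_mem mx (mul_mem (hk _) (hk _))) 2))
        (mul_mem (mul_mem m4 (hk _)) (sub_mem (hk _) (hk _)))
    exact mem_of_gen hG K₀ hk mx my

/-- The model `w² = (u² + a)² - 4`. -/
theorem model2 (W : WeierstrassCurve ℂ) (hΔ : W.Δ ≠ 0) (hG : Gen k x y) (hx : ∀ a, x ≠ k a)
    (h : y ^ 2 + k W.a₁ * x * y + k W.a₃ * y = x ^ 3 + k W.a₂ * x ^ 2 + k W.a₄ * x + k W.a₆) :
    ∃ (a : ℂ) (u w : L), a ^ 2 ≠ 4 ∧ w ^ 2 = (u ^ 2 + k a) ^ 2 - 4 ∧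
      ∀ z : L, z ∈ Subfield.closure (Set.range k ∪ {u, w}) := by
  have : CharZero L := charZero_of_injective_ringHom k.injective
  obtain ⟨e₁, e₂, e₃, hab, hac, hbc, e1, e2, e3⟩ := exists_roots W hΔ
  obtain ⟨σ, hσ⟩ := IsAlgClosed.exists_pow_nat_eq (e₂ - e₁) two_pos
  obtain ⟨τ, hτ⟩ := IsAlgClosed.exists_pow_nat_eq (e₃ - e₁) two_pos
  have hσ0 : σ ≠ 0 := by
    rintro rfl
    rw [zero_pow two_ne_zero] at hσ
    exact hab (sub_eq_zero.1 hσ.symm).symm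
  have hτ0 : τ ≠ 0 := by
    rintro rfl
    rw [zero_pow two_ne_zero] at hτ
    exact hac (sub_eq_zero.1 hτ.symm).symm
  have g1 := eq_roots k W e1 e2 e3 h
  rw [← hσ, ← hτ] at g1
  obtain ⟨a, u, w, ha, hw, hK⟩ := modelF
    (gen_change (a := e₁) (m := W.a₁ / 2) (n := W.a₃ / 2) hG)
    (fun u h1 => hx (u + e₁) (by rw [map_add, ← h1]; ring)) g1 hσ0 hτ0
    (by rw [hσ, hτ]; exact fun h => hbc (sub_left_inj.1 h))
  exact ⟨a, u, w, ha, hw, hK _ (fun c => Subfield.subset_closure (Or.inl ⟨c, rfl⟩))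
    (Subfield.subset_closure (Or.inr (Or.inl rfl)))
    (Subfield.subset_closure (Or.inr (Or.inr rfl)))⟩

end Pool.Agent.T9h40.PE
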