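import Pool.Agent.T9h40.PE.Two
set_option autoImplicit false

/-!
The curves `y² = (x ^ n + a)² - 4` with `a` not real.
-/

namespace Pool.Agent.T9h40.PE

open scoped WithZero ComplexConjugate

open Polynomial

open Pool.Agent.TH826.MK

variable {L : Type*} [Field L] {k : ℂ →+* L} {x y : L}

theorem gen_of_closure' {f f₁ : ℂ[X]} (hxy : y ^ 2 = f.eval₂ k x + f₁.eval₂ k x * y)
    (h : ∀ z : L, z ∈ Subfield.closure (Set.range k ∪ {x, y})) : Gen k x y := by
  obtain ⟨R, hR⟩ : ∃ R : Subring L, ∀ z, z ∈ R ↔ ∃ p q : ℂ[X],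
      z = p.eval₂ k x + q.eval₂ k x * y := by
    refine ⟨{ carrier := {z | ∃ p q : ℂ[X], z = p.eval₂ k x + q.eval₂ k x * y}
              mul_mem' := ?_
              one_mem' := ?_
              add_mem' := ?_
              zero_mem' := ?_
              neg_mem' := ?_ }, fun z => Iff.rfl⟩
    · rintro _ _ ⟨p, q, rfl⟩ ⟨p', q', rfl⟩
      refine ⟨p * p' + q * q' * f, p * q' + q * p' + q * q' * f₁, ?_⟩
      simp only [Polynomial.eval₂_add, Polynomial.eval₂_mul]
      linear_combination q.eval₂ k x * q'.eval₂ k x * hxy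
    · exact ⟨1, 0, by simp⟩
    · rintro _ _ ⟨p, q, rfl⟩ ⟨p', q', rfl⟩
      refine ⟨p + p', q + q', ?_⟩
      rw [Polynomial.eval₂_add, Polynomial.eval₂_add]
      ring
    · exact ⟨0, 0, by simp⟩
    · rintro _ ⟨p, q, rfl⟩
      refine ⟨-p, -q, ?_⟩
      rw [Polynomial.eval₂_neg, Polynomial.eval₂_neg]
      ring
  have hle : Subring.closure (Set.range k ∪ {x, y}) ≤ R := by
    rw [Subring.closure_le]
    rintro z (⟨c, rfl⟩ | hz)
    · exact (hR _).2 ⟨C c, 0, by simp⟩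
    · rcases hz with rfl | hz
      · exact (hR _).2 ⟨X, 0, by simp⟩
      · rw [Set.mem_singleton_iff] at hz
        subst hz
        exact (hR _).2 ⟨0, 1, by simp⟩
  intro z
  obtain ⟨u, hu, w, hw, hz⟩ := Subfield.mem_closure_iff.1 (h z)
  obtain ⟨p, q, h1⟩ := (hR _).1 (hle hu)
  obtain ⟨p', q', h2⟩ := (hR _).1 (hle hw)
  by_cases hw0 : w = 0
  · refine ⟨0, 0, 1, 0, by simp, ?_⟩
    rw [← hz, hw0]
    simp
  · refine ⟨p, q, p', q', by rw [← h2]; exact hw0, ?_⟩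
    rw [← h1, ← h2, ← hz, div_mul_cancel₀ _ hw0]

theorem gen_of_closure {f : ℂ[X]} (hxy : y ^ 2 = f.eval₂ k x)
    (h : ∀ z : L, z ∈ Subfield.closure (Set.range k ∪ {x, y})) : Gen k x y :=
  gen_of_closure' (f := f) (f₁ := 0) (by rw [hxy, Polynomial.eval₂_zero, zero_mul, add_zero]) h

theorem mem_of_gen (hG : Gen k x y) (K₀ : Subfield L) (hk : ∀ c, k c ∈ K₀) (hx : x ∈ K₀)
    (hy : y ∈ K₀) (z : L) : z ∈ K₀ := by
  have mp : ∀ p : ℂ[X], p.eval₂ k x ∈ K₀ := by
    intro p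
    rw [Polynomial.eval₂_eq_sum_range]
    exact sum_mem fun i _ => mul_mem (hk _) (pow_mem hx i)
  obtain ⟨p, q, p', q', h1, h2⟩ := hG z
  rw [eq_div_of_mul_eq h1 h2]
  exact div_mem (add_mem (mp _) (mul_mem (mp _) hy)) (add_mem (mp _) (mul_mem (mp _) hy))

variable {n : ℕ} {a β : ℂ}

theorem fam_root (hn : n ≠ 0) {ε : ℂ} (hβ0 : β ≠ 0) (h : β ^ n + a = 2 * ε) :
    ∃ G : ℂ[X], X ^ n + C a - C (2 * ε) = (X - C β) * G ∧ G.eval β ≠ 0 := by
  obtain ⟨G, hG⟩ : X - C β ∣ X ^ n + C a - C (2 * ε) := by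
    rw [dvd_iff_isRoot, IsRoot.def, eval_sub, eval_add, eval_pow, eval_X, eval_C, eval_C, h,
      sub_self]
  refine ⟨G, hG, ?_⟩
  have h1 := congrArg (fun p => (derivative p).eval β) hG
  simp only [derivative_sub, derivative_add, derivative_X_pow, derivative_C, derivative_mul,
    derivative_X, eval_sub, eval_add, eval_mul, eval_pow, eval_X, eval_C, sub_self, zero_mul,
    sub_zero, add_zero, one_mul] at h1
  rw [← h1]
  exact mul_ne_zero (by exact_mod_cast hn) (pow_ne_zero _ hβ0)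

theorem fam_root2 (hn : n ≠ 0) (hβ0 : β ≠ 0) (h : (β ^ n + a) ^ 2 = 4) :
    ∃ g : ℂ[X], (X ^ n + C a) ^ 2 - C 4 = (X - C β) * g ∧ g.eval β ≠ 0 := by
  obtain ⟨ε, hε⟩ : ∃ ε : ℂ, β ^ n + a = 2 * ε := ⟨(β ^ n + a) / 2, by ring⟩
  have hε2 : ε ^ 2 = 1 := by
    rw [hε] at h
    linear_combination h / 4
  obtain ⟨G, hG, hG0⟩ := fam_root hn hβ0 hε
  refine ⟨G * (X ^ n + C a + C (2 * ε)), ?_, ?_⟩
  · have h8 : (C 4 : ℂ[X]) = C (2 * ε) * C (2 * ε) := by
      rw [← C_mul]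
      congr 1
      linear_combination -4 * hε2
    rw [h8]
    linear_combination (X ^ n + C a + C (2 * ε)) * hG
  · simp only [eval_mul, eval_add, eval_pow, eval_X, eval_C]
    rw [hε]
    refine mul_ne_zero hG0 ?_
    intro h9
    have h10 : ε = 0 := by linear_combination h9 / 4
    rw [h10, zero_pow two_ne_zero] at hε2
    exact zero_ne_one hε2

/-- If `|z| = 1`, then `z + 1 / z` is real. -/
theorem real_of_norm {u y₀ : ℂ} (h0 : y₀ ^ 2 = u ^ 2 - 4) (h : ‖(u + y₀) / 2‖ = 1) :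
    ∃ r : ℝ, u = r := by
  refine ⟨2 * ((u + y₀) / 2).re, ?_⟩
  obtain ⟨ζ, hζ⟩ : ∃ ζ : ℂ, ζ = (u + y₀) / 2 := ⟨_, rfl⟩
  rw [← hζ] at h ⊢
  have h1 : ζ * conj ζ = 1 := by
    rw [Complex.mul_conj, Complex.normSq_eq_norm_sq, h]
    norm_num
  have h2 : ζ * ((u - y₀) / 2) = 1 := by
    rw [hζ]
    linear_combination -h0 / 4
  have h3 : ζ ≠ 0 := left_ne_zero_of_mul_eq_one h1
  have h4 : conj ζ = (u - y₀) / 2 := mul_left_cancel₀ h3 (h1.trans h2.symm)
  have h5 : ζ + conj ζ = u := by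
    rw [h4, hζ]
    ring
  rw [← h5, Complex.add_conj]

theorem exc {u w y₀ y₁ : ℂ} (ha : a.im ≠ 0) (h0 : y₀ ^ 2 = u ^ 2 - 4) (h : ‖(u + y₀) / 2‖ = 1)
    (h1 : y₁ ^ 2 = w ^ 2 - 4) (h2 : ‖(w + y₁) / 2‖ = 1) (h3 : (u - a) * (w - a) = a ^ 2 - 4) :
    y₀ = 0 := by
  obtain ⟨r, hr⟩ := real_of_norm h0 h
  obtain ⟨s, hs⟩ := real_of_norm h1 h2
  rw [hr, hs] at h3
  have h4 : ((r * s + 4 : ℝ) : ℂ) = a * ((r + s : ℝ) : ℂ) := by
    push_cast
    linear_combination h3
  have h5 := congrArg Complex.im h4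
  rw [Complex.ofReal_im, Complex.im_mul_ofReal] at h5
  have h6 : r + s = 0 := by
    rcases mul_eq_zero.1 h5.symm with h | h
    · exact absurd h ha
    · exact h
  rw [h6, Complex.ofReal_zero, mul_zero] at h4
  have h7 : r * s + 4 = 0 := Complex.ofReal_eq_zero.1 h4
  have h8 : r ^ 2 = 4 := by
    have : s = -r := by linarith
    rw [this] at h7
    linarith
  have h9 : y₀ ^ 2 = 0 := by
    rw [h0, hr, ← Complex.ofReal_pow, h8]
    norm_num
  exact pow_eq_zero_iff two_ne_zero |>.1 h9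

/-- The main result for the family. -/
theorem fam (hn : n ≠ 0) (ha : a.im ≠ 0) (hβ : (β ^ n + a) ^ 2 = 4) (hG : Gen k x y)
    (hx : ∀ u, x ≠ k u) (hxy : y ^ 2 = ((X ^ n + C a) ^ 2 - C 4).eval₂ k x) :
    (∀ b y₀ : ℂ, y₀ ^ 2 = (b ^ n + a) ^ 2 - 4 → b ≠ β →
      ∃ (S : KQ L 2) (c : ℂˣ), ‖(c : ℂ)‖ ≠ 1 ∧
        Bd2 k (fun v => v (x - k b) < 1 ∧ v (y - k y₀) < 1) (fun v => v (x - k β) < 1) S c) ∧
    (∀ w : ℂ, w ^ 2 = 1 → ∃ (S : KQ L 2) (c : ℂˣ), ‖(c : ℂ)‖ ≠ 1 ∧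
        Bd2 k (fun v => 1 < v x ∧ v (y / x ^ n - k w) < 1) (fun v => v (x - k β) < 1) S c) := by
  have hroot : ∀ e : ℂ, (e ^ n + a) ^ 2 = 4 → e ≠ 0 := by
    rintro e he rfl
    rw [zero_pow hn, zero_add] at he
    have h1 : (a - 2) * (a + 2) = 0 := by linear_combination he
    rcases mul_eq_zero.1 h1 with h | h
    · apply ha
      rw [sub_eq_zero.1 h]
      rfl
    · apply ha
      rw [eq_neg_of_add_eq_zero_left h]
      simp
  have hβ0 := hroot β hβ
  obtain ⟨ε, hε⟩ : ∃ ε : ℂ, β ^ n + a = 2 * ε := ⟨(β ^ n + a) / 2, by ring⟩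
  have hε2 : ε ^ 2 = 1 := by
    rw [hε] at hβ
    linear_combination hβ / 4
  obtain ⟨G, hGβ, hG0⟩ := fam_root hn hβ0 hε
  -- the second system of coordinates
  obtain ⟨c, hc⟩ := IsAlgClosed.exists_pow_nat_eq (a ^ 2 - 4) two_pos
  have hc0 : c ≠ 0 := by
    rintro rfl
    rw [zero_pow two_ne_zero] at hc
    refine hroot 0 ?_ rfl
    rw [zero_pow hn]
    linear_combination -hc
  obtain ⟨κ, hκ⟩ := IsAlgClosed.exists_pow_nat_eq (c ^ 2) (Nat.pos_of_ne_zero hn)
  have hκ0 : κ ≠ 0 := by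
    rintro rfl
    rw [zero_pow hn] at hκ
    exact pow_ne_zero 2 hc0 hκ.symm
  have hxL : x ≠ 0 := by
    have h1 := hx 0
    rwa [map_zero] at h1
  have kκ0 : k κ ≠ 0 := (_root_.map_ne_zero k).2 hκ0
  have kc0 : k c ≠ 0 := (_root_.map_ne_zero k).2 hc0
  obtain ⟨x', hx'⟩ : ∃ x' : L, x' = k κ / x := ⟨_, rfl⟩
  obtain ⟨y', hy'⟩ : ∃ y' : L, y' = k c * (y / x ^ n) := ⟨_, rfl⟩
  have ex : x = k κ / x' := by
    rw [hx', div_div_cancel₀ kκ0]
  have ey : y = y' * x ^ n / k c := by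
    rw [hy']
    field_simp
  have hx'ne : ∀ u, x' ≠ k u := by
    intro u hu
    apply hx (κ / u)
    rw [map_div₀, ← hu]
    exact ex
  have hkc : k c ^ 2 = k a ^ 2 - 4 := by
    rw [← map_pow, hc, map_sub, map_pow, (map_ofNat k 4 : k 4 = 4)]
  have hkκ : k κ ^ n = k c ^ 2 := by rw [← map_pow, hκ, map_pow]
  have hxy2 : y ^ 2 = (x ^ n + k a) ^ 2 - 4 := by
    rw [hxy, Polynomial.eval₂_sub, Polynomial.eval₂_pow, Polynomial.eval₂_add,
      Polynomial.eval₂_pow, Polynomial.eval₂_X, Polynomial.eval₂_C, Polynomial.eval₂_C,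
      (map_ofNat k 4 : k 4 = 4)]
  have hxy' : y' ^ 2 = ((X ^ n + C a) ^ 2 - C 4).eval₂ k x' := by
    rw [Polynomial.eval₂_sub, Polynomial.eval₂_pow, Polynomial.eval₂_add,
      Polynomial.eval₂_pow, Polynomial.eval₂_X, Polynomial.eval₂_C, Polynomial.eval₂_C,
      (map_ofNat k 4 : k 4 = 4), hy', hx', div_pow, hkκ, mul_pow, div_pow, hxy2]
    have hxn : x ^ n ≠ 0 := pow_ne_zero n hxL
    obtain ⟨t, ht⟩ : ∃ t, t = x ^ n := ⟨_, rfl⟩
    rw [← ht] at hxn ⊢
    field_simp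
    linear_combination (t ^ 2 - k c ^ 2) * hkc
  have hG' : Gen k x' y' := by
    refine gen_of_closure hxy' fun z => ?_
    obtain ⟨K₀, hK₀⟩ : ∃ K₀ : Subfield L, K₀ = Subfield.closure (Set.range k ∪ {x', y'}) :=
      ⟨_, rfl⟩
    have hk : ∀ u, k u ∈ K₀ := fun u => by
      rw [hK₀]
      exact Subfield.subset_closure (Or.inl ⟨u, rfl⟩)
    have m1 : x' ∈ K₀ := by
      rw [hK₀]
      exact Subfield.subset_closure (Or.inr (Or.inl rfl))
    have m2 : y' ∈ K₀ := by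
      rw [hK₀]
      exact Subfield.subset_closure (Or.inr (Or.inr rfl))
    have m3 : x ∈ K₀ := by
      rw [ex]
      exact div_mem (hk _) m1
    have m4 : y ∈ K₀ := by
      rw [ey]
      exact div_mem (mul_mem m2 (pow_mem m3 n)) (hk _)
    rw [← hK₀]
    exact mem_of_gen hG K₀ hk m3 m4 z
  -- the points in the second system of coordinates
  have hval : ∀ v : Valuation L ℤᵐ⁰, Triv k v → ∀ b : ℂ, b ≠ 0 →
      (v (x - k b) < 1 ↔ v (x' - k (κ / b)) < 1) := by
    intro v hv b hb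
    have kb0 : k b ≠ 0 := (_root_.map_ne_zero k).2 hb
    have e1 : x' - k (κ / b) = -(k κ * (x - k b)) / (x * k b) := by
      rw [hx', map_div₀]
      field_simp
      ring
    have e2 : v (x' - k (κ / b)) = v (x - k b) / v x := by
      rw [e1, map_div₀, Valuation.map_neg, map_mul, map_mul, hv _ hκ0, hv _ hb, one_mul,
        mul_one]
    constructor
    · intro h
      rw [e2, hv.eq_one hb h, div_one]
      exact h
    · intro h
      have h1 : v x' = 1 := hv.eq_one (div_ne_zero hκ0 hb) h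
      have h2 : v x = 1 := by
        rw [ex, map_div₀, hv _ hκ0, h1, div_one]
      rwa [e2, h2, div_one] at h
  have hβ' : (κ / β) ^ n + a = 2 * -ε := by
    rw [div_pow, hκ]
    have h1 : β ^ n = 2 * ε - a := by linear_combination hε
    have h2 : (2 * ε - a) ≠ 0 := by
      rw [← h1]
      exact pow_ne_zero n hβ0
    rw [h1, hc]
    field_simp
    linear_combination 4 * hε2
  obtain ⟨G', hGβ', hG0'⟩ := fam_root hn (div_ne_zero hκ0 hβ0) hβ'
  have hFev : ∀ b : ℂ, (X ^ n + C a : ℂ[X]).eval b = b ^ n + a := by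
    intro b
    rw [eval_add, eval_pow, eval_X, eval_C]
  refine ⟨fun b y₀ h0 hbβ => ?_, fun w hw => ?_⟩
  · by_cases hy₀ : y₀ = 0
    · subst hy₀
      have hb : (b ^ n + a) ^ 2 = 4 := by
        linear_combination -h0
      obtain ⟨g₁, h1, h2⟩ := fam_root2 hn (hroot b hb) hb
      obtain ⟨g₂, h3, h4⟩ := fam_root2 hn hβ0 hβ
      exact lemT hG hx hxy hbβ h1 h2 h3 h4
    · by_cases hn1 : ‖(b ^ n + a + y₀) / 2‖ = 1
      · have hb0 : b ≠ 0 := by
          rintro rfl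
          rw [zero_pow hn, zero_add] at hn1 h0
          obtain ⟨r, hr⟩ := real_of_norm h0 hn1
          apply ha
          rw [hr, Complex.ofReal_im]
        have hbn : b ^ n ≠ 0 := pow_ne_zero n hb0
        obtain ⟨y₁, hy₁⟩ : ∃ y₁ : ℂ, y₁ = c * (y₀ / b ^ n) := ⟨_, rfl⟩
        have h1 : y₁ ^ 2 = ((κ / b) ^ n + a) ^ 2 - 4 := by
          rw [hy₁, div_pow, hκ, mul_pow, div_pow, h0]
          obtain ⟨t, ht⟩ : ∃ t, t = b ^ n := ⟨_, rfl⟩
          rw [← ht] at hbn ⊢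
          field_simp
          linear_combination (t ^ 2 - c ^ 2) * hc
        have h2 : ‖((κ / b) ^ n + a + y₁) / 2‖ ≠ 1 := by
          intro h
          apply hy₀
          refine exc ha h0 hn1 h1 h ?_
          rw [div_pow, hκ, add_sub_cancel_right, add_sub_cancel_right, mul_div_cancel₀ _ hbn,
            hc]
        obtain ⟨S, d, hd, hS⟩ := lemG hG' hx'ne (F := X ^ n + C a) hxy' (b := κ / b)
          (y₀ := y₁) (by rw [hFev]; exact h1) (by rw [hFev]; exact h2)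
          (ε := -ε) (by rw [neg_sq]; exact hε2) hGβ' hG0'
        refine ⟨S, d, hd, hS.congr (fun v hv => ?_) (fun v hv => hval v hv β hβ0)⟩
        have key : v (x - k b) < 1 → (v (y - k y₀) < 1 ↔ v (y' - k y₁) < 1) := by
          intro h3
          have h4 : v x = 1 := hv.eq_one hb0 h3
          have e1 : y' - k y₁ = k c * ((y - k y₀) + -(k y₀ / k b ^ n * (x ^ n - k b ^ n))) /
              x ^ n := by
            have kb0 : k b ≠ 0 := (_root_.map_ne_zero k).2 hb0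
            have hxn : x ^ n ≠ 0 := pow_ne_zero n hxL
            have kbn : k b ^ n ≠ 0 := pow_ne_zero n kb0
            rw [hy', hy₁, map_mul, map_div₀, map_pow]
            field_simp
            ring
          have e2 : v (x ^ n - k b ^ n) < 1 := by
            have h5 := hv.eval_sub h3 (X ^ n)
            rwa [Polynomial.eval₂_X_pow, eval_pow, eval_X, map_pow] at h5
          have e3 : v (k y₀ / k b ^ n * (x ^ n - k b ^ n)) < 1 := by
            rw [← map_pow k, ← map_div₀, map_mul, mul_comm]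
            exact mul_lt_one_of_lt_of_le (by rw [map_pow]; exact e2) (hv.le _)
          have e4 : v (y' - k y₁) = v ((y - k y₀) + -(k y₀ / k b ^ n * (x ^ n - k b ^ n))) := by
            rw [e1, map_div₀, map_pow, h4, one_pow, div_one, map_mul, hv _ hc0, one_mul]
          rw [e4]
          constructor
          · intro h5
            refine v.map_add_lt h5 ?_
            rw [Valuation.map_neg]
            exact e3
          · intro h5
            have e5 : y - k y₀ = ((y - k y₀) + -(k y₀ / k b ^ n * (x ^ n - k b ^ n))) +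
                (k y₀ / k b ^ n * (x ^ n - k b ^ n)) := by ring
            rw [e5]
            exact v.map_add_lt h5 e3
        constructor
        · rintro ⟨h3, h4⟩
          exact ⟨(hval v hv b hb0).1 h3, (key h3).1 h4⟩
        · rintro ⟨h3, h4⟩
          have h5 := (hval v hv b hb0).2 h3
          exact ⟨h5, (key h5).2 h4⟩
      · exact lemG hG hx (F := X ^ n + C a) hxy (by rw [hFev]; exact h0)
          (by rw [hFev]; exact hn1) hε2 hGβ hG0
  · have h0 : (c * w) ^ 2 = ((0 : ℂ) ^ n + a) ^ 2 - 4 := by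
      rw [mul_pow, hc, hw, zero_pow hn]
      ring
    have h2 : ‖((0 : ℂ) ^ n + a + c * w) / 2‖ ≠ 1 := by
      intro h
      obtain ⟨r, hr⟩ := real_of_norm h0 h
      apply ha
      rw [zero_pow hn, zero_add] at hr
      rw [hr, Complex.ofReal_im]
    obtain ⟨S, d, hd, hS⟩ := lemG hG' hx'ne (F := X ^ n + C a) hxy' (b := 0)
      (y₀ := c * w) (by rw [hFev]; exact h0) (by rw [hFev]; exact h2)
      (ε := -ε) (by rw [neg_sq]; exact hε2) hGβ' hG0'
    refine ⟨S, d, hd, hS.congr (fun v hv => ?_) (fun v hv => hval v hv β hβ0)⟩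
    have e1 : v (x' - k 0) < 1 ↔ 1 < v x := by
      rw [map_zero, sub_zero, hx', map_div₀, hv _ hκ0]
      exact div_lt_one₀ (zero_lt_iff.2 ((Valuation.ne_zero_iff v).2 hxL))
    have e2 : v (y' - k (c * w)) = v (y / x ^ n - k w) := by
      rw [hy', map_mul k, ← mul_sub, map_mul, hv _ hc0, one_mul]
    rw [e1, e2]

end Pool.Agent.T9h40.PE
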