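import Pool.Agent.T9h40.PE.Pell
set_option autoImplicit false

/-!
The points at infinity and the points with `x = 0` of hyperelliptic curves with torsion pairs.
-/

namespace Pool.Agent.T9h40.PE

open scoped WithZero

open Polynomial

open Pool.Agent.TH826.MK

variable {L : Type*} [Field L] {k : ℂ →+* L} {x y : L}

/-- Symbols `{c, h}` with a constant `c`. -/
theorem bd2_const (c : ℂˣ) (h : Lˣ) (n : ℤ) {P Q : Valuation L ℤᵐ⁰ → Prop}
    (H1 : ∀ v : Valuation L ℤᵐ⁰, Function.Surjective v → Triv k v → P v →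
      v (h : L) = WithZero.exp (-n))
    (H2 : ∀ v : Valuation L ℤᵐ⁰, Function.Surjective v → Triv k v → Q v →
      v (h : L) = WithZero.exp n)
    (H3 : ∀ v : Valuation L ℤᵐ⁰, Function.Surjective v → Triv k v → ¬ P v → ¬ Q v →
      v (h : L) = 1) :
    Bd2 k P Q (symb ![kc k c, h]) (c ^ n) := by
  intro v hs hv π hπ
  have hc : v ((kc k c : L) - kc k c) < 1 := by
    rw [sub_self, map_zero]
    exact zero_lt_one
  refine ⟨fun h1 => ?_, fun h1 => ?_, fun h1 h2 => unit_mem (hv.kc c) (H3 v hs hv h1 h2)⟩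
  · have h3 := tame (hv.kc c) hc (H1 v hs hv h1) hπ
    rwa [kc_pow, symb_zpow_left]
  · have h3 := tame (hv.kc c) hc (m := -n) (by rw [neg_neg]; exact H2 v hs hv h1) hπ
    rw [kc_pow, symb_zpow_left]
    rwa [Int.cast_neg, neg_smul, sub_neg_eq_add] at h3

theorem two_pow_ne {c : ℂˣ} (hc : (c : ℂ) = 2) {n : ℕ} (hn : 0 < n) :
    ‖((c ^ (2 * n : ℤ) : ℂˣ) : ℂ)‖ ≠ 1 := by
  have h1 : ((c ^ (2 * n : ℤ) : ℂˣ) : ℂ) = 2 ^ (2 * n) := by
    rw [Units.val_zpow_eq_zpow_val, hc]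
    exact_mod_cast rfl
  rw [h1, norm_pow]
  intro h
  have h2 := (pow_eq_one_iff_of_nonneg (norm_nonneg _) (by omega : 2 * n ≠ 0)).1 h
  norm_num at h2

variable {D : ℂ[X]} {y₀ β : ℂ}

/-- The function `(A + B y) / x ^ m` is a unit at the places with `x ≠ 0`. -/
theorem unitU {v : Valuation L ℤᵐ⁰} (hv : Triv k v) (hxL : x ≠ 0) {A B : ℂ[X]} {m : ℕ}
    (hxy : y ^ 2 = D.eval₂ k x)
    (hABL : A.eval₂ k x ^ 2 - D.eval₂ k x * B.eval₂ k x ^ 2 = (x ^ m) ^ 2)
    (hA : A.natDegree ≤ m) (hA0 : A.eval 0 ≠ 0) (hx1 : 1 ≤ v x) :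
    v ((A.eval₂ k x + B.eval₂ k x * y) / x ^ m) = 1 := by
  have hxm : x ^ m ≠ 0 := pow_ne_zero m hxL
  have hzz : (A.eval₂ k x + B.eval₂ k x * y) / x ^ m *
      ((A.eval₂ k x - B.eval₂ k x * y) / x ^ m) = 1 := by
    rw [← hxy] at hABL
    field_simp
    linear_combination hABL
  have hxp : 0 < v x := zero_lt_one.trans_le hx1
  have hA1 : A ≠ 0 := by
    rintro rfl
    simp at hA0
  have hvA : v (A.eval₂ k x / x ^ m) ≤ 1 := by
    rw [map_div₀, map_pow]
    rcases hx1.lt_or_eq with hx2 | hx2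
    · rw [hv.eval_inf hx2 hA1]
      exact (div_le_one₀ (pow_pos hxp m)).2 (pow_le_pow_right₀ hx1 hA)
    · rw [← hx2, one_pow, div_one]
      exact hv.eval_le hx2.ge A
  have hvB : v (B.eval₂ k x * y / x ^ m) ≤ 1 := by
    have h3 : (B.eval₂ k x * y / x ^ m) ^ 2 = (A.eval₂ k x / x ^ m) ^ 2 - 1 := by
      rw [← hxy] at hABL
      field_simp
      linear_combination -hABL
    have h4 : v (B.eval₂ k x * y / x ^ m) ^ 2 ≤ 1 := by
      rw [← map_pow, h3]
      refine (v.map_sub _ _).trans (max_le ?_ (by rw [map_one]))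
      rw [map_pow]
      exact pow_le_one' hvA 2
    exact (pow_le_one_iff two_ne_zero).1 h4
  have h3 : v ((A.eval₂ k x + B.eval₂ k x * y) / x ^ m) ≤ 1 := by
    rw [add_div]
    exact (v.map_add _ _).trans (max_le hvA hvB)
  have h4 : v ((A.eval₂ k x - B.eval₂ k x * y) / x ^ m) ≤ 1 := by
    rw [sub_div]
    exact (v.map_sub _ _).trans (max_le hvA hvB)
  refine le_antisymm h3 (not_lt.1 fun h => ?_)
  have h5 := congrArg v hzz
  rw [map_mul, map_one] at h5
  exact absurd h5 (mul_lt_one_of_lt_of_le h h4).ne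

/-- The points with `x = 0`. -/
theorem lemZ0 (hG : Gen k x y) (hx : ∀ u, x ≠ k u) {A B : ℂ[X]} {m : ℕ}
    (hxy : y ^ 2 = D.eval₂ k x) (hAB : A ^ 2 - D * B ^ 2 = X ^ (2 * m)) (hA : A.natDegree ≤ m)
    (hβ0 : β ≠ 0) (hA0 : A.eval 0 ≠ 0) (hm : 0 < m) (h0 : y₀ ^ 2 = D.eval 0)
    (hn : A.eval 0 + B.eval 0 * y₀ ≠ 0) {g : ℂ[X]} (hβ : D = (X - C β) * g)
    (hg : g.eval β ≠ 0) :
    ∃ (S : KQ L 2) (c : ℂˣ), ‖(c : ℂ)‖ ≠ 1 ∧
      Bd2 k (fun v => v (x - k 0) < 1 ∧ v (y - k y₀) < 1) (fun v => v (x - k β) < 1) S c := by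
  have hxL : x ≠ 0 := by
    have h1 := hx 0
    rwa [map_zero] at h1
  have hxm : x ^ m ≠ 0 := pow_ne_zero m hxL
  have hABL : A.eval₂ k x ^ 2 - D.eval₂ k x * B.eval₂ k x ^ 2 = (x ^ m) ^ 2 := by
    have h1 := congrArg (Polynomial.eval₂ k x) hAB
    rw [Polynomial.eval₂_sub, Polynomial.eval₂_mul, Polynomial.eval₂_pow, Polynomial.eval₂_pow,
      Polynomial.eval₂_X_pow, mul_comm 2 m, pow_mul] at h1
    exact h1
  have hzz : (A.eval₂ k x + B.eval₂ k x * y) / x ^ m *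
      ((A.eval₂ k x - B.eval₂ k x * y) / x ^ m) = 1 := by
    rw [← hxy] at hABL
    field_simp
    linear_combination hABL
  have hy₀ : y₀ ≠ 0 := by
    rintro rfl
    rw [zero_pow two_ne_zero] at h0
    have h1 := congrArg (Polynomial.eval 0) hAB
    rw [eval_sub, eval_mul, ← h0, zero_mul, sub_zero, eval_pow, eval_pow, eval_X,
      zero_pow (by omega)] at h1
    exact hA0 (pow_eq_zero_iff two_ne_zero |>.1 h1)
  have hB : y ^ 2 = (x - k β) * g.eval₂ k x := by
    rw [hxy, hβ, Polynomial.eval₂_mul, Polynomial.eval₂_sub, Polynomial.eval₂_X,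
      Polynomial.eval₂_C]
  obtain ⟨c, hc⟩ := exists_two
  obtain ⟨N, hN⟩ : ∃ N, N = A.eval₂ k x + B.eval₂ k x * y := ⟨_, rfl⟩
  obtain ⟨M, hM⟩ : ∃ M, M = A.eval₂ k x - B.eval₂ k x * y := ⟨_, rfl⟩
  rw [← hN, ← hM] at hzz
  have hxβ : x - k β ≠ 0 := sub_ne_zero.2 (hx β)
  have hM0 : M / x ^ m ≠ 0 := right_ne_zero_of_mul_eq_one hzz
  obtain ⟨h, hh⟩ : ∃ h : Lˣ, (h : L) = M / x ^ m * (x / (x - k β)) ^ m :=
    ⟨Units.mk0 _ (mul_ne_zero hM0 (pow_ne_zero m (div_ne_zero hxL hxβ))), rfl⟩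
  have hvh : ∀ v : Valuation L ℤᵐ⁰, v (h : L) = v (M / x ^ m) * (v x / v (x - k β)) ^ m := by
    intro v
    rw [hh, map_mul, map_pow, map_div₀ v x]
  refine ⟨symb ![kc k c, h], c ^ (2 * m : ℤ), two_pow_ne hc hm, bd2_const c h _ ?_ ?_ ?_⟩
  · intro v hs hv h1
    obtain ⟨h1, h2⟩ := h1
    have h3 := ordP hG hs hv hxy hy₀ (hx _) h1 h2
    rw [map_zero, sub_zero] at h3
    have h4 : v N = 1 := by
      rw [hN]
      exact hv.eq_one hn (ev_val hv h1 h2)
    have h5 : v (x - k β) = 1 := hv.other h1 hβ0.symm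
    have h6 : v (M / x ^ m) = WithZero.exp (-(m : ℤ)) := by
      have h7 := congrArg v hzz
      rw [map_mul, map_one, map_div₀, map_pow, h4, h3, ← WithZero.exp_nsmul] at h7
      have h8 : (1 : ℤᵐ⁰) / WithZero.exp (m • (-1 : ℤ)) = WithZero.exp (m : ℤ) := by
        rw [← WithZero.exp_zero, ← WithZero.exp_sub]
        congr 1
        rw [nsmul_eq_mul]
        ring
      rw [h8] at h7
      have h9 : WithZero.exp (m : ℤ) * WithZero.exp (-(m : ℤ)) = (1 : ℤᵐ⁰) := by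
        rw [← WithZero.exp_add, add_neg_cancel, WithZero.exp_zero]
      exact mul_left_cancel₀ (WithZero.exp_ne_zero) (h7.trans h9.symm)
    rw [hvh, h6, h3, h5, div_one, ← WithZero.exp_nsmul, ← WithZero.exp_add]
    congr 1
    rw [nsmul_eq_mul]
    ring
  · intro v hs hv h1
    have h2 : v x = 1 := hv.eq_one hβ0 h1
    have h3 : v (N / x ^ m) = 1 := by
      rw [hN]
      exact unitU hv hxL hxy hABL hA hA0 h2.ge
    have h4 : v (M / x ^ m) = 1 := by
      have h7 := congrArg v hzz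
      rwa [map_mul, map_one, h3, one_mul] at h7
    rw [hvh, h4, h2, ordT hG hs hv hB hg (hx _) h1, one_mul, ← WithZero.exp_zero,
      ← WithZero.exp_sub, ← WithZero.exp_nsmul]
    congr 1
    rw [nsmul_eq_mul]
    ring
  · intro v hs hv h1 h2
    rcases lt_or_ge (v x) 1 with hx1 | hx1
    · have h3 : v (x - k β) = 1 := by
        rw [Valuation.map_sub_swap, Valuation.map_sub_eq_of_lt_left v, hv _ hβ0]
        rw [hv _ hβ0]
        exact hx1
      have hx0 : v (x - k 0) < 1 := by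
        rw [map_zero, sub_zero]
        exact hx1
      have h4 := conj_val hv hxy h0 hx0 h1
      have h5 : v M = 1 := by
        have h6 := ev_val (P := A) (Q := -B) hv hx0 h4
        rw [Polynomial.eval₂_neg, eval_neg, neg_mul, ← sub_eq_add_neg, ← hM, neg_mul_neg] at h6
        exact hv.eq_one hn h6
      have hxp : 0 < v x := zero_lt_iff.2 ((Valuation.ne_zero_iff v).2 hxL)
      rw [hvh, map_div₀, h5, map_pow, h3, div_one, one_div, inv_mul_cancel₀]
      exact pow_ne_zero m hxp.ne'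
    · have h3 : v (N / x ^ m) = 1 := by
        rw [hN]
        exact unitU hv hxL hxy hABL hA hA0 hx1
      have h4 : v (M / x ^ m) = 1 := by
        have h7 := congrArg v hzz
        rwa [map_mul, map_one, h3, one_mul] at h7
      have h5 : v (x - k β) = v x := by
        rcases hx1.lt_or_eq with hx2 | hx2
        · exact Valuation.map_sub_eq_of_lt_left v ((hv.le _).trans_lt hx2)
        · rw [← hx2]
          exact le_antisymm ((v.map_sub _ _).trans (max_le hx2.ge (hv.le _))) (not_lt.1 h2)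
      rw [hvh, h4, h5, div_self (zero_lt_one.trans_le hx1).ne', one_pow, one_mul]

/-- At infinity the function `x` has order `-1`, if the degree of `D` is even. -/
theorem ordInf (hG : Gen k x y) {v : Valuation L ℤᵐ⁰} (hs : Function.Surjective v)
    (hv : Triv k v) (hx : ∀ u, x ≠ k u) (hxy : y ^ 2 = D.eval₂ k x) {G : ℕ}
    (hD : D.natDegree = 2 * G) (hD0 : D ≠ 0) (hx1 : 1 < v x) : v x = WithZero.exp 1 := by
  have hxL : x ≠ 0 := by
    have h1 := hx 0
    rwa [map_zero] at h1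
  obtain ⟨w, hw⟩ : ∃ w : L, w = y / x ^ G := ⟨_, rfl⟩
  have hrev : w ^ 2 = D.reverse.eval₂ k x⁻¹ := by
    have : Invertible x := invertibleOfNonzero hxL
    have h1 := Polynomial.eval₂_reverse_mul_pow k x D
    rw [invOf_eq_inv, hD, ← hxy] at h1
    have hxG : x ^ G ≠ 0 := pow_ne_zero G hxL
    rw [hw, div_pow, ← pow_mul, mul_comm G 2, ← h1, mul_div_assoc,
      div_self (pow_ne_zero _ hxL), mul_one]
  obtain ⟨w₀, hw₀⟩ := IsAlgClosed.exists_pow_nat_eq (D.reverse.eval 0) two_pos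
  have hD1 : D.reverse.eval 0 = D.leadingCoeff := by
    rw [← coeff_zero_eq_eval_zero, coeff_zero_reverse]
  have hw0 : w₀ ≠ 0 := by
    rintro rfl
    rw [zero_pow two_ne_zero, hD1] at hw₀
    exact hD0 (leadingCoeff_eq_zero.1 hw₀.symm)
  have hu : v (x⁻¹ - k 0) < 1 := by
    rw [map_zero, sub_zero, map_inv₀]
    exact inv_lt_one_of_one_lt₀ hx1
  have hG' : Gen k x⁻¹ w := by
    refine gen_of_closure hrev fun z => ?_
    obtain ⟨K₀, hK₀⟩ : ∃ K₀ : Subfield L, K₀ = Subfield.closure (Set.range k ∪ {x⁻¹, w}) :=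
      ⟨_, rfl⟩
    have hk : ∀ u, k u ∈ K₀ := fun u => by
      rw [hK₀]
      exact Subfield.subset_closure (Or.inl ⟨u, rfl⟩)
    have m1 : x⁻¹ ∈ K₀ := by
      rw [hK₀]
      exact Subfield.subset_closure (Or.inr (Or.inl rfl))
    have m2 : w ∈ K₀ := by
      rw [hK₀]
      exact Subfield.subset_closure (Or.inr (Or.inr rfl))
    have m3 : x ∈ K₀ := by
      rw [← inv_inv x]
      exact inv_mem m1
    have m4 : y ∈ K₀ := by
      have h1 : y = w * x ^ G := by
        rw [hw, div_mul_cancel₀ _ (pow_ne_zero G hxL)]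
      rw [h1]
      exact mul_mem m2 (pow_mem m3 G)
    rw [← hK₀]
    exact mem_of_gen hG K₀ hk m3 m4 z
  have hu' : x⁻¹ ≠ k 0 := by
    rw [map_zero]
    exact inv_ne_zero hxL
  have key : v (x⁻¹ - k 0) = WithZero.exp (-1) := by
    by_cases hc : v (w - k w₀) < 1
    · exact ordP hG' hs hv hrev hw0 hu' hu hc
    · have h1 := conj_val hv hrev hw₀ hu (fun h => hc h.2)
      exact ordP hG' hs hv hrev (neg_ne_zero.2 hw0) hu' hu h1
  rw [map_zero, sub_zero, map_inv₀] at key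
  rw [← inv_inv (v x), key, ← WithZero.exp_neg, neg_neg]

/-- The points at infinity. -/
theorem lemInf (hG : Gen k x y) (hx : ∀ u, x ≠ k u) {P Q : ℂ[X]} (hxy : y ^ 2 = D.eval₂ k x)
    (hPQ : P ^ 2 - D * Q ^ 2 = 1) (hP : 0 < P.natDegree) {G : ℕ} (hD : D.natDegree = 2 * G)
    {g : ℂ[X]} (hβ : D = (X - C β) * g) (hg : g.eval β ≠ 0) :
    ∃ (S : KQ L 2) (c : ℂˣ), ‖(c : ℂ)‖ ≠ 1 ∧
      Bd2 k (fun v => 1 < v x ∧ 1 < v (P.eval₂ k x + Q.eval₂ k x * y))
        (fun v => v (x - k β) < 1) S c := by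
  have hPQL : P.eval₂ k x ^ 2 - D.eval₂ k x * Q.eval₂ k x ^ 2 = 1 := by
    have h1 := congrArg (Polynomial.eval₂ k x) hPQ
    rw [Polynomial.eval₂_sub, Polynomial.eval₂_mul, Polynomial.eval₂_pow, Polynomial.eval₂_pow,
      Polynomial.eval₂_one] at h1
    exact h1
  obtain ⟨N, hN⟩ : ∃ N, N = P.eval₂ k x + Q.eval₂ k x * y := ⟨_, rfl⟩
  obtain ⟨M, hM⟩ : ∃ M, M = P.eval₂ k x - Q.eval₂ k x * y := ⟨_, rfl⟩
  have hzz : N * M = 1 := by
    rw [← hxy] at hPQL
    rw [hN, hM]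
    linear_combination hPQL
  have hP0 : P ≠ 0 := by
    rintro rfl
    simp at hP
  have hD0 : D ≠ 0 := by
    rw [hβ]
    refine mul_ne_zero (X_sub_C_ne_zero β) ?_
    rintro rfl
    simp at hg
  have hB : y ^ 2 = (x - k β) * g.eval₂ k x := by
    rw [hxy, hβ, Polynomial.eval₂_mul, Polynomial.eval₂_sub, Polynomial.eval₂_X,
      Polynomial.eval₂_C]
  obtain ⟨c, hc⟩ := exists_two
  have hxβ : x - k β ≠ 0 := sub_ne_zero.2 (hx β)
  have hM0 : M ≠ 0 := right_ne_zero_of_mul_eq_one hzz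
  obtain ⟨h, hh⟩ : ∃ h : Lˣ, (h : L) = M * ((x - k β) ^ P.natDegree)⁻¹ :=
    ⟨Units.mk0 _ (mul_ne_zero hM0 (inv_ne_zero (pow_ne_zero _ hxβ))), rfl⟩
  have hvh : ∀ v : Valuation L ℤᵐ⁰, v (h : L) = v M * (v (x - k β) ^ P.natDegree)⁻¹ := by
    intro v
    rw [hh, map_mul, map_inv₀, map_pow]
  have hNM : ∀ v : Valuation L ℤᵐ⁰, v N * v M = 1 := fun v => by
    rw [← map_mul, hzz, map_one]
  have hsum : ∀ v : Valuation L ℤᵐ⁰, Triv k v → 1 < v x →
      v (N + M) = v x ^ P.natDegree := by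
    intro v hv hx1
    have h1 : N + M = k 2 * P.eval₂ k x := by
      rw [hN, hM, (map_ofNat k 2 : k 2 = 2)]
      ring
    rw [h1, map_mul, hv _ two_ne_zero, one_mul, hv.eval_inf hx1 hP0]
  refine ⟨symb ![kc k c, h], c ^ (2 * P.natDegree : ℤ), two_pow_ne hc hP,
    bd2_const c h _ ?_ ?_ ?_⟩
  · intro v hs hv h1
    obtain ⟨hx1, h1⟩ := h1
    rw [← hN] at h1
    have h2 : v M < 1 := by
      by_contra h3
      exact absurd (hNM v) (one_lt_mul_of_lt_of_le h1 (not_lt.1 h3)).ne'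
    have h3 : v N = v x ^ P.natDegree := by
      rw [← hsum v hv hx1, Valuation.map_add_eq_of_lt_left v (h2.trans h1)]
    have h4 := ordInf hG hs hv hx hxy hD hD0 hx1
    have h5 : v (x - k β) = v x := Valuation.map_sub_eq_of_lt_left v ((hv.le _).trans_lt hx1)
    have h6 : v M = (v x ^ P.natDegree)⁻¹ := by
      rw [← h3]
      exact eq_inv_of_mul_eq_one_right (hNM v)
    rw [hvh, h6, h5, h4, ← WithZero.exp_nsmul, ← WithZero.exp_neg, ← WithZero.exp_add]
    congr 1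
    rw [nsmul_eq_mul]
    ring
  · intro v hs hv h1
    have hx1 : v x ≤ 1 := hv.le_of_sub h1
    have hy1 : v y ≤ 1 := by
      have h3 : v y ^ 2 ≤ 1 := by
        rw [← map_pow, hxy]
        exact hv.eval_le hx1 _
      exact (pow_le_one_iff two_ne_zero).1 h3
    have hP1 := hv.eval_le hx1 P
    have hQ1 : v (Q.eval₂ k x * y) ≤ 1 := by
      rw [map_mul]
      exact mul_le_one' (hv.eval_le hx1 Q) hy1
    have h3 : v N ≤ 1 := by
      rw [hN]
      exact (v.map_add _ _).trans (max_le hP1 hQ1)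
    have h4 : v M ≤ 1 := by
      rw [hM]
      exact (v.map_sub _ _).trans (max_le hP1 hQ1)
    have h5 : v M = 1 := by
      refine le_antisymm h4 (not_lt.1 fun h => ?_)
      have h6 := hNM v
      rw [mul_comm] at h6
      exact absurd h6 (mul_lt_one_of_lt_of_le h h3).ne
    rw [hvh, h5, one_mul, ordT hG hs hv hB hg (hx _) h1, ← WithZero.exp_nsmul,
      ← WithZero.exp_neg]
    congr 1
    rw [nsmul_eq_mul]
    ring
  · intro v hs hv h1 h2
    rcases lt_or_ge 1 (v x) with hx1 | hx1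
    · have h3 : v N ≤ 1 := not_lt.1 fun h3 => h1 ⟨hx1, by rw [← hN]; exact h3⟩
      have h5 : v (x - k β) = v x := Valuation.map_sub_eq_of_lt_left v ((hv.le _).trans_lt hx1)
      have h6 : 1 < v (N + M) := by
        rw [hsum v hv hx1]
        exact one_lt_pow₀ hx1 hP.ne'
      have h7 : v N < v M := by
        by_contra h8
        have h9 : v (N + M) ≤ 1 := (v.map_add _ _).trans (max_le h3 ((not_lt.1 h8).trans h3))
        exact absurd h6 (not_lt.2 h9)
      have h8 : v M = v x ^ P.natDegree := by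
        rw [← hsum v hv hx1, Valuation.map_add_eq_of_lt_right v h7]
      rw [hvh, h8, h5, mul_inv_cancel₀]
      exact pow_ne_zero _ (zero_lt_one.trans hx1).ne'
    · have hy1 : v y ≤ 1 := by
        have h3 : v y ^ 2 ≤ 1 := by
          rw [← map_pow, hxy]
          exact hv.eval_le hx1 _
        exact (pow_le_one_iff two_ne_zero).1 h3
      have hP1 := hv.eval_le hx1 P
      have hQ1 : v (Q.eval₂ k x * y) ≤ 1 := by
        rw [map_mul]
        exact mul_le_one' (hv.eval_le hx1 Q) hy1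
      have h3 : v N ≤ 1 := by
        rw [hN]
        exact (v.map_add _ _).trans (max_le hP1 hQ1)
      have h4 : v M ≤ 1 := by
        rw [hM]
        exact (v.map_sub _ _).trans (max_le hP1 hQ1)
      have h5 : v M = 1 := by
        refine le_antisymm h4 (not_lt.1 fun h => ?_)
        have h6 := hNM v
        rw [mul_comm] at h6
        exact absurd h6 (mul_lt_one_of_lt_of_le h h3).ne
      have h6 : v (x - k β) = 1 :=
        le_antisymm ((v.map_sub _ _).trans (max_le hx1 (hv.le _))) (not_lt.1 h2)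
      rw [hvh, h5, h6, one_pow, inv_one, one_mul]

end Pool.Agent.T9h40.PE
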