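import Pool.Agent.T9h40.PE.Inf
set_option autoImplicit false

/-!
Hyperelliptic curves with two torsion pairs: all points.
-/

namespace Pool.Agent.T9h40.PE

open scoped WithZero ComplexConjugate

open Polynomial

open Pool.Agent.TH826.MK

variable {L : Type*} [Field L] {k : ℂ →+* L} {x y : L}

theorem sq_root {D : ℂ[X]} (hD : Squarefree D) {e : ℂ} (he : D.eval e = 0) :
    ∃ g : ℂ[X], D = (X - C e) * g ∧ g.eval e ≠ 0 := by
  obtain ⟨g, hg⟩ := dvd_iff_isRoot.2 (show D.IsRoot e from he)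
  refine ⟨g, hg, fun h => ?_⟩
  obtain ⟨g', hg'⟩ := dvd_iff_isRoot.2 (show g.IsRoot e from h)
  refine Polynomial.not_isUnit_X_sub_C e (hD _ ⟨g', ?_⟩)
  rw [hg, hg']
  ring

theorem ptsA {D P Q A B : ℂ[X]} {m : ℕ} (hsq : Squarefree D) (hPQ : P ^ 2 - D * Q ^ 2 = 1)
    (hAB : A ^ 2 - D * B ^ 2 = X ^ (2 * m)) (hm : 0 < m) (hA : A.natDegree ≤ m)
    (hA0 : A.eval 0 ≠ 0) (hx : ∀ u, x ≠ k u) (hxy : y ^ 2 = D.eval₂ k x)
    (hL : ∀ z : L, z ∈ Subfield.closure (Set.range k ∪ {x, y})) {β : ℂ} (hβ : D.eval β = 0)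
    {b y₀ : ℂ} (h0 : y₀ ^ 2 = D.eval b) (hbβ : b ≠ β)
    (hc : y₀ = 0 ∨ b = 0 ∨ ‖P.eval b + Q.eval b * y₀‖ ≠ 1 ∨
      ‖A.eval b + B.eval b * y₀‖ ≠ ‖b‖ ^ m) :
    ∃ (S : KQ L 2) (c : ℂˣ), ‖(c : ℂ)‖ ≠ 1 ∧
      Bd2 k (fun v => v (x - k b) < 1 ∧ v (y - k y₀) < 1) (fun v => v (x - k β) < 1) S c := by
  have hG := gen_of_closure hxy hL
  obtain ⟨g, hg, hg0⟩ := sq_root hsq hβ
  have hβ0 : β ≠ 0 := by
    rintro rfl
    have h1 := congrArg (Polynomial.eval 0) hAB
    rw [eval_sub, eval_mul, hβ, zero_mul, sub_zero, eval_pow, eval_pow, eval_X,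
      zero_pow (by omega)] at h1
    exact hA0 (pow_eq_zero_iff two_ne_zero |>.1 h1)
  by_cases hy : y₀ = 0
  · subst hy
    obtain ⟨g₁, hg₁, hg₁0⟩ := sq_root hsq (e := b) (by rw [← h0, zero_pow two_ne_zero])
    exact lemT hG hx hxy hbβ hg₁ hg₁0 hg hg0
  · by_cases hb : b = 0
    · subst hb
      by_cases hn : A.eval 0 + B.eval 0 * y₀ = 0
      · refine lemZ0 hG hx (B := -B) hxy (by rw [neg_sq]; exact hAB) hA hβ0 hA0 hm h0 ?_ hg hg0
        rw [eval_neg]
        intro h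
        apply hA0
        linear_combination (hn + h) / 2
      · exact lemZ0 hG hx hxy hAB hA hβ0 hA0 hm h0 hn hg hg0
    · rcases hc with h | h | h | h
      · exact absurd h hy
      · exact absurd h hb
      · exact lemP hG hx hxy hPQ h0 h hg hg0
      · refine lemU hG hx hxy hAB hA hb hβ0 hA0 hm h0 ?_ hg hg0
        rw [norm_div, norm_pow]
        intro h1
        exact h ((div_eq_one_iff_eq (pow_ne_zero m (norm_ne_zero_iff.2 hb))).1 h1)

theorem ptsI {D P Q : ℂ[X]} {g : ℕ} (hsq : Squarefree D) (hdeg : D.natDegree = 2 * g + 2)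
    (hPQ : P ^ 2 - D * Q ^ 2 = 1) (hP : 0 < P.natDegree)
    (hx : ∀ u, x ≠ k u) (hxy : y ^ 2 = D.eval₂ k x)
    (hL : ∀ z : L, z ∈ Subfield.closure (Set.range k ∪ {x, y})) {β : ℂ} (hβ : D.eval β = 0)
    {Q' : ℂ[X]} (hQ' : Q' = Q ∨ Q' = -Q) :
    ∃ (S : KQ L 2) (c : ℂˣ), ‖(c : ℂ)‖ ≠ 1 ∧
      Bd2 k (fun v => 1 < v x ∧ 1 < v (P.eval₂ k x + Q'.eval₂ k x * y))
        (fun v => v (x - k β) < 1) S c := by
  have hG := gen_of_closure hxy hL
  obtain ⟨g', hg, hg0⟩ := sq_root hsq hβ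
  refine lemInf hG hx hxy (Q := Q') ?_ hP (G := g + 1) (by omega) hg hg0
  rcases hQ' with rfl | rfl
  · exact hPQ
  · rw [neg_sq]
    exact hPQ

/-- If `|z| = 1`, then `z + 1 / z` is real and at most `2` in absolute value. -/
theorem real_of_norm' {u y₀ : ℂ} (h0 : y₀ ^ 2 = u ^ 2 - 4) (h : ‖(u + y₀) / 2‖ = 1) :
    ∃ r : ℝ, u = r ∧ |r| ≤ 2 := by
  refine ⟨2 * ((u + y₀) / 2).re, ?_, ?_⟩
  · obtain ⟨ζ, hζ⟩ : ∃ ζ : ℂ, ζ = (u + y₀) / 2 := ⟨_, rfl⟩
    rw [← hζ] at h ⊢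
    have h1 : ζ * conj ζ = 1 := by
      rw [Complex.mul_conj, Complex.normSq_eq_norm_sq, h]
      norm_num
    have h2 : ζ * ((u - y₀) / 2) = 1 := by
      rw [hζ]
      linear_combination -h0 / 4
    have h3 : ζ ≠ 0 := left_ne_zero_of_mul_eq_one h1
    have h4 : conj ζ = (u - y₀) / 2 := mul_left_cancel₀ h3 (h1.trans h2.symm)
    have h5 : ζ + conj ζ = u := by
      rw [h4, hζ]
      ring
    rw [← h5, Complex.add_conj]
  · rw [abs_mul, abs_two]
    have h6 := Complex.abs_re_le_norm ((u + y₀) / 2)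
    rw [h] at h6
    linarith

theorem exc' {a u w y₀ y₁ : ℂ} (ha : a.im ≠ 0 ∨ |a.re| < 2) (h0 : y₀ ^ 2 = u ^ 2 - 4)
    (h : ‖(u + y₀) / 2‖ = 1) (h1 : y₁ ^ 2 = w ^ 2 - 4) (h2 : ‖(w + y₁) / 2‖ = 1)
    (h3 : (u - a) * (w - a) = a ^ 2 - 4) : y₀ = 0 := by
  obtain ⟨r, hr, hr2⟩ := real_of_norm' h0 h
  obtain ⟨s, hs, hs2⟩ := real_of_norm' h1 h2
  rw [hr, hs] at h3
  have h4 : ((r * s + 4 : ℝ) : ℂ) = a * ((r + s : ℝ) : ℂ) := by
    push_cast
    linear_combination h3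
  have h8 : r ^ 2 = 4 := by
    by_cases ha1 : a.im = 0
    · have ha2 : |a.re| < 2 := by
        rcases ha with h | h
        · exact absurd ha1 h
        · exact h
      have h5 := congrArg Complex.re h4
      rw [Complex.ofReal_re, Complex.re_mul_ofReal] at h5
      obtain ⟨r1, r2⟩ := abs_le.1 hr2
      obtain ⟨s1, s2⟩ := abs_le.1 hs2
      obtain ⟨a1, a2⟩ := abs_lt.1 ha2
      have e : (2 + s) * ((r + 2) * (2 - a.re)) + (2 - s) * ((2 - r) * (2 + a.re)) = 0 := by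
        linear_combination 4 * h5
      have p1 : 0 ≤ (2 + s) * ((r + 2) * (2 - a.re)) :=
        mul_nonneg (by linarith) (mul_nonneg (by linarith) (by linarith))
      have p2 : 0 ≤ (2 - s) * ((2 - r) * (2 + a.re)) :=
        mul_nonneg (by linarith) (mul_nonneg (by linarith) (by linarith))
      have q1 : (2 + s) * ((r + 2) * (2 - a.re)) = 0 := by linarith
      have q2 : (2 - s) * ((2 - r) * (2 + a.re)) = 0 := by linarith
      rcases mul_eq_zero.1 q1 with q | q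
      · rcases mul_eq_zero.1 q2 with t | t
        · linarith
        · rcases mul_eq_zero.1 t with t | t
          · have : r = 2 := by linarith
            rw [this]
            norm_num
          · linarith
      · rcases mul_eq_zero.1 q with q | q
        · have : r = -2 := by linarith
          rw [this]
          norm_num
        · linarith
    · have h5 := congrArg Complex.im h4
      rw [Complex.ofReal_im, Complex.im_mul_ofReal] at h5
      have h6 : r + s = 0 := by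
        rcases mul_eq_zero.1 h5.symm with h | h
        · exact absurd h ha1
        · exact h
      rw [h6, Complex.ofReal_zero, mul_zero] at h4
      have h7 : r * s + 4 = 0 := Complex.ofReal_eq_zero.1 h4
      have : s = -r := by linarith
      rw [this] at h7
      linarith
  have h9 : y₀ ^ 2 = 0 := by
    rw [h0, hr, ← Complex.ofReal_pow, h8]
    norm_num
  exact pow_eq_zero_iff two_ne_zero |>.1 h9

/-- The curves `y² = (x ^ n + a)² - 4` have no exceptional points. -/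
theorem family (g : ℕ) (a : ℂ) (ha : a.im ≠ 0 ∨ |a.re| < 2) :
    ∃ D P Q A B : ℂ[X],
      D = (X ^ (g + 1) + C a) ^ 2 - C 4 ∧ Squarefree D ∧ D.natDegree = 2 * g + 2 ∧
      P ^ 2 - D * Q ^ 2 = 1 ∧ A ^ 2 - D * B ^ 2 = X ^ (2 * (g + 1)) ∧
      0 < P.natDegree ∧ A.natDegree ≤ g + 1 ∧ A.eval 0 ≠ 0 ∧
      ∀ b y₀ : ℂ, y₀ ^ 2 = D.eval b → y₀ = 0 ∨ b = 0 ∨ ‖P.eval b + Q.eval b * y₀‖ ≠ 1 ∨
        ‖A.eval b + B.eval b * y₀‖ ≠ ‖b‖ ^ (g + 1) := by
  have ha4 : a ^ 2 ≠ 4 := by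
    intro h
    have h1 : (a - 2) * (a + 2) = 0 := by linear_combination h
    rcases mul_eq_zero.1 h1 with h | h
    · have h2 : a = 2 := sub_eq_zero.1 h
      rw [h2] at ha
      rcases ha with h | h
      · exact h rfl
      · norm_num at h
    · have h2 : a = -2 := eq_neg_of_add_eq_zero_left h
      rw [h2] at ha
      rcases ha with h | h
      · exact h (by simp)
      · norm_num at h
  obtain ⟨s, hs⟩ := IsAlgClosed.exists_pow_nat_eq (a ^ 2 - 4) two_pos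
  have hs0 : s ≠ 0 := by
    rintro rfl
    rw [zero_pow two_ne_zero] at hs
    exact ha4 (sub_eq_zero.1 hs.symm)
  have hC4 : (C 4 : ℂ[X]) = C 2 * C 2 := by
    rw [← C_mul]
    norm_num
  have h2 : (C (1 / 2) : ℂ[X]) * C 2 = 1 := by
    rw [← C_mul]
    norm_num
  have hCs : (C s : ℂ[X]) ^ 2 = C a ^ 2 - C 4 := by
    rw [← C_pow, ← C_pow, ← C_sub, hs]
  refine ⟨(X ^ (g + 1) + C a) ^ 2 - C 4, C (1 / 2) * (X ^ (g + 1) + C a), C (1 / 2),
    C (1 / 2) * (C s ^ 2 + C a * X ^ (g + 1)), C (1 / 2) * C s, rfl, ?_, ?_, ?_, ?_, ?_, ?_, ?_,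
    ?_⟩
  · refine Separable.squarefree ?_
    unfold Separable
    have h3 : derivative ((X ^ (g + 1) + C a) ^ 2 - C 4 : ℂ[X]) =
        C (2 * ((g : ℂ) + 1)) * (X ^ g * (X ^ (g + 1) + C a)) := by
      have h4 : (C ((2 : ℕ) : ℂ) : ℂ[X]) = C 2 := by norm_num
      rw [derivative_sub, derivative_C, derivative_pow, derivative_add, derivative_C,
        derivative_X_pow, h4, C_mul]
      simp only [Nat.add_one_sub_one, pow_one]
      push_cast
      rw [C_add, C_1, map_natCast]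
      ring
    rw [h3]
    have h5 : IsUnit (C (2 * ((g : ℂ) + 1)) : ℂ[X]) := by
      refine isUnit_C.2 (isUnit_iff_ne_zero.2 (mul_ne_zero two_ne_zero ?_))
      exact_mod_cast Nat.succ_ne_zero g
    refine (isCoprime_mul_unit_left_right h5 _ _).2 (IsCoprime.mul_right ?_ ?_)
    · refine IsCoprime.pow_right ?_
      have h6 : IsCoprime (X - C 0 : ℂ[X]) ((X ^ (g + 1) + C a) ^ 2 - C 4) := by
        refine ((irreducible_X_sub_C (0 : ℂ)).coprime_iff_not_dvd).2 fun h7 => ?_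
        have h8 := dvd_iff_isRoot.1 h7
        rw [IsRoot.def] at h8
        simp only [eval_sub, eval_pow, eval_add, eval_X, eval_C, ne_eq, Nat.add_eq_zero_iff,
          one_ne_zero, and_false, not_false_eq_true, zero_pow, zero_add] at h8
        exact ha4 (sub_eq_zero.1 h8)
      rw [C_0, sub_zero] at h6
      exact h6.symm
    · refine ⟨-(C (1 / 2) * C (1 / 2)), C (1 / 2) * C (1 / 2) * (X ^ (g + 1) + C a), ?_⟩
      rw [hC4]
      linear_combination (C (1 / 2) * C 2 + 1) * h2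
  · have h3 : ((X ^ (g + 1) + C a) ^ 2 - C 4 : ℂ[X]).natDegree =
        ((X ^ (g + 1) + C a) ^ 2 : ℂ[X]).natDegree := natDegree_sub_C
    rw [h3, natDegree_pow, natDegree_X_pow_add_C]
    ring
  · rw [hC4]
    linear_combination (C (1 / 2) * C 2 + 1) * h2
  · rw [show (X : ℂ[X]) ^ (2 * (g + 1)) = (X ^ (g + 1)) ^ 2 by rw [← pow_mul, mul_comm], hC4]
    rw [hC4] at hCs
    linear_combination C (1 / 2) ^ 2 * (C s ^ 2 - (X ^ (g + 1)) ^ 2) * hCs +
      (C (1 / 2) * C 2 + 1) * (X ^ (g + 1)) ^ 2 * h2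
  · rw [natDegree_C_mul (by norm_num), natDegree_X_pow_add_C]
    omega
  · refine (natDegree_C_mul_le _ _).trans ?_
    rw [← C_pow, add_comm, natDegree_add_C]
    exact natDegree_C_mul_X_pow_le _ _
  · simp only [eval_mul, eval_add, eval_pow, eval_X, eval_C, ne_eq, Nat.add_eq_zero_iff,
      one_ne_zero, and_false, not_false_eq_true, zero_pow, mul_zero, add_zero]
    refine mul_ne_zero (by norm_num) (pow_ne_zero 2 hs0)
  · intro b y₀ h0
    by_contra hcon
    push Not at hcon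
    obtain ⟨hy, hb, h1, h3⟩ := hcon
    have hbn : b ^ (g + 1) ≠ 0 := pow_ne_zero _ hb
    apply hy
    simp only [eval_sub, eval_pow, eval_add, eval_X, eval_C, eval_mul] at h0 h1 h3
    refine exc' (u := b ^ (g + 1) + a) (w := a + s ^ 2 / b ^ (g + 1))
      (y₁ := s * y₀ / b ^ (g + 1)) ha h0 ?_ ?_ ?_ ?_
    · rw [← h1]
      congr 1
      ring
    · rw [div_pow, mul_pow, h0]
      obtain ⟨t, ht⟩ : ∃ t, t = b ^ (g + 1) := ⟨_, rfl⟩
      rw [← ht] at hbn ⊢
      field_simp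
      linear_combination (t ^ 2 - s ^ 2) * hs
    · have h4 : (a + s ^ 2 / b ^ (g + 1) + s * y₀ / b ^ (g + 1)) / 2 =
          (1 / 2 * (s ^ 2 + a * b ^ (g + 1)) + 1 / 2 * s * y₀) / b ^ (g + 1) := by
        field_simp
        ring
      rw [h4, norm_div, h3, norm_pow]
      exact div_self (pow_ne_zero _ (norm_ne_zero_iff.2 hb))
    · rw [add_sub_cancel_right, add_sub_cancel_left, mul_div_cancel₀ _ hbn, hs]

end Pool.Agent.T9h40.PE
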