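import Pool.Agent.T9h40.PE.Weier
import Pool.Agent.Y94.R.Ring
set_option autoImplicit false

/-!
The model `y² = (x² + a)² - 4` of an elliptic curve over the complex numbers.
-/

namespace Pool.Agent.T9h40.PE

open Polynomial

open Pool.Agent.Y94.R

variable {L : Type*} [Field L] {k : ℂ →+* L} {x y : L} {σ τ : ℂ}

/-- An element that is not a constant is transcendental. -/
theorem transc (hx : ∀ a, x ≠ k a) : ∀ (n : ℕ) (p : ℂ[X]), p.natDegree = n → p ≠ 0 →
    p.eval₂ k x ≠ 0 := by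
  intro n
  induction n with
  | zero =>
    intro p hp hp0
    rw [natDegree_eq_zero.1 hp |>.choose_spec.symm, Polynomial.eval₂_C]
    rw [natDegree_eq_zero.1 hp |>.choose_spec.symm] at hp0
    exact (_root_.map_ne_zero k).2 (fun h => hp0 (by rw [h, C_0]))
  | succ n ih =>
    intro p hp hp0
    obtain ⟨r, hr⟩ := IsAlgClosed.exists_root p (by
      rw [degree_eq_natDegree hp0, hp]
      exact_mod_cast Nat.succ_ne_zero n)
    obtain ⟨q, rfl⟩ := dvd_iff_isRoot.2 hr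
    have hq0 : q ≠ 0 := right_ne_zero_of_mul hp0
    rw [natDegree_mul (X_sub_C_ne_zero r) hq0, natDegree_X_sub_C] at hp
    rw [Polynomial.eval₂_mul, Polynomial.eval₂_sub, Polynomial.eval₂_X, Polynomial.eval₂_C]
    exact mul_ne_zero (sub_ne_zero.2 (hx r)) (ih q (by omega) hq0)

theorem exists_pq_aux {D : ℂ[X]} (M : ℂ[X][X] →+* HRing D) (h1 : ∀ a, M (C a) = hpol D a)
    (h2 : M X = hy D) (F : ℂ[X][X]) : ∃ p q : ℂ[X], M F = hpol D p + hpol D q * hy D := by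
  induction F using Polynomial.induction_on with
  | C a => exact ⟨a, 0, by rw [map_zero, zero_mul, add_zero, h1]⟩
  | add p q hp hq =>
    obtain ⟨a, b, h3⟩ := hp
    obtain ⟨c, d, h4⟩ := hq
    refine ⟨a + c, b + d, ?_⟩
    rw [map_add, h3, h4, map_add, map_add]
    ring
  | monomial n a hn =>
    obtain ⟨p, q, h3⟩ := hn
    refine ⟨D * q, p, ?_⟩
    rw [pow_succ, ← mul_assoc, map_mul, h3, h2, map_mul]
    linear_combination hpol D q * hy_eq D

/-- The elements of the coordinate ring. -/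
theorem exists_pq {D : ℂ[X]} (h : HRing D) : ∃ p q : ℂ[X], h = hpol D p + hpol D q * hy D := by
  obtain ⟨F, rfl⟩ := AdjoinRoot.mk_surjective (g := heqn D) h
  exact exists_pq_aux (AdjoinRoot.mk (heqn D)) (fun a => rfl) AdjoinRoot.mk_X F

theorem evH_injective {D : ℂ[X]} [IsDomain (HRing D)] (hx : ∀ a, x ≠ k a)
    (h : y ^ 2 = D.eval₂ k x) : Function.Injective (evH k x y h) := by
  rw [injective_iff_map_eq_zero]
  intro u hu
  obtain ⟨p, q, rfl⟩ := exists_pq u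
  have h1 : (hpol D p + hpol D q * hy D) * (hpol D p - hpol D q * hy D) =
      hpol D (p ^ 2 - q ^ 2 * D) := by
    rw [map_sub, map_mul, map_pow, map_pow, ← hy_eq]
    ring
  have h2 : p ^ 2 - q ^ 2 * D = 0 := by
    by_contra h3
    apply transc hx _ _ rfl h3
    rw [← evH_hpol k x y h, ← h1, map_mul, hu, zero_mul]
  rw [h2, map_zero] at h1
  rcases mul_eq_zero.1 h1 with h3 | h3
  · exact h3
  · have h4 : hpol D p = hpol D q * hy D := sub_eq_zero.1 h3
    rw [← h4, map_add, evH_hpol] at hu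
    have h5 : (2 * p : ℂ[X]) = 0 := by
      by_contra h6
      apply transc hx _ _ rfl h6
      rw [Polynomial.eval₂_mul, ← hu, two_mul (p.eval₂ k x) |>.symm]
      congr 1
      rw [show (2 : ℂ[X]) = C 2 from rfl, Polynomial.eval₂_C]
      exact map_ofNat k 2
    have h6 : p = 0 := by
      rcases mul_eq_zero.1 h5 with h7 | h7
      · norm_num at h7
      · exact h7
    rw [← h4, h6, map_zero, add_zero]

theorem model (hG : Gen k x y) (hx : ∀ a, x ≠ k a)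
    (hxy : y ^ 2 = x * (x - k (σ ^ 2)) * (x - k (τ ^ 2))) (hσ : σ ≠ 0) (hτ : τ ≠ 0)
    (hst : σ ^ 2 ≠ τ ^ 2) :
    ∃ a : ℂ, a ^ 2 ≠ 4 ∧ ∀ D : ℂ[X], D = (X ^ 2 + C a) ^ 2 - C 4 → IsDomain (HRing D) →
      ∃ φ : HRing D →+* L, (∀ c, φ (hpol D (C c)) = k c) ∧ Function.Injective φ ∧
        ∀ z : L, ∃ p q, z = φ p / φ q := by
  have : CharZero L := charZero_of_injective_ringHom k.injective
  obtain ⟨ω, hω⟩ := IsAlgClosed.exists_pow_nat_eq (σ * τ) two_pos
  have hω0 : ω ≠ 0 := by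
    rintro rfl
    rw [zero_pow two_ne_zero] at hω
    exact mul_ne_zero hσ hτ hω.symm
  have hd : σ - τ ≠ 0 := by
    intro h
    apply hst
    rw [sub_eq_zero.1 h]
  have hI := Complex.I_sq
  have hI0 := Complex.I_ne_zero
  have kI : (k Complex.I) ^ 2 = -1 := by rw [← map_pow, hI, map_neg, map_one]
  have kI0 : k Complex.I ≠ 0 := (_root_.map_ne_zero k).2 hI0
  have kω : (k ω) ^ 2 = k σ * k τ := by rw [← map_pow, hω, map_mul]
  have kσ0 : k σ ≠ 0 := (_root_.map_ne_zero k).2 hσ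
  have kτ0 : k τ ≠ 0 := (_root_.map_ne_zero k).2 hτ
  have kω0 : k ω ≠ 0 := (_root_.map_ne_zero k).2 hω0
  have kd : k σ - k τ ≠ 0 := by
    rw [← map_sub]
    exact (_root_.map_ne_zero k).2 hd
  have hxs : x - k σ * k τ ≠ 0 := by
    rw [← map_mul]
    exact sub_ne_zero.2 (hx _)
  obtain ⟨β, hβ⟩ : ∃ β : ℂ, β = Complex.I * (σ - τ) / ω := ⟨_, rfl⟩
  have kβ : k β = k Complex.I * (k σ - k τ) / k ω := by
    rw [hβ, map_div₀, map_mul, map_sub]
  have kβ0 : k β ≠ 0 := by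
    rw [kβ]
    exact div_ne_zero (mul_ne_zero kI0 kd) kω0
  have kβ2 : (k β) ^ 2 = -(k σ - k τ) ^ 2 / (k σ * k τ) := by
    rw [kβ, div_pow, mul_pow, kI, kω]
    ring
  obtain ⟨x₁, hx₁⟩ : ∃ x₁ : L, x₁ = k β * (x + k σ * k τ) / (x - k σ * k τ) := ⟨_, rfl⟩
  obtain ⟨y₁, hy₁⟩ : ∃ y₁ : L, y₁ = 4 * k Complex.I * (k σ - k τ) * y / (x - k σ * k τ) ^ 2 :=
    ⟨_, rfl⟩
  have hx₁2 : x₁ ^ 2 = -(k σ - k τ) ^ 2 / (k σ * k τ) * (x + k σ * k τ) ^ 2 /
      (x - k σ * k τ) ^ 2 := by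
    rw [hx₁, div_pow, mul_pow, kβ2]
  have hy₁2 : y₁ ^ 2 = -16 * (k σ - k τ) ^ 2 * (x * (x - k σ ^ 2) * (x - k τ ^ 2)) /
      (x - k σ * k τ) ^ 4 := by
    rw [map_pow, map_pow] at hxy
    rw [hy₁, div_pow, ← hxy, ← pow_mul]
    congr 1
    linear_combination 16 * (k σ - k τ) ^ 2 * y ^ 2 * kI
  have e1 : x₁ - k β = 2 * k β * (k σ * k τ) / (x - k σ * k τ) := by
    rw [hx₁]
    field_simp
    ring
  have e2 : x₁ + k β = 2 * k β * x / (x - k σ * k τ) := by
    rw [hx₁]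
    field_simp
    ring
  have e3 : x₁ - k β ≠ 0 := by
    rw [e1]
    exact div_ne_zero (mul_ne_zero (mul_ne_zero two_ne_zero kβ0) (mul_ne_zero kσ0 kτ0)) hxs
  have ex : x = k σ * k τ * (x₁ + k β) / (x₁ - k β) := by
    rw [e1, e2]
    field_simp
  have ey : y = y₁ * (x - k σ * k τ) ^ 2 / (4 * k Complex.I * (k σ - k τ)) := by
    rw [hy₁]
    have h4 : (4 : L) ≠ 0 := by norm_num
    field_simp
  have hx₁c : ∀ c, x₁ ≠ k c := by
    intro c hc
    apply hx (σ * τ * (c + β) / (c - β))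
    rw [map_div₀, map_mul, map_mul, map_add, map_sub, ← hc]
    exact ex
  refine ⟨(σ ^ 2 + τ ^ 2) / (σ * τ), ?_, ?_⟩
  · intro h
    rw [div_pow, div_eq_iff (pow_ne_zero 2 (mul_ne_zero hσ hτ))] at h
    have h1 : (σ ^ 2 - τ ^ 2) ^ 2 = 0 := by linear_combination h
    exact hst (sub_eq_zero.1 (pow_eq_zero_iff two_ne_zero |>.1 h1))
  · intro D hD hdom
    have hxy₁ : y₁ ^ 2 = D.eval₂ k x₁ := by
      rw [hD, Polynomial.eval₂_sub, Polynomial.eval₂_pow, Polynomial.eval₂_add,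
        Polynomial.eval₂_pow, Polynomial.eval₂_X, Polynomial.eval₂_C, Polynomial.eval₂_C,
        map_div₀, map_add, map_pow, map_pow, map_mul, show k 4 = 4 from map_ofNat k 4, hx₁2,
        hy₁2]
      field_simp
      ring
    obtain ⟨φ, hφ⟩ : ∃ φ, φ = evH k x₁ y₁ hxy₁ := ⟨_, rfl⟩
    have hc : ∀ c, φ (hpol D (C c)) = k c := by
      intro c
      rw [hφ, evH_hpol, Polynomial.eval₂_C]
    refine ⟨φ, hc, by rw [hφ]; exact evH_injective hx₁c hxy₁, ?_⟩
    obtain ⟨K₀, hK₀⟩ : ∃ K₀ : Subfield L, K₀ = Subfield.closure (φ.range : Set L) := ⟨_, rfl⟩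
    have hmem : ∀ h, φ h ∈ K₀ := by
      intro h
      rw [hK₀]
      exact Subfield.subset_closure ⟨h, rfl⟩
    have hk : ∀ c, k c ∈ K₀ := fun c => by
      rw [← hc]
      exact hmem _
    have mx₁ : x₁ ∈ K₀ := by
      have h1 := hmem (hpol D X)
      rwa [hφ, evH_hpol, Polynomial.eval₂_X] at h1
    have my₁ : y₁ ∈ K₀ := by
      have h1 := hmem (hy D)
      rwa [hφ, evH_hy] at h1
    have mx : x ∈ K₀ := by
      rw [ex]
      exact div_mem (mul_mem (mul_mem (hk _) (hk _)) (add_mem mx₁ (hk _)))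
        (sub_mem mx₁ (hk _))
    have m4 : (4 : L) ∈ K₀ := by
      rw [← (map_ofNat k 4 : k 4 = 4)]
      exact hk 4
    have my : y ∈ K₀ := by
      rw [ey]
      exact div_mem (mul_mem my₁ (pow_mem (sub_mem mx (mul_mem (hk _) (hk _))) 2))
        (mul_mem (mul_mem m4 (hk _)) (sub_mem (hk _) (hk _)))
    have mp : ∀ p : ℂ[X], p.eval₂ k x ∈ K₀ := by
      intro p
      rw [Polynomial.eval₂_eq_sum_range]
      exact sum_mem fun i _ => mul_mem (hk _) (pow_mem mx i)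
    intro z
    have hz : z ∈ K₀ := by
      obtain ⟨p, q, p', q', h1, h2⟩ := hG z
      rw [eq_div_of_mul_eq h1 h2]
      exact div_mem (add_mem (mp _) (mul_mem (mp _) my)) (add_mem (mp _) (mul_mem (mp _) my))
    rw [hK₀, Subfield.mem_closure_iff] at hz
    obtain ⟨u, hu, w, hw, h⟩ := hz
    rw [Subring.closure_eq] at hu hw
    obtain ⟨p, rfl⟩ := hu
    obtain ⟨q, rfl⟩ := hw
    exact ⟨p, q, h.symm⟩

end Pool.Agent.T9h40.PE
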