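import Pool.Agent.T9h40.PE.Tame
set_option autoImplicit false

/-!
Orders of functions at the places of a curve `y² = f(x)` over the complex numbers.
-/

namespace Pool.Agent.T9h40.PE

open scoped WithZero

open Polynomial

variable {L : Type*} [Field L] {k : ℂ →+* L} {v : Valuation L ℤᵐ⁰} {x y : L}

/-- The valuation is trivial on the constants. -/
def Triv (k : ℂ →+* L) (v : Valuation L ℤᵐ⁰) : Prop := ∀ a : ℂ, a ≠ 0 → v (k a) = 1

theorem Triv.le (hv : Triv k v) (a : ℂ) : v (k a) ≤ 1 := by
  by_cases ha : a = 0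
  · rw [ha, map_zero, map_zero]
    exact zero_le_one
  · exact (hv a ha).le

theorem Triv.eval_le (hv : Triv k v) (hx : v x ≤ 1) (p : ℂ[X]) : v (p.eval₂ k x) ≤ 1 := by
  rw [Polynomial.eval₂_eq_sum_range]
  refine Valuation.map_sum_le v fun i _ => ?_
  rw [map_mul, map_pow]
  exact mul_le_one' (hv.le _) (pow_le_one' hx _)

theorem Triv.le_of_sub (hv : Triv k v) {f : L} {c : ℂ} (h : v (f - k c) < 1) : v f ≤ 1 := by
  have h2 : f = (f - k c) + k c := by ring
  rw [h2]
  exact (v.map_add _ _).trans (max_le h.le (hv.le c))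

theorem Triv.eq_one (hv : Triv k v) {f : L} {c : ℂ} (hc : c ≠ 0) (h : v (f - k c) < 1) :
    v f = 1 := by
  have h2 : f = (f - k c) + k c := by ring
  rw [h2, Valuation.map_add_eq_of_lt_right v (by rw [hv c hc]; exact h), hv c hc]

theorem Triv.eval_sub (hv : Triv k v) {a : ℂ} (hx : v (x - k a) < 1) (p : ℂ[X]) :
    v (p.eval₂ k x - k (p.eval a)) < 1 := by
  obtain ⟨Q, hQ⟩ : X - C a ∣ p - C (p.eval a) := by
    rw [Polynomial.dvd_iff_isRoot, Polynomial.IsRoot.def]
    simp
  have h3 := congrArg (Polynomial.eval₂ k x) hQ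
  rw [Polynomial.eval₂_sub, Polynomial.eval₂_mul, Polynomial.eval₂_sub, Polynomial.eval₂_X,
    Polynomial.eval₂_C, Polynomial.eval₂_C] at h3
  rw [h3, map_mul]
  exact mul_lt_one_of_lt_of_le hx (hv.eval_le (hv.le_of_sub hx) Q)

theorem Triv.eval_one (hv : Triv k v) {a : ℂ} (hx : v (x - k a) < 1) {p : ℂ[X]}
    (hp : p.eval a ≠ 0) : v (p.eval₂ k x) = 1 :=
  hv.eq_one hp (hv.eval_sub hx p)

theorem Triv.eval_pow (hv : Triv k v) {a : ℂ} (hx : v (x - k a) < 1) {p : ℂ[X]}
    (hp : p ≠ 0) : ∃ m : ℕ, v (p.eval₂ k x) = v (x - k a) ^ m := by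
  obtain ⟨q, hq, hq2⟩ := Polynomial.exists_eq_pow_rootMultiplicity_mul_and_not_dvd p hp a
  refine ⟨p.rootMultiplicity a, ?_⟩
  have h1 : q.eval a ≠ 0 := fun h => hq2 (Polynomial.dvd_iff_isRoot.2 h)
  conv_lhs => rw [hq]
  rw [Polynomial.eval₂_mul, Polynomial.eval₂_pow, Polynomial.eval₂_sub, Polynomial.eval₂_X,
    Polynomial.eval₂_C, map_mul, map_pow, hv.eval_one hx h1, mul_one]

theorem Triv.eval_inf (hv : Triv k v) (hx : 1 < v x) {p : ℂ[X]} (hp : p ≠ 0) :
    v (p.eval₂ k x) = v x ^ p.natDegree := by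
  have hx0 : 0 < v x := zero_lt_one.trans hx
  rw [Polynomial.eval₂_eq_sum_range, Finset.sum_range_succ]
  have h1 : v (k (p.coeff p.natDegree) * x ^ p.natDegree) = v x ^ p.natDegree := by
    rw [map_mul, hv _ (by simpa using hp), one_mul, map_pow]
  rw [Valuation.map_add_eq_of_lt_right v, h1]
  rw [h1]
  refine Valuation.map_sum_lt v (pow_ne_zero _ hx0.ne') fun i hi => ?_
  rw [map_mul, map_pow]
  refine (mul_le_of_le_one_left' (hv.le _)).trans_lt ?_
  exact pow_lt_pow_right₀ hx (Finset.mem_range.1 hi)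

/-- The field is generated by `x` and `y`, where `y` is quadratic over the field of rational
functions of `x`. -/
def Gen (k : ℂ →+* L) (x y : L) : Prop :=
  ∀ h : L, ∃ p q p' q' : ℂ[X], p'.eval₂ k x + q'.eval₂ k x * y ≠ 0 ∧
    h * (p'.eval₂ k x + q'.eval₂ k x * y) = p.eval₂ k x + q.eval₂ k x * y

theorem exists_exp {f : L} (hf : f ≠ 0) : ∃ m : ℤ, v f = WithZero.exp m :=
  ⟨WithZero.log (v f), (WithZero.exp_log ((Valuation.ne_zero_iff v).2 hf)).symm⟩

theorem ord1 (hG : Gen k x y) (hs : Function.Surjective v) {n : ℤ} (hn : 0 < n)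
    (H : ∀ p q : ℂ[X], p.eval₂ k x + q.eval₂ k x * y ≠ 0 →
      ∃ j : ℤ, v (p.eval₂ k x + q.eval₂ k x * y) = WithZero.exp (n * j)) : n = 1 := by
  obtain ⟨h, hh⟩ := hs (WithZero.exp 1)
  obtain ⟨p, q, p', q', h1, h2⟩ := hG h
  have hh0 : h ≠ 0 := by
    rintro rfl
    rw [map_zero] at hh
    exact WithZero.exp_ne_zero hh.symm
  have h3 : p.eval₂ k x + q.eval₂ k x * y ≠ 0 := by
    rw [← h2]
    exact mul_ne_zero hh0 h1
  obtain ⟨j, hj⟩ := H p q h3
  obtain ⟨j', hj'⟩ := H p' q' h1
  rw [← h2, map_mul, hh, hj', ← WithZero.exp_add] at hj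
  have h4 := WithZero.exp_injective hj
  have h5 : n * (j - j') = 1 := by linear_combination -h4
  rcases Int.eq_one_or_neg_one_of_mul_eq_one h5 with h | h
  · exact h
  · omega

theorem parity {n : ℤ} (hn : 0 < n) {a b : L}
    (ha : a = 0 ∨ ∃ m : ℤ, v a = WithZero.exp (2 * n * m))
    (hb : b = 0 ∨ ∃ m : ℤ, v b = WithZero.exp (2 * n * m + n)) (hab : a + b ≠ 0) :
    ∃ j : ℤ, v (a + b) = WithZero.exp (n * j) := by
  rcases ha with rfl | ⟨m, hm⟩
  · rcases hb with rfl | ⟨m', hm'⟩
    · simp at hab
    · refine ⟨2 * m' + 1, ?_⟩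
      rw [zero_add, hm']
      congr 1
      ring
  · rcases hb with rfl | ⟨m', hm'⟩
    · refine ⟨2 * m, ?_⟩
      rw [add_zero, hm]
      congr 1
      ring
    · have h1 : v a ≠ v b := by
        rw [hm, hm']
        intro h
        have h2 := WithZero.exp_injective h
        have h3 : n * (2 * (m - m') - 1) = 0 := by linear_combination h2
        rcases mul_eq_zero.1 h3 with h | h
        · omega
        · omega
      rw [Valuation.map_add_of_distinct_val v h1]
      rcases max_choice (v a) (v b) with h | h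
      · refine ⟨2 * m, ?_⟩
        rw [h, hm]
        congr 1
        ring
      · refine ⟨2 * m' + 1, ?_⟩
        rw [h, hm']
        congr 1
        ring

/-- The function `x - x₀` has order one at a point `(x₀, y₀)` with `y₀ ≠ 0`. -/
theorem ordP (hG : Gen k x y) (hs : Function.Surjective v) (hv : Triv k v) {f : ℂ[X]}
    (hxy : y ^ 2 = f.eval₂ k x) {x₀ y₀ : ℂ} (h0 : y₀ ≠ 0) (hx0 : x ≠ k x₀)
    (hx : v (x - k x₀) < 1) (hy : v (y - k y₀) < 1) : v (x - k x₀) = WithZero.exp (-1) := by
  obtain ⟨m, hm⟩ := exists_exp (v := v) (sub_ne_zero.2 hx0)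
  have hm0 : m < 0 := by
    rw [hm, ← WithZero.exp_zero, WithZero.exp_lt_exp] at hx
    exact hx
  have key : ∀ N : ℕ, ∀ p q : ℂ[X], p.natDegree + q.natDegree < N →
      p.eval₂ k x + q.eval₂ k x * y ≠ 0 →
      ∃ j : ℤ, v (p.eval₂ k x + q.eval₂ k x * y) = WithZero.exp (-m * j) := by
    intro N
    induction N with
    | zero => intro p q h; omega
    | succ N ih =>
      intro p q hN hpq
      by_cases hc : p.eval x₀ = 0 ∧ q.eval x₀ = 0
      · obtain ⟨p₁, hp₁⟩ := Polynomial.dvd_iff_isRoot.2 hc.1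
        obtain ⟨q₁, hq₁⟩ := Polynomial.dvd_iff_isRoot.2 hc.2
        have e1 : p.eval₂ k x + q.eval₂ k x * y =
            (x - k x₀) * (p₁.eval₂ k x + q₁.eval₂ k x * y) := by
          rw [hp₁, hq₁, Polynomial.eval₂_mul, Polynomial.eval₂_mul, Polynomial.eval₂_sub,
            Polynomial.eval₂_X, Polynomial.eval₂_C]
          ring
        have hne : p₁.eval₂ k x + q₁.eval₂ k x * y ≠ 0 := fun h => hpq (by rw [e1, h, mul_zero])
        have d1 : ∀ r : ℂ[X], ((X - C x₀) * r).natDegree = if r = 0 then 0 else r.natDegree + 1 := by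
          intro r
          split_ifs with hr
          · rw [hr, mul_zero, natDegree_zero]
          · rw [natDegree_mul (X_sub_C_ne_zero x₀) hr, natDegree_X_sub_C, add_comm]
        have hlt : p₁.natDegree + q₁.natDegree < N := by
          rw [hp₁, hq₁, d1, d1] at hN
          by_cases h1 : p₁ = 0
          · by_cases h2 : q₁ = 0
            · exfalso
              apply hne
              rw [h1, h2]
              simp
            · rw [if_neg h2] at hN
              rw [h1, natDegree_zero]
              split_ifs at hN <;> omega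
          · rw [if_neg h1] at hN
            split_ifs at hN with h2
            · rw [h2, natDegree_zero]
              omega
            · omega
        obtain ⟨j, hj⟩ := ih p₁ q₁ hlt hne
        refine ⟨j - 1, ?_⟩
        rw [e1, map_mul, hj, hm, ← WithZero.exp_add]
        congr 1
        ring
      · have hA : v (p.eval₂ k x + q.eval₂ k x * y - k (p.eval x₀ + q.eval x₀ * y₀)) < 1 := by
          have e2 : p.eval₂ k x + q.eval₂ k x * y - k (p.eval x₀ + q.eval x₀ * y₀) =
              (p.eval₂ k x - k (p.eval x₀)) + ((q.eval₂ k x - k (q.eval x₀)) * y +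
              k (q.eval x₀) * (y - k y₀)) := by
            rw [map_add, map_mul]
            ring
          rw [e2]
          refine v.map_add_lt (hv.eval_sub hx p) (v.map_add_lt ?_ ?_)
          · rw [map_mul]
            exact mul_lt_one_of_lt_of_le (hv.eval_sub hx q) (hv.le_of_sub hy)
          · rw [map_mul, mul_comm]
            exact mul_lt_one_of_lt_of_le hy (hv.le _)
        have hB : v (p.eval₂ k x - q.eval₂ k x * y - k (p.eval x₀ - q.eval x₀ * y₀)) < 1 := by
          have e2 : p.eval₂ k x - q.eval₂ k x * y - k (p.eval x₀ - q.eval x₀ * y₀) =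
              (p.eval₂ k x - k (p.eval x₀)) + -((q.eval₂ k x - k (q.eval x₀)) * y +
              k (q.eval x₀) * (y - k y₀)) := by
            rw [map_sub, map_mul]
            ring
          rw [e2]
          refine v.map_add_lt (hv.eval_sub hx p) ?_
          rw [Valuation.map_neg]
          refine v.map_add_lt ?_ ?_
          · rw [map_mul]
            exact mul_lt_one_of_lt_of_le (hv.eval_sub hx q) (hv.le_of_sub hy)
          · rw [map_mul, mul_comm]
            exact mul_lt_one_of_lt_of_le hy (hv.le _)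
        by_cases hA0 : p.eval x₀ + q.eval x₀ * y₀ = 0
        · have hB0 : p.eval x₀ - q.eval x₀ * y₀ ≠ 0 := by
            intro hB0
            apply hc
            have h1 : 2 * p.eval x₀ = 0 := by linear_combination hA0 + hB0
            have h2 : 2 * y₀ * q.eval x₀ = 0 := by linear_combination hA0 - hB0
            refine ⟨?_, ?_⟩
            · rcases mul_eq_zero.1 h1 with h | h
              · norm_num at h
              · exact h
            · rcases mul_eq_zero.1 h2 with h | h
              · exact absurd h (mul_ne_zero two_ne_zero h0)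
              · exact h
          have h1 : v (p.eval₂ k x - q.eval₂ k x * y) = 1 := hv.eq_one hB0 hB
          have e3 : (p.eval₂ k x + q.eval₂ k x * y) * (p.eval₂ k x - q.eval₂ k x * y) =
              (p ^ 2 - q ^ 2 * f).eval₂ k x := by
            rw [Polynomial.eval₂_sub, Polynomial.eval₂_mul, Polynomial.eval₂_pow,
              Polynomial.eval₂_pow, ← hxy]
            ring
          have h2 : p ^ 2 - q ^ 2 * f ≠ 0 := by
            intro h
            rw [h, Polynomial.eval₂_zero] at e3
            rcases mul_eq_zero.1 e3 with h3 | h3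
            · exact hpq h3
            · rw [h3, map_zero] at h1
              exact zero_ne_one h1
          obtain ⟨j, hj⟩ := hv.eval_pow hx h2
          refine ⟨-j, ?_⟩
          rw [← e3, map_mul, h1, mul_one, hm, ← WithZero.exp_nsmul] at hj
          rw [hj]
          congr 1
          rw [nsmul_eq_mul]
          ring
        · refine ⟨0, ?_⟩
          rw [hv.eq_one hA0 hA, mul_zero, WithZero.exp_zero]
  have h1 : -m = 1 := ord1 hG hs (by omega) fun p q h => key _ p q (Nat.lt_succ_self _) h
  rw [hm]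
  congr 1
  omega

/-- At a point `(e, 0)` the function `x - e` has order two. -/
theorem ordT (hG : Gen k x y) (hs : Function.Surjective v) (hv : Triv k v) {g : ℂ[X]} {e : ℂ}
    (hxy : y ^ 2 = (x - k e) * g.eval₂ k x) (hg : g.eval e ≠ 0) (hx0 : x ≠ k e)
    (hx : v (x - k e) < 1) : v (x - k e) = WithZero.exp (-2) := by
  have h1 : v y ^ 2 = v (x - k e) := by
    rw [← map_pow, hxy, map_mul, hv.eval_one hx hg, mul_one]
  have hy0 : y ≠ 0 := by
    rintro rfl
    rw [map_zero, zero_pow two_ne_zero] at h1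
    exact (Valuation.ne_zero_iff v).2 (sub_ne_zero.2 hx0) h1.symm
  obtain ⟨m, hm⟩ := exists_exp (v := v) hy0
  have h2 : v (x - k e) = WithZero.exp (2 * m) := by
    rw [← h1, hm, ← WithZero.exp_nsmul]
    congr 1
  have hm0 : m < 0 := by
    rw [h2, ← WithZero.exp_zero, WithZero.exp_lt_exp] at hx
    omega
  have h3 : -m = 1 := by
    refine ord1 hG hs (by omega) fun p q h => parity (by omega) ?_ ?_ h
    · by_cases hp : p = 0
      · left
        rw [hp, Polynomial.eval₂_zero]
      · right
        obtain ⟨j, hj⟩ := hv.eval_pow hx hp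
        refine ⟨-j, ?_⟩
        rw [hj, h2, ← WithZero.exp_nsmul]
        congr 1
        rw [nsmul_eq_mul]
        ring
    · by_cases hq : q = 0
      · left
        rw [hq, Polynomial.eval₂_zero, zero_mul]
      · right
        obtain ⟨j, hj⟩ := hv.eval_pow hx hq
        refine ⟨-j - 1, ?_⟩
        rw [map_mul, hj, h2, hm, ← WithZero.exp_nsmul, ← WithZero.exp_add]
        congr 1
        rw [nsmul_eq_mul]
        ring
  rw [h2]
  congr 1
  omega

/-- At infinity the function `x` has order `-2` and `y` has order `-3`. -/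
theorem ordO (hG : Gen k x y) (hs : Function.Surjective v) (hv : Triv k v) {f : ℂ[X]}
    (hxy : y ^ 2 = f.eval₂ k x) (hf : f.natDegree = 3) (hx : 1 < v x) :
    v x = WithZero.exp 2 ∧ v y = WithZero.exp 3 := by
  have hx0 : x ≠ 0 := by
    rintro rfl
    rw [map_zero] at hx
    exact absurd hx (not_lt.2 zero_le_one)
  have hf0 : f ≠ 0 := by
    rintro rfl
    simp at hf
  have h1 : v y ^ 2 = v x ^ 3 := by
    rw [← map_pow, hxy, hv.eval_inf hx hf0, hf]
  have hy0 : y ≠ 0 := by
    rintro rfl
    rw [map_zero, zero_pow two_ne_zero] at h1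
    exact (pow_ne_zero 3 ((Valuation.ne_zero_iff v).2 hx0)) h1.symm
  obtain ⟨a, ha⟩ := exists_exp (v := v) hx0
  obtain ⟨b, hb⟩ := exists_exp (v := v) hy0
  have h2 : 2 * b = 3 * a := by
    rw [ha, hb, ← WithZero.exp_nsmul, ← WithZero.exp_nsmul] at h1
    have h3 := WithZero.exp_injective h1
    rw [nsmul_eq_mul, nsmul_eq_mul] at h3
    push_cast at h3
    exact h3
  have ha0 : 0 < a := by
    rw [ha, ← WithZero.exp_zero, WithZero.exp_lt_exp] at hx
    exact hx
  obtain ⟨n, rfl⟩ : ∃ n, a = 2 * n := ⟨b - a, by omega⟩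
  obtain rfl : b = 3 * n := by omega
  have h3 : n = 1 := by
    refine ord1 hG hs (by omega) fun p q h => parity (by omega) ?_ ?_ h
    · by_cases hp : p = 0
      · left
        rw [hp, Polynomial.eval₂_zero]
      · right
        refine ⟨p.natDegree, ?_⟩
        rw [hv.eval_inf hx hp, ha, ← WithZero.exp_nsmul]
        congr 1
        rw [nsmul_eq_mul]
        ring
    · by_cases hq : q = 0
      · left
        rw [hq, Polynomial.eval₂_zero, zero_mul]
      · right
        refine ⟨q.natDegree + 1, ?_⟩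
        rw [map_mul, hv.eval_inf hx hq, ha, hb, ← WithZero.exp_nsmul, ← WithZero.exp_add]
        congr 1
        rw [nsmul_eq_mul]
        ring
  subst h3
  exact ⟨ha, hb⟩

end Pool.Agent.T9h40.PE
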