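import Pool.Agent.T9h40.PE.Fam
set_option autoImplicit false

/-!
Symbols on hyperelliptic curves `y² = D(x)` with a unit `P + Q y` or `(A + B y) / x ^ m`.
-/

namespace Pool.Agent.T9h40.PE

open scoped WithZero

open Polynomial

open Pool.Agent.TH826.MK

variable {L : Type*} [Field L] {k : ℂ →+* L} {x y : L}

theorem ev_val {v : Valuation L ℤᵐ⁰} (hv : Triv k v) {P Q : ℂ[X]} {b y₀ : ℂ}
    (hx : v (x - k b) < 1) (hy : v (y - k y₀) < 1) :
    v (P.eval₂ k x + Q.eval₂ k x * y - k (P.eval b + Q.eval b * y₀)) < 1 := by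
  have e : P.eval₂ k x + Q.eval₂ k x * y - k (P.eval b + Q.eval b * y₀) =
      (P.eval₂ k x - k (P.eval b)) + ((Q.eval₂ k x - k (Q.eval b)) * y +
        k (Q.eval b) * (y - k y₀)) := by
    rw [map_add, map_mul]
    ring
  rw [e]
  refine v.map_add_lt (hv.eval_sub hx P) (v.map_add_lt ?_ ?_)
  · rw [map_mul]
    exact mul_lt_one_of_lt_of_le (hv.eval_sub hx Q) (hv.le_of_sub hy)
  · rw [map_mul, mul_comm]
    exact mul_lt_one_of_lt_of_le hy (hv.le _)

/-- A general construction: `z` is a unit function with values `ζ`, `1 / ζ` at the points above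
`b` and `ε` at `β`, and `g` has divisor `(x - b) / (x - β)`, and at each place one of `z`, `g` is
well behaved. -/
theorem gen_symb {b y₀ β ζ ζ' ε : ℂ} {z g : Lˣ} (hζζ : ζ * ζ' = 1) (hn : ‖ζ‖ ≠ 1)
    (hε : ε ^ 2 = 1)
    (HP : ∀ v : Valuation L ℤᵐ⁰, Function.Surjective v → Triv k v → v (x - k b) < 1 →
      v (y - k y₀) < 1 → v ((z : L) - k ζ) < 1 ∧ v (g : L) = WithZero.exp (-1))
    (HQ : ∀ v : Valuation L ℤᵐ⁰, Function.Surjective v → Triv k v → v (x - k β) < 1 →
      v ((z : L) - k ε) < 1 ∧ v (g : L) = WithZero.exp 2)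
    (HO : ∀ v : Valuation L ℤᵐ⁰, Function.Surjective v → Triv k v →
      ¬ (v (x - k b) < 1 ∧ v (y - k y₀) < 1) → ¬ v (x - k β) < 1 →
      v ((g : L) - 1) < 1 ∨ v ((z : L) - k ζ') < 1 ∨ (v (z : L) = 1 ∧ v (g : L) = 1)) :
    ∃ (S : KQ L 2) (c : ℂˣ), ‖(c : ℂ)‖ ≠ 1 ∧
      Bd2 k (fun v => v (x - k b) < 1 ∧ v (y - k y₀) < 1) (fun v => v (x - k β) < 1) S c := by
  have hζ0 : ζ ≠ 0 := left_ne_zero_of_mul_eq_one hζζ
  have hε0 : ε ≠ 0 := by
    rintro rfl
    rw [zero_pow two_ne_zero] at hε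
    exact zero_ne_one hε
  obtain ⟨ζu, hζu⟩ : ∃ ζu : ℂˣ, (ζu : ℂ) = ζ := ⟨Units.mk0 _ hζ0, rfl⟩
  obtain ⟨εu, hεu⟩ : ∃ εu : ℂˣ, (εu : ℂ) = ε := ⟨Units.mk0 _ hε0, rfl⟩
  have hcoe : ((kc k ζu * z : Lˣ) : L) = k ζ * z := by
    rw [Units.val_mul, coe_kc, hζu]
  refine ⟨symb ![kc k ζu * z, g], ζu ^ (2 : ℤ), ?_, ?_⟩
  · rw [Units.val_zpow_eq_zpow_val, zpow_ofNat, norm_pow, hζu]
    intro h
    exact hn ((pow_eq_one_iff_of_nonneg (norm_nonneg _) two_ne_zero).1 h)
  · intro v hs hv π hπ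
    refine ⟨fun h1 => ?_, fun h1 => ?_, fun h1 h2 => ?_⟩
    · obtain ⟨h3, h4⟩ := HP v hs hv h1.1 h1.2
      have h5 : v (((kc k ζu * z : Lˣ) : L) - kc k (ζu ^ (2 : ℤ))) < 1 := by
        have h5 : ((kc k ζu * z : Lˣ) : L) - kc k (ζu ^ (2 : ℤ)) = k ζ * (z - k ζ) := by
          rw [hcoe, coe_kc, Units.val_zpow_eq_zpow_val, zpow_ofNat, hζu, pow_two, map_mul]
          ring
        rw [h5, map_mul, hv _ hζ0, one_mul]
        exact h3
      have h7 := tame (hv.kc (ζu ^ (2 : ℤ))) h5 h4 hπ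
      rwa [Int.cast_one, one_smul] at h7
    · obtain ⟨h3, h4⟩ := HQ v hs hv h1
      have h5 : v (((kc k ζu * z : Lˣ) : L) - kc k (ζu * εu)) < 1 := by
        have h5 : ((kc k ζu * z : Lˣ) : L) - kc k (ζu * εu) = k ζ * (z - k ε) := by
          rw [hcoe, coe_kc, Units.val_mul, hζu, hεu, map_mul]
          ring
        rw [h5, map_mul, hv _ hζ0, one_mul]
        exact h3
      have h7 : v (g : L) = WithZero.exp (-(-2)) := by
        rw [h4]
        norm_num
      have h8 := tame (hv.kc (ζu * εu)) h5 h7 hπ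
      have h9 : kc k (ζu ^ (2 : ℤ)) = kc k (ζu * εu) ^ (2 : ℤ) := by
        rw [← kc_pow]
        congr 1
        refine Units.ext ?_
        rw [Units.val_zpow_eq_zpow_val, Units.val_zpow_eq_zpow_val, Units.val_mul, zpow_ofNat,
          zpow_ofNat, mul_pow, hεu, hε, mul_one]
      rw [h9, symb_zpow_left]
      rwa [Int.cast_neg, neg_smul, sub_neg_eq_add] at h8
    · rcases HO v hs hv h1 h2 with h3 | h3 | ⟨h3, h4⟩
      · exact one_mem_right h3
      · apply one_mem_left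
        have h6 : ((kc k ζu * z : Lˣ) : L) - 1 = k ζ * (z - k ζ') := by
          rw [hcoe, mul_sub, ← map_mul, hζζ, map_one]
        rw [h6, map_mul, hv _ hζ0, one_mul]
        exact h3
      · refine unit_mem ?_ h4
        rw [hcoe, map_mul, hv _ hζ0, h3, one_mul]

section Both

variable {D : ℂ[X]} {b y₀ β : ℂ}

/-- The other point above `b`. -/
theorem conj_val {v : Valuation L ℤᵐ⁰} (hv : Triv k v) (hxy : y ^ 2 = D.eval₂ k x)
    (h0 : y₀ ^ 2 = D.eval b) (hc : v (x - k b) < 1)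
    (h : ¬ (v (x - k b) < 1 ∧ v (y - k y₀) < 1)) : v (y - k (-y₀)) < 1 := by
  rw [map_neg, sub_neg_eq_add]
  have h4 : v ((y - k y₀) * (y + k y₀)) < 1 := by
    have h5 : (y - k y₀) * (y + k y₀) = D.eval₂ k x - k (D.eval b) := by
      rw [← h0, ← hxy, map_pow]
      ring
    rw [h5]
    exact hv.eval_sub hc _
  rw [map_mul] at h4
  by_contra h5
  exact absurd h4 (not_lt.2 (one_le_mul (not_lt.1 fun h6 => h ⟨hc, h6⟩) (not_lt.1 h5)))

/-- The functions `y` at a root of `D`. -/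
theorem root_val {v : Valuation L ℤᵐ⁰} (hv : Triv k v) (hxy : y ^ 2 = D.eval₂ k x)
    (h0 : D.eval β = 0) (hc : v (x - k β) < 1) : v (y - k 0) < 1 := by
  rw [map_zero, sub_zero]
  have h3 : v (y ^ 2) < 1 := by
    have h4 := hv.eval_sub hc D
    rwa [h0, map_zero, sub_zero, ← hxy] at h4
  rw [map_pow] at h3
  exact (pow_lt_one_iff two_ne_zero).1 h3

/-- Points with `|P + Q y| ≠ 1`. -/
theorem lemP (hG : Gen k x y) (hx : ∀ u, x ≠ k u) {P Q : ℂ[X]} (hxy : y ^ 2 = D.eval₂ k x)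
    (hPQ : P ^ 2 - D * Q ^ 2 = 1) (h0 : y₀ ^ 2 = D.eval b)
    (hn : ‖P.eval b + Q.eval b * y₀‖ ≠ 1) {g : ℂ[X]} (hβ : D = (X - C β) * g)
    (hg : g.eval β ≠ 0) :
    ∃ (S : KQ L 2) (c : ℂˣ), ‖(c : ℂ)‖ ≠ 1 ∧
      Bd2 k (fun v => v (x - k b) < 1 ∧ v (y - k y₀) < 1) (fun v => v (x - k β) < 1) S c := by
  have hDβ : D.eval β = 0 := by
    rw [hβ, eval_mul, eval_sub, eval_X, eval_C, sub_self, zero_mul]
  have hPQb : ∀ u : ℂ, P.eval u ^ 2 - D.eval u * Q.eval u ^ 2 = 1 := by
    intro u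
    have h1 := congrArg (Polynomial.eval u) hPQ
    simpa using h1
  have hPQL : P.eval₂ k x ^ 2 - D.eval₂ k x * Q.eval₂ k x ^ 2 = 1 := by
    have h1 := congrArg (Polynomial.eval₂ k x) hPQ
    rw [Polynomial.eval₂_sub, Polynomial.eval₂_mul, Polynomial.eval₂_pow, Polynomial.eval₂_pow,
      Polynomial.eval₂_one] at h1
    exact h1
  have hzz : (P.eval₂ k x + Q.eval₂ k x * y) * (P.eval₂ k x - Q.eval₂ k x * y) = 1 := by
    rw [← hxy] at hPQL
    linear_combination hPQL
  have hζζ : (P.eval b + Q.eval b * y₀) * (P.eval b + Q.eval b * -y₀) = 1 := by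
    have h1 := hPQb b
    rw [← h0] at h1
    linear_combination h1
  have hε : (P.eval β) ^ 2 = 1 := by
    have h1 := hPQb β
    rwa [hDβ, zero_mul, sub_zero] at h1
  have hy₀ : y₀ ≠ 0 := by
    rintro rfl
    rw [neg_zero, mul_zero, add_zero, ← pow_two] at hζζ
    apply hn
    rw [mul_zero, add_zero]
    have h2 := congrArg norm hζζ
    rw [norm_pow, norm_one] at h2
    exact (pow_eq_one_iff_of_nonneg (norm_nonneg _) two_ne_zero).1 h2
  have hbβ : b ≠ β := by
    rintro rfl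
    rw [hDβ] at h0
    exact hy₀ (pow_eq_zero_iff two_ne_zero |>.1 h0)
  obtain ⟨z, hz⟩ : ∃ z : Lˣ, (z : L) = P.eval₂ k x + Q.eval₂ k x * y :=
    ⟨Units.mk0 _ (left_ne_zero_of_mul_eq_one hzz), rfl⟩
  obtain ⟨h, hh⟩ : ∃ h : Lˣ, (h : L) = (x - k b) / (x - k β) :=
    ⟨Units.mk0 _ (div_ne_zero (sub_ne_zero.2 (hx _)) (sub_ne_zero.2 (hx _))), rfl⟩
  have hB : y ^ 2 = (x - k β) * g.eval₂ k x := by
    rw [hxy, hβ, Polynomial.eval₂_mul, Polynomial.eval₂_sub, Polynomial.eval₂_X,
      Polynomial.eval₂_C]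
  refine gen_symb (z := z) (g := h) hζζ hn hε ?_ ?_ ?_
  · intro v hs hv h1 h2
    refine ⟨by rw [hz]; exact ev_val hv h1 h2, ?_⟩
    rw [hh, map_div₀, hv.other h1 hbβ, div_one]
    exact ordP hG hs hv hxy hy₀ (hx _) h1 h2
  · intro v hs hv h1
    refine ⟨?_, ?_⟩
    · have h2 := ev_val (P := P) (Q := Q) hv h1 (root_val hv hxy hDβ h1)
      rw [mul_zero, add_zero] at h2
      rw [hz]
      exact h2
    · rw [hh, map_div₀, hv.other h1 hbβ.symm, ordT hG hs hv hB hg (hx _) h1,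
        ← WithZero.exp_zero, ← WithZero.exp_sub]
      norm_num
  · intro v hs hv h1 h2
    rcases lt_or_ge 1 (v x) with hx1 | hx1
    · left
      have h3 : (h : L) - 1 = k (β - b) / (x - k β) := by
        rw [hh, div_sub_one (sub_ne_zero.2 (hx _)), map_sub]
        congr 1
        ring
      rw [h3, map_div₀, Valuation.map_sub_eq_of_lt_left v ((hv.le _).trans_lt hx1)]
      rw [div_lt_one₀ (zero_lt_one.trans hx1)]
      exact (hv.le _).trans_lt hx1
    · right
      by_cases hc : v (x - k b) < 1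
      · left
        rw [hz]
        exact ev_val hv hc (conj_val hv hxy h0 hc h1)
      · right
        have hy1 : v y ≤ 1 := by
          have h3 : v y ^ 2 ≤ 1 := by
            rw [← map_pow, hxy]
            exact hv.eval_le hx1 _
          exact (pow_le_one_iff two_ne_zero).1 h3
        have hP1 := hv.eval_le hx1 P
        have hQ1 : v (Q.eval₂ k x * y) ≤ 1 := by
          rw [map_mul]
          exact mul_le_one' (hv.eval_le hx1 Q) hy1
        have h3 : v (P.eval₂ k x + Q.eval₂ k x * y) ≤ 1 :=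
          (v.map_add _ _).trans (max_le hP1 hQ1)
        have h4 : v (P.eval₂ k x - Q.eval₂ k x * y) ≤ 1 :=
          (v.map_sub _ _).trans (max_le hP1 hQ1)
        refine ⟨?_, ?_⟩
        · rw [hz]
          refine le_antisymm h3 (not_lt.1 fun h => ?_)
          have h5 := congrArg v hzz
          rw [map_mul, map_one] at h5
          exact absurd h5 (mul_lt_one_of_lt_of_le h h4).ne
        · have h5 : v (x - k b) = 1 :=
            le_antisymm ((v.map_sub _ _).trans (max_le hx1 (hv.le _))) (not_lt.1 hc)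
          have h6 : v (x - k β) = 1 :=
            le_antisymm ((v.map_sub _ _).trans (max_le hx1 (hv.le _))) (not_lt.1 h2)
          rw [hh, map_div₀, h5, h6, div_one]

/-- Points with `|(A + B y) / x ^ m| ≠ 1`. -/
theorem lemU (hG : Gen k x y) (hx : ∀ u, x ≠ k u) {A B : ℂ[X]} {m : ℕ}
    (hxy : y ^ 2 = D.eval₂ k x) (hAB : A ^ 2 - D * B ^ 2 = X ^ (2 * m)) (hA : A.natDegree ≤ m)
    (hb : b ≠ 0) (hβ0 : β ≠ 0) (hA0 : A.eval 0 ≠ 0) (hm : 0 < m)
    (h0 : y₀ ^ 2 = D.eval b)
    (hn : ‖(A.eval b + B.eval b * y₀) / b ^ m‖ ≠ 1) {g : ℂ[X]} (hβ : D = (X - C β) * g)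
    (hg : g.eval β ≠ 0) :
    ∃ (S : KQ L 2) (c : ℂˣ), ‖(c : ℂ)‖ ≠ 1 ∧
      Bd2 k (fun v => v (x - k b) < 1 ∧ v (y - k y₀) < 1) (fun v => v (x - k β) < 1) S c := by
  have hxL : x ≠ 0 := by
    have h1 := hx 0
    rwa [map_zero] at h1
  have hxm : x ^ m ≠ 0 := pow_ne_zero m hxL
  have hbm : b ^ m ≠ 0 := pow_ne_zero m hb
  have hβm : β ^ m ≠ 0 := pow_ne_zero m hβ0
  have hDβ : D.eval β = 0 := by
    rw [hβ, eval_mul, eval_sub, eval_X, eval_C, sub_self, zero_mul]
  have hABb : ∀ u : ℂ, A.eval u ^ 2 - D.eval u * B.eval u ^ 2 = (u ^ m) ^ 2 := by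
    intro u
    have h1 := congrArg (Polynomial.eval u) hAB
    rw [← pow_mul, mul_comm m 2]
    simpa using h1
  have hABL : A.eval₂ k x ^ 2 - D.eval₂ k x * B.eval₂ k x ^ 2 = (x ^ m) ^ 2 := by
    have h1 := congrArg (Polynomial.eval₂ k x) hAB
    rw [Polynomial.eval₂_sub, Polynomial.eval₂_mul, Polynomial.eval₂_pow, Polynomial.eval₂_pow,
      Polynomial.eval₂_X_pow, mul_comm 2 m, pow_mul] at h1
    exact h1
  have hzz : (A.eval₂ k x + B.eval₂ k x * y) / x ^ m *
      ((A.eval₂ k x - B.eval₂ k x * y) / x ^ m) = 1 := by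
    rw [← hxy] at hABL
    field_simp
    linear_combination hABL
  have hζζ : (A.eval b + B.eval b * y₀) / b ^ m * ((A.eval b + B.eval b * -y₀) / b ^ m) = 1 := by
    have h1 := hABb b
    rw [← h0] at h1
    field_simp
    linear_combination h1
  have hε : (A.eval β / β ^ m) ^ 2 = 1 := by
    have h1 := hABb β
    rw [hDβ, zero_mul, sub_zero] at h1
    rw [div_pow, h1, div_self (pow_ne_zero 2 hβm)]
  have hy₀ : y₀ ≠ 0 := by
    rintro rfl
    rw [neg_zero, mul_zero, add_zero, ← pow_two] at hζζ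
    apply hn
    rw [mul_zero, add_zero]
    have h2 := congrArg norm hζζ
    rw [norm_pow, norm_one] at h2
    exact (pow_eq_one_iff_of_nonneg (norm_nonneg _) two_ne_zero).1 h2
  have hbβ : b ≠ β := by
    rintro rfl
    rw [hDβ] at h0
    exact hy₀ (pow_eq_zero_iff two_ne_zero |>.1 h0)
  have kb0 : k b ≠ 0 := (_root_.map_ne_zero k).2 hb
  have kβ0 : k β ≠ 0 := (_root_.map_ne_zero k).2 hβ0
  obtain ⟨z, hz⟩ : ∃ z : Lˣ, (z : L) = (A.eval₂ k x + B.eval₂ k x * y) / x ^ m :=
    ⟨Units.mk0 _ (left_ne_zero_of_mul_eq_one hzz), rfl⟩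
  obtain ⟨h, hh⟩ : ∃ h : Lˣ, (h : L) = k (β / b) * ((x - k b) / (x - k β)) :=
    ⟨Units.mk0 _ (mul_ne_zero ((_root_.map_ne_zero k).2 (div_ne_zero hβ0 hb))
      (div_ne_zero (sub_ne_zero.2 (hx _)) (sub_ne_zero.2 (hx _)))), rfl⟩
  have hB : y ^ 2 = (x - k β) * g.eval₂ k x := by
    rw [hxy, hβ, Polynomial.eval₂_mul, Polynomial.eval₂_sub, Polynomial.eval₂_X,
      Polynomial.eval₂_C]
  have hvh : ∀ v : Valuation L ℤᵐ⁰, Triv k v → v (h : L) = v (x - k b) / v (x - k β) := by
    intro v hv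
    rw [hh, map_mul, hv _ (div_ne_zero hβ0 hb), one_mul, map_div₀]
  -- the values of `z` at the points off `x = 0`
  have hval : ∀ v : Valuation L ℤᵐ⁰, Triv k v → ∀ u w : ℂ, u ≠ 0 → v (x - k u) < 1 →
      v (y - k w) < 1 → v ((z : L) - k ((A.eval u + B.eval u * w) / u ^ m)) < 1 := by
    intro v hv u w hu h1 h2
    have ku0 : k u ^ m ≠ 0 := pow_ne_zero m ((_root_.map_ne_zero k).2 hu)
    have h3 := ev_val (P := A) (Q := B) hv h1 h2
    have h4 : v x = 1 := hv.eq_one hu h1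
    have h5 : v (x ^ m - k u ^ m) < 1 := by
      have h5 := hv.eval_sub h1 (X ^ m)
      rwa [Polynomial.eval₂_X_pow, eval_pow, eval_X, map_pow] at h5
    obtain ⟨N, hN⟩ : ∃ N, N = A.eval₂ k x + B.eval₂ k x * y := ⟨_, rfl⟩
    obtain ⟨M, hM⟩ : ∃ M, M = A.eval u + B.eval u * w := ⟨_, rfl⟩
    rw [← hN, ← hM] at h3
    have e : (z : L) - k ((A.eval u + B.eval u * w) / u ^ m) =
        ((N - k M) + -(k M / k u ^ m * (x ^ m - k u ^ m))) / x ^ m := by
      rw [hz, ← hN, ← hM, map_div₀, map_pow]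
      field_simp
      ring
    rw [e, map_div₀, map_pow, h4, one_pow, div_one]
    refine v.map_add_lt h3 ?_
    rw [Valuation.map_neg, map_mul, mul_comm]
    refine mul_lt_one_of_lt_of_le h5 ?_
    rw [← map_pow k, ← map_div₀ k]
    exact hv.le _
  refine gen_symb (z := z) (g := h) hζζ hn hε ?_ ?_ ?_
  · intro v hs hv h1 h2
    refine ⟨hval v hv b y₀ hb h1 h2, ?_⟩
    rw [hvh v hv, hv.other h1 hbβ, div_one]
    exact ordP hG hs hv hxy hy₀ (hx _) h1 h2
  · intro v hs hv h1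
    refine ⟨?_, ?_⟩
    · have h2 := hval v hv β 0 hβ0 h1 (root_val hv hxy hDβ h1)
      rwa [mul_zero, add_zero] at h2
    · rw [hvh v hv, hv.other h1 hbβ.symm, ordT hG hs hv hB hg (hx _) h1,
        ← WithZero.exp_zero, ← WithZero.exp_sub]
      norm_num
  · intro v hs hv h1 h2
    -- the place is off `x = 0`, and `z` is a unit, or `h` is a one-unit
    rcases lt_or_ge 1 (v x) with hx1 | hx1
    · right
      right
      have hxp : 0 < v x := zero_lt_one.trans hx1
      have hvA : v (A.eval₂ k x / x ^ m) ≤ 1 := by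
        have hA1 : A ≠ 0 := by
          rintro rfl
          simp at hA0
        rw [map_div₀, map_pow, hv.eval_inf hx1 hA1]
        exact (div_le_one₀ (pow_pos hxp m)).2 (pow_le_pow_right₀ hx1.le hA)
      have hvB : v (B.eval₂ k x * y / x ^ m) ≤ 1 := by
        have h3 : (B.eval₂ k x * y / x ^ m) ^ 2 = (A.eval₂ k x / x ^ m) ^ 2 - 1 := by
          rw [← hxy] at hABL
          field_simp
          linear_combination -hABL
        have h4 : v (B.eval₂ k x * y / x ^ m) ^ 2 ≤ 1 := by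
          rw [← map_pow, h3]
          refine (v.map_sub _ _).trans (max_le ?_ (by rw [map_one]))
          rw [map_pow]
          exact pow_le_one' hvA 2
        exact (pow_le_one_iff two_ne_zero).1 h4
      have h3 : v ((A.eval₂ k x + B.eval₂ k x * y) / x ^ m) ≤ 1 := by
        rw [add_div]
        exact (v.map_add _ _).trans (max_le hvA hvB)
      have h4 : v ((A.eval₂ k x - B.eval₂ k x * y) / x ^ m) ≤ 1 := by
        rw [sub_div]
        exact (v.map_sub _ _).trans (max_le hvA hvB)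
      refine ⟨?_, ?_⟩
      · rw [hz]
        refine le_antisymm h3 (not_lt.1 fun h => ?_)
        have h5 := congrArg v hzz
        rw [map_mul, map_one] at h5
        exact absurd h5 (mul_lt_one_of_lt_of_le h h4).ne
      · rw [hvh v hv, Valuation.map_sub_eq_of_lt_left v ((hv.le _).trans_lt hx1),
          Valuation.map_sub_eq_of_lt_left v ((hv.le _).trans_lt hx1), div_self hxp.ne']
    · by_cases hx2 : v x < 1
      · left
        have h3 : v (x - k β) = 1 := by
          rw [Valuation.map_sub_swap, Valuation.map_sub_eq_of_lt_left v, hv _ hβ0]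
          rw [hv _ hβ0]
          exact hx2
        have h4 : (h : L) - 1 = k ((β - b) / b) * x / (x - k β) := by
          rw [hh, map_div₀, map_div₀, map_sub]
          have h5 : x - k β ≠ 0 := sub_ne_zero.2 (hx _)
          field_simp
          ring
        rw [h4, map_div₀, h3, div_one, map_mul, mul_comm]
        exact mul_lt_one_of_lt_of_le hx2 (hv.le _)
      · right
        have hx3 : v x = 1 := le_antisymm hx1 (not_lt.1 hx2)
        by_cases hc : v (x - k b) < 1
        · left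
          exact hval v hv b (-y₀) hb hc (conj_val hv hxy h0 hc h1)
        · right
          have hy1 : v y ≤ 1 := by
            have h3 : v y ^ 2 ≤ 1 := by
              rw [← map_pow, hxy]
              exact hv.eval_le hx1 _
            exact (pow_le_one_iff two_ne_zero).1 h3
          have hP1 := hv.eval_le hx1 A
          have hQ1 : v (B.eval₂ k x * y) ≤ 1 := by
            rw [map_mul]
            exact mul_le_one' (hv.eval_le hx1 B) hy1
          have h3 : v ((A.eval₂ k x + B.eval₂ k x * y) / x ^ m) ≤ 1 := by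
            rw [map_div₀, map_pow, hx3, one_pow, div_one]
            exact (v.map_add _ _).trans (max_le hP1 hQ1)
          have h4 : v ((A.eval₂ k x - B.eval₂ k x * y) / x ^ m) ≤ 1 := by
            rw [map_div₀, map_pow, hx3, one_pow, div_one]
            exact (v.map_sub _ _).trans (max_le hP1 hQ1)
          refine ⟨?_, ?_⟩
          · rw [hz]
            refine le_antisymm h3 (not_lt.1 fun h => ?_)
            have h5 := congrArg v hzz
            rw [map_mul, map_one] at h5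
            exact absurd h5 (mul_lt_one_of_lt_of_le h h4).ne
          · have h5 : v (x - k b) = 1 :=
              le_antisymm ((v.map_sub _ _).trans (max_le hx1 (hv.le _))) (not_lt.1 hc)
            have h6 : v (x - k β) = 1 :=
              le_antisymm ((v.map_sub _ _).trans (max_le hx1 (hv.le _))) (not_lt.1 h2)
            rw [hvh v hv, h5, h6, div_one]

end Both

end Pool.Agent.T9h40.PE
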