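import Pool.Agent.TH826.HD.Ring
set_option autoImplicit false

/-!
Tame symbols of symbols one of whose entries is congruent to a constant.
-/

namespace Pool.Agent.T9h40.PE

open scoped WithZero

open Polynomial

open Pool.Agent.TH826.MK

section Symb

variable {A : Type*} [CommRing A]

theorem upd0 (f g h : Aˣ) : Function.update ![f, g] 0 h = ![h, g] := by
  funext i
  fin_cases i <;> rfl

theorem upd1 (f g h : Aˣ) : Function.update ![f, g] 1 h = ![f, h] := by
  funext i
  fin_cases i <;> rfl

theorem symb_mul_left (f f' g : Aˣ) :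
    symb ![f * f', g] = symb ![f, g] + symb ![f', g] := by
  have h := symb_update_mul ![f, g] 0 f f'
  rwa [upd0, upd0, upd0] at h

theorem symb_mul_right (f g g' : Aˣ) :
    symb ![f, g * g'] = symb ![f, g] + symb ![f, g'] := by
  have h := symb_update_mul ![f, g] 1 g g'
  rwa [upd1, upd1, upd1] at h

theorem symb_zpow_left (f g : Aˣ) (k : ℤ) : symb ![f ^ k, g] = (k : ℚ) • symb ![f, g] := by
  have h := symb_update_zpow ![f, g] 0 f k
  rwa [upd0, upd0] at h

theorem symb_zpow_right (f g : Aˣ) (k : ℤ) : symb ![f, g ^ k] = (k : ℚ) • symb ![f, g] := by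
  have h := symb_update_zpow ![f, g] 1 g k
  rwa [upd1, upd1] at h

end Symb

section Tame

variable {L : Type*} [Field L] {v : Valuation L ℤᵐ⁰}

theorem unit_mem {f g : Lˣ} (hf : v (f : L) = 1) (hg : v (g : L) = 1) :
    symb ![f, g] ∈ unitPart v 2 := by
  refine Submodule.subset_span ⟨![f, g], fun i => ?_, rfl⟩
  fin_cases i
  · exact hf
  · exact hg

theorem one_mem_left {f g : Lˣ} (hf : v ((f : L) - 1) < 1) : symb ![f, g] ∈ unitPart v 2 :=
  mem_unitPart_of_oneUnit' v 0 ![f, g] hf

theorem one_mem_right {f g : Lˣ} (hg : v ((g : L) - 1) < 1) : symb ![f, g] ∈ unitPart v 2 :=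
  mem_unitPart_of_oneUnit' v 1 ![f, g] hg

/-- If `f` is congruent to `c` and the order of `g` is `m`, then the tame symbol of `{f, g}` is the
one of `m {c, π}`. -/
theorem tame {f g π c : Lˣ} (hc : v (c : L) = 1) (hf : v ((f : L) - c) < 1) {m : ℤ}
    (hg : v (g : L) = WithZero.exp (-m)) (hπ : v (π : L) = WithZero.exp (-1)) :
    symb ![f, g] - (m : ℚ) • symb ![c, π] ∈ unitPart v 2 := by
  have h1 : symb ![f, g] = symb ![f / c, g] + symb ![c, g] := by
    rw [← symb_mul_left, div_mul_cancel]
  have h2 : symb ![c, g] = symb ![c, g / π ^ m] + (m : ℚ) • symb ![c, π] := by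
    rw [← symb_zpow_right, ← symb_mul_right, div_mul_cancel]
  rw [h1, h2, ← add_assoc, add_sub_cancel_right]
  refine Submodule.add_mem _ (one_mem_left ?_) (unit_mem hc ?_)
  · have h3 : ((f / c : Lˣ) : L) - 1 = ((f : L) - c) / c := by
      rw [Units.val_div_eq_div_val, sub_div, div_self c.ne_zero]
    rw [h3, map_div₀, hc, div_one]
    exact hf
  · rw [Units.val_div_eq_div_val, Units.val_zpow_eq_zpow_val, map_div₀, map_zpow₀, hg, hπ,
      ← WithZero.exp_zsmul, ← WithZero.exp_sub]
    rw [show -m - m • (-1 : ℤ) = 0 by rw [smul_eq_mul]; ring, WithZero.exp_zero]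

end Tame

end Pool.Agent.T9h40.PE
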