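import Pool.Agent.T9h40.PE.Model
set_option autoImplicit false

/-!
Symbols on the curves `y² = F(x)² - 4` with prescribed ramification at two points.
-/

namespace Pool.Agent.T9h40.PE

open scoped WithZero

open Polynomial

open Pool.Agent.TH826.MK

variable {L : Type*} [Field L] {k : ℂ →+* L} {x y : L}

/-- The tame symbols of `S` are `c` at the place `P`, `1 / c` at the place `Q`, and trivial at the
other places. -/
def Bd2 (k : ℂ →+* L) (P Q : Valuation L ℤᵐ⁰ → Prop) (S : KQ L 2) (c : ℂˣ) : Prop :=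
  ∀ v : Valuation L ℤᵐ⁰, Function.Surjective v → Triv k v →
    ∀ π : Lˣ, v (π : L) = WithZero.exp (-1) →
    (P v → S - symb ![kc k c, π] ∈ unitPart v 2) ∧
    (Q v → S + symb ![kc k c, π] ∈ unitPart v 2) ∧
    (¬ P v → ¬ Q v → S ∈ unitPart v 2)

theorem Bd2.congr {P Q P' Q' : Valuation L ℤᵐ⁰ → Prop} {S : KQ L 2} {c : ℂˣ}
    (h : Bd2 k P Q S c) (hP : ∀ v, Triv k v → (P' v ↔ P v))
    (hQ : ∀ v, Triv k v → (Q' v ↔ Q v)) : Bd2 k P' Q' S c := by
  intro v hs hv π hπ
  rw [hP v hv, hQ v hv]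
  exact h v hs hv π hπ

theorem Triv.other {v : Valuation L ℤᵐ⁰} (hv : Triv k v) {a b : ℂ} (h : v (x - k a) < 1)
    (hab : a ≠ b) : v (x - k b) = 1 := by
  refine hv.eq_one (c := a - b) (sub_ne_zero.2 hab) ?_
  have h1 : x - k b - k (a - b) = x - k a := by
    rw [map_sub]
    ring
  rw [h1]
  exact h

/-- The value of `(F(x) + y) / 2`. -/
theorem z_val {v : Valuation L ℤᵐ⁰} (hv : Triv k v) {F : ℂ[X]} {b y₀ : ℂ}
    (hx : v (x - k b) < 1) (hy : v (y - k y₀) < 1) :
    v ((F.eval₂ k x + y) / 2 - k ((F.eval b + y₀) / 2)) < 1 := by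
  have h2 : (2 : L) = k 2 := (map_ofNat k 2).symm
  have e : (F.eval₂ k x + y) / 2 - k ((F.eval b + y₀) / 2) =
      ((F.eval₂ k x - k (F.eval b)) + (y - k y₀)) / k 2 := by
    rw [map_div₀, map_add, h2]
    ring
  rw [e, map_div₀, hv _ two_ne_zero, div_one]
  exact v.map_add_lt (hv.eval_sub hx F) hy

/-- The points with `|z| ≠ 1`. -/
theorem lemG (hG : Gen k x y) (hx : ∀ a, x ≠ k a) {F : ℂ[X]}
    (hxy : y ^ 2 = (F ^ 2 - C 4).eval₂ k x) {b y₀ : ℂ} (h0 : y₀ ^ 2 = F.eval b ^ 2 - 4)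
    (hn : ‖(F.eval b + y₀) / 2‖ ≠ 1) {β ε : ℂ} (hε : ε ^ 2 = 1) {G : ℂ[X]}
    (hβ : F - C (2 * ε) = (X - C β) * G) (hGβ : G.eval β ≠ 0) :
    ∃ (S : KQ L 2) (c : ℂˣ), ‖(c : ℂ)‖ ≠ 1 ∧
      Bd2 k (fun v => v (x - k b) < 1 ∧ v (y - k y₀) < 1) (fun v => v (x - k β) < 1) S c := by
  have : CharZero L := charZero_of_injective_ringHom k.injective
  have hε0 : ε ≠ 0 := by
    rintro rfl
    rw [zero_pow two_ne_zero] at hε
    exact zero_ne_one hε
  obtain ⟨ζ, hζ⟩ : ∃ ζ : ℂ, ζ = (F.eval b + y₀) / 2 := ⟨_, rfl⟩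
  obtain ⟨ζ', hζ'⟩ : ∃ ζ' : ℂ, ζ' = (F.eval b + -y₀) / 2 := ⟨_, rfl⟩
  have hζζ : ζ * ζ' = 1 := by
    rw [hζ, hζ']
    linear_combination -h0 / 4
  have hζ0 : ζ ≠ 0 := left_ne_zero_of_mul_eq_one hζζ
  rw [← hζ] at hn
  have hy₀ : y₀ ≠ 0 := by
    rintro rfl
    have h1 : ζ' = ζ := by rw [hζ, hζ', neg_zero]
    rw [h1, ← pow_two] at hζζ
    have h2 := congrArg norm hζζ
    rw [norm_pow, norm_one] at h2
    exact hn ((pow_eq_one_iff_of_nonneg (norm_nonneg _) two_ne_zero).1 h2)
  have hFβ : F.eval β = 2 * ε := by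
    have h1 := congrArg (Polynomial.eval β) hβ
    simp only [eval_sub, eval_mul, eval_X, eval_C, sub_self, zero_mul] at h1
    exact sub_eq_zero.1 h1
  have hbβ : b - β ≠ 0 := by
    intro h
    rw [sub_eq_zero] at h
    rw [h, hFβ] at h0
    apply hy₀
    have h1 : y₀ ^ 2 = 0 := by linear_combination h0 + 4 * hε
    exact pow_eq_zero_iff two_ne_zero |>.1 h1
  obtain ⟨z, hz⟩ : ∃ z : L, z = (F.eval₂ k x + y) / 2 := ⟨_, rfl⟩
  obtain ⟨z', hz'⟩ : ∃ z' : L, z' = (F.eval₂ k x + -y) / 2 := ⟨_, rfl⟩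
  have hf : y ^ 2 = F.eval₂ k x ^ 2 - 4 := by
    rw [hxy, Polynomial.eval₂_sub, Polynomial.eval₂_pow, Polynomial.eval₂_C,
      (map_ofNat k 4 : k 4 = 4)]
  have hzz : z * z' = 1 := by
    rw [hz, hz']
    have h4 : (4 : L) ≠ 0 := by norm_num
    field_simp
    linear_combination -hf
  have hz0 : z ≠ 0 := left_ne_zero_of_mul_eq_one hzz
  obtain ⟨g, hg⟩ : ∃ g : Lˣ, (g : L) = (x - k b) / (x - k β) :=
    ⟨Units.mk0 _ (div_ne_zero (sub_ne_zero.2 (hx _)) (sub_ne_zero.2 (hx _))), rfl⟩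
  obtain ⟨ζu, hζu⟩ : ∃ ζu : ℂˣ, (ζu : ℂ) = ζ := ⟨Units.mk0 _ hζ0, rfl⟩
  obtain ⟨εu, hεu⟩ : ∃ εu : ℂˣ, (εu : ℂ) = ε := ⟨Units.mk0 _ hε0, rfl⟩
  obtain ⟨zu, hzu⟩ : ∃ zu : Lˣ, (zu : L) = z := ⟨Units.mk0 _ hz0, rfl⟩
  have hcoe : ((kc k ζu * zu : Lˣ) : L) = k ζ * z := by
    rw [Units.val_mul, coe_kc, hζu, hzu]
  refine ⟨symb ![kc k ζu * zu, g], ζu ^ (2 : ℤ), ?_, ?_⟩
  · rw [Units.val_zpow_eq_zpow_val, zpow_ofNat, norm_pow, hζu]
    intro h
    exact hn ((pow_eq_one_iff_of_nonneg (norm_nonneg _) two_ne_zero).1 h)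
  · intro v hs hv π hπ
    have hvg : v (g : L) = v (x - k b) / v (x - k β) := by rw [hg, map_div₀]
    refine ⟨fun h1 => ?_, fun h1 => ?_, fun h1 h2 => ?_⟩
    · -- the place `P`
      obtain ⟨h1, h2⟩ := h1
      have h3 := z_val (F := F) hv h1 h2
      rw [← hz, ← hζ] at h3
      have h4 : v (((kc k ζu * zu : Lˣ) : L) - kc k (ζu ^ (2 : ℤ))) < 1 := by
        have h5 : ((kc k ζu * zu : Lˣ) : L) - kc k (ζu ^ (2 : ℤ)) = k ζ * (z - k ζ) := by
          rw [hcoe, coe_kc, Units.val_zpow_eq_zpow_val, zpow_ofNat, hζu, pow_two, map_mul]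
          ring
        rw [h5, map_mul, hv _ hζ0, one_mul]
        exact h3
      have h5 : v (x - k β) = 1 := hv.other h1 (sub_ne_zero.1 hbβ)
      have h6 : v (g : L) = WithZero.exp (-1) := by
        rw [hvg, h5, div_one]
        exact ordP hG hs hv hxy hy₀ (hx _) h1 h2
      have h7 := tame (hv.kc (ζu ^ (2 : ℤ))) h4 h6 hπ
      rwa [Int.cast_one, one_smul] at h7
    · -- the place `Q`
      have hx1 : v x ≤ 1 := hv.le_of_sub h1
      have hy1 : v (y - k 0) < 1 := by
        rw [map_zero, sub_zero]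
        have h3 : v (y ^ 2) < 1 := by
          have h4 : y ^ 2 = (F ^ 2 - C 4).eval₂ k x - k ((F ^ 2 - C 4).eval β) := by
            have h5 : (F ^ 2 - C 4).eval β = 0 := by
              rw [eval_sub, eval_pow, eval_C, hFβ]
              linear_combination 4 * hε
            rw [h5, map_zero, sub_zero, hxy]
          rw [h4]
          exact hv.eval_sub h1 _
        rw [map_pow] at h3
        exact (pow_lt_one_iff two_ne_zero).1 h3
      have h3 := z_val (F := F) hv h1 hy1
      rw [← hz, hFβ, add_zero, mul_div_cancel_left₀ _ two_ne_zero] at h3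
      have h4 : v (((kc k ζu * zu : Lˣ) : L) - kc k (ζu * εu)) < 1 := by
        have h5 : ((kc k ζu * zu : Lˣ) : L) - kc k (ζu * εu) = k ζ * (z - k ε) := by
          rw [hcoe, coe_kc, Units.val_mul, hζu, hεu, map_mul]
          ring
        rw [h5, map_mul, hv _ hζ0, one_mul]
        exact h3
      have h5 : v (x - k b) = 1 := hv.other h1 (sub_ne_zero.1 hbβ).symm
      have h6 : v (x - k β) = WithZero.exp (-2) := by
        refine ordT hG hs hv (g := G * (F + C (2 * ε))) ?_ ?_ (hx _) h1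
        · have h7 : F ^ 2 - C 4 = (X - C β) * (G * (F + C (2 * ε))) := by
            have h8 : (C 4 : ℂ[X]) = C (2 * ε) * C (2 * ε) := by
              rw [← C_mul]
              congr 1
              linear_combination -4 * hε
            rw [h8]
            linear_combination (F + C (2 * ε)) * hβ
          rw [hxy, h7, Polynomial.eval₂_mul, Polynomial.eval₂_sub, Polynomial.eval₂_X,
            Polynomial.eval₂_C]
        · rw [eval_mul, eval_add, eval_C, hFβ]
          refine mul_ne_zero hGβ ?_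
          intro h
          apply hε0
          linear_combination h / 4
      have h7 : v (g : L) = WithZero.exp (-(-2)) := by
        rw [hvg, h5, h6, ← WithZero.exp_zero, ← WithZero.exp_sub]
        norm_num
      have h8 := tame (hv.kc (ζu * εu)) h4 h7 hπ
      have h9 : kc k (ζu ^ (2 : ℤ)) = kc k (ζu * εu) ^ (2 : ℤ) := by
        rw [← kc_pow]
        congr 1
        refine Units.ext ?_
        rw [Units.val_zpow_eq_zpow_val, Units.val_zpow_eq_zpow_val, Units.val_mul, zpow_ofNat,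
          zpow_ofNat, mul_pow, hεu, hε, mul_one]
      rw [h9, symb_zpow_left]
      rwa [Int.cast_neg, neg_smul, sub_neg_eq_add] at h8
    · -- the other places
      rcases lt_or_ge 1 (v x) with hx1 | hx1
      · apply one_mem_right
        have h3 : (g : L) - 1 = k (β - b) / (x - k β) := by
          rw [hg, div_sub_one (sub_ne_zero.2 (hx _)), map_sub]
          congr 1
          ring
        rw [h3, map_div₀, Valuation.map_sub_eq_of_lt_left v ((hv.le _).trans_lt hx1)]
        rw [div_lt_one₀ (zero_lt_one.trans hx1)]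
        exact (hv.le _).trans_lt hx1
      · have hF1 : v (F.eval₂ k x) ≤ 1 := hv.eval_le hx1 F
        have hy1 : v y ≤ 1 := by
          have h3 : v y ^ 2 ≤ 1 := by
            rw [← map_pow, hxy]
            exact hv.eval_le hx1 _
          exact (pow_le_one_iff two_ne_zero).1 h3
        have h2L : v (2 : L) = 1 := by
          rw [(map_ofNat k 2).symm]
          exact hv _ two_ne_zero
        have hvz : v z ≤ 1 := by
          rw [hz, map_div₀, h2L, div_one]
          exact (v.map_add _ _).trans (max_le hF1 hy1)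
        have hvz' : v z' ≤ 1 := by
          rw [hz', map_div₀, h2L, div_one]
          refine (v.map_add _ _).trans (max_le hF1 ?_)
          rw [Valuation.map_neg]
          exact hy1
        have hvz1 : v z = 1 := by
          refine le_antisymm hvz (not_lt.1 fun h => ?_)
          have h3 := congrArg v hzz
          rw [map_mul, map_one] at h3
          exact absurd h3 (mul_lt_one_of_lt_of_le h hvz').ne
        by_cases hc : v (x - k b) < 1
        · have h3 : v (y + k y₀) < 1 := by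
            have h4 : v ((y - k y₀) * (y + k y₀)) < 1 := by
              have h5 : (y - k y₀) * (y + k y₀) =
                  (F ^ 2 - C 4).eval₂ k x - k ((F ^ 2 - C 4).eval b) := by
                have h6 : (F ^ 2 - C 4).eval b = y₀ ^ 2 := by
                  rw [h0, eval_sub, eval_pow, eval_C]
                rw [h6, ← hxy, map_pow]
                ring
              rw [h5]
              exact hv.eval_sub hc _
            rw [map_mul] at h4
            by_contra h5
            exact absurd h4 (not_lt.2 (one_le_mul (not_lt.1 fun h => h1 ⟨hc, h⟩) (not_lt.1 h5)))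
          have h4 : v (y - k (-y₀)) < 1 := by
            rw [map_neg, sub_neg_eq_add]
            exact h3
          have h5 := z_val (F := F) hv hc h4
          rw [← hz, ← hζ'] at h5
          apply one_mem_left
          have h6 : ((kc k ζu * zu : Lˣ) : L) - 1 = k ζ * (z - k ζ') := by
            rw [hcoe, mul_sub, ← map_mul, hζζ, map_one]
          rw [h6, map_mul, hv _ hζ0, one_mul]
          exact h5
        · refine unit_mem ?_ ?_
          · rw [hcoe, map_mul, hv _ hζ0, hvz1, one_mul]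
          · have h3 : v (x - k b) = 1 :=
              le_antisymm ((v.map_sub _ _).trans (max_le hx1 (hv.le _))) (not_lt.1 hc)
            have h4 : v (x - k β) = 1 :=
              le_antisymm ((v.map_sub _ _).trans (max_le hx1 (hv.le _))) (not_lt.1 h2)
            rw [hvg, h3, h4, div_one]

/-- Two branch points. -/
theorem lemT (hG : Gen k x y) (hx : ∀ a, x ≠ k a) {f : ℂ[X]}
    (hxy : y ^ 2 = f.eval₂ k x) {e β : ℂ} (hne : e ≠ β) {g₁ g₂ : ℂ[X]}
    (h1 : f = (X - C e) * g₁) (hg₁ : g₁.eval e ≠ 0) (h2 : f = (X - C β) * g₂)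
    (hg₂ : g₂.eval β ≠ 0) :
    ∃ (S : KQ L 2) (c : ℂˣ), ‖(c : ℂ)‖ ≠ 1 ∧
      Bd2 k (fun v => v (x - k e) < 1 ∧ v (y - k 0) < 1) (fun v => v (x - k β) < 1) S c := by
  obtain ⟨c, hc⟩ := exists_two
  have hE : y ^ 2 = (x - k e) * g₁.eval₂ k x := by
    rw [hxy, h1, Polynomial.eval₂_mul, Polynomial.eval₂_sub, Polynomial.eval₂_X,
      Polynomial.eval₂_C]
  have hB : y ^ 2 = (x - k β) * g₂.eval₂ k x := by
    rw [hxy, h2, Polynomial.eval₂_mul, Polynomial.eval₂_sub, Polynomial.eval₂_X,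
      Polynomial.eval₂_C]
  obtain ⟨g, hg⟩ : ∃ g : Lˣ, (g : L) = (x - k e) / (x - k β) :=
    ⟨Units.mk0 _ (div_ne_zero (sub_ne_zero.2 (hx _)) (sub_ne_zero.2 (hx _))), rfl⟩
  refine ⟨symb ![kc k c, g], c ^ (2 : ℤ), ?_, ?_⟩
  · rw [Units.val_zpow_eq_zpow_val, hc]
    norm_num
  · intro v hs hv π hπ
    have hvg : v (g : L) = v (x - k e) / v (x - k β) := by rw [hg, map_div₀]
    have hcc : v ((kc k c : L) - kc k c) < 1 := by
      rw [sub_self, map_zero]
      exact zero_lt_one
    refine ⟨fun h3 => ?_, fun h3 => ?_, fun h3 h4 => ?_⟩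
    · have h4 : v (x - k β) = 1 := hv.other h3.1 hne
      have h5 : v (g : L) = WithZero.exp (-2) := by
        rw [hvg, h4, div_one]
        exact ordT hG hs hv hE hg₁ (hx _) h3.1
      have h6 := tame (hv.kc c) hcc h5 hπ
      rwa [kc_pow, symb_zpow_left]
    · have h4 : v (x - k e) = 1 := hv.other h3 hne.symm
      have h5 : v (g : L) = WithZero.exp (-(-2)) := by
        rw [hvg, h4, ordT hG hs hv hB hg₂ (hx _) h3, ← WithZero.exp_zero, ← WithZero.exp_sub]
        norm_num
      have h6 := tame (hv.kc c) hcc h5 hπ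
      rw [kc_pow, symb_zpow_left]
      rwa [Int.cast_neg, neg_smul, sub_neg_eq_add] at h6
    · refine unit_mem (hv.kc c) ?_
      rcases lt_or_ge 1 (v x) with hx1 | hx1
      · rw [hvg, Valuation.map_sub_eq_of_lt_left v ((hv.le _).trans_lt hx1),
          Valuation.map_sub_eq_of_lt_left v ((hv.le _).trans_lt hx1),
          div_self (zero_lt_one.trans hx1).ne']
      · have h5 : v (x - k β) = 1 :=
          le_antisymm ((v.map_sub _ _).trans (max_le hx1 (hv.le _))) (not_lt.1 h4)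
        have h6 : v (x - k e) = 1 := by
          refine le_antisymm ((v.map_sub _ _).trans (max_le hx1 (hv.le _))) (not_lt.1 fun h => ?_)
          refine h3 ⟨h, ?_⟩
          rw [map_zero, sub_zero]
          have h7 : v y ^ 2 < 1 := by
            rw [← map_pow, hE, map_mul]
            exact mul_lt_one_of_lt_of_le h (hv.eval_le hx1 _)
          exact (pow_lt_one_iff two_ne_zero).1 h7
        rw [hvg, h5, h6, div_one]

end Pool.Agent.T9h40.PE
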