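import Pool.Agent.T9h40.PE.Curve
set_option autoImplicit false

/-!
The result for Weierstrass curves over the complex numbers.
-/

namespace Pool.Agent.T9h40.PE

open scoped WithZero

open Polynomial

open Pool.Agent.TH826.MK

/-- The roots of the two-torsion polynomial. -/
theorem exists_roots (W : WeierstrassCurve ℂ) (hΔ : W.Δ ≠ 0) : ∃ a b c : ℂ,
    a ≠ b ∧ a ≠ c ∧ b ≠ c ∧ W.b₂ = -4 * (a + b + c) ∧ 2 * W.b₄ = 4 * (a * b + a * c + b * c) ∧
      W.b₆ = -4 * (a * b * c) := by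
  obtain ⟨P, hP⟩ : ∃ P : Cubic ℂ, P = W.twoTorsionPolynomial := ⟨_, rfl⟩
  have ha : P.a ≠ 0 := by
    rw [hP]
    change (4 : ℂ) ≠ 0
    norm_num
  have hd : P.discr ≠ 0 := by
    rw [hP, WeierstrassCurve.twoTorsionPolynomial_discr]
    exact mul_ne_zero (by norm_num) hΔ
  obtain ⟨a, b, c, h3⟩ := (Cubic.splits_iff_roots_eq_three (φ := RingHom.id ℂ) ha).1
    (IsAlgClosed.splits _)
  obtain ⟨h4, h5, h6⟩ := (Cubic.discr_ne_zero_iff_roots_ne (φ := RingHom.id ℂ) ha h3).1 hd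
  have e1 := Cubic.b_eq_three_roots (φ := RingHom.id ℂ) ha h3
  have e2 := Cubic.c_eq_three_roots (φ := RingHom.id ℂ) ha h3
  have e3 := Cubic.d_eq_three_roots (φ := RingHom.id ℂ) ha h3
  rw [hP] at e1 e2 e3
  simp only [RingHom.id_apply, WeierstrassCurve.twoTorsionPolynomial] at e1 e2 e3
  refine ⟨a, b, c, h4, h5, h6, ?_, ?_, ?_⟩
  · rw [e1]; ring
  · rw [e2]
  · rw [e3]; ring

/-- Three distinct points can be ordered so that the two others are not on the same side of the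
first one on a line. -/
theorem exists_order {a b c : ℂ} (hab : a ≠ b) (hac : a ≠ c) (hbc : b ≠ c) :
    ∃ a' b' c' : ℂ, a' ≠ b' ∧ a' ≠ c' ∧ b' ≠ c' ∧ a' + b' + c' = a + b + c ∧
      a' * b' + a' * c' + b' * c' = a * b + a * c + b * c ∧ a' * b' * c' = a * b * c ∧
      ∀ t : ℝ, 0 < t → b' - a' ≠ t * (c' - a') := by
  by_cases h : ∀ t : ℝ, 0 < t → b - a ≠ t * (c - a)
  · exact ⟨a, b, c, hab, hac, hbc, rfl, rfl, rfl, h⟩
  · push Not at h
    obtain ⟨t, ht, h1⟩ := h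
    have hca : c - a ≠ 0 := sub_ne_zero.2 hac.symm
    have ht1 : t ≠ 1 := by
      rintro rfl
      rw [Complex.ofReal_one, one_mul] at h1
      exact hbc (sub_left_inj.1 h1)
    rcases lt_or_gt_of_ne ht1 with h2 | h2
    · refine ⟨b, a, c, hab.symm, hbc, hac, by ring, by ring, by ring, fun s hs h3 => ?_⟩
      have h4 : ((-t : ℝ) : ℂ) * (c - a) = ((s * (1 - t) : ℝ) : ℂ) * (c - a) := by
        push_cast
        linear_combination h3 + (1 - s) * h1
      have h5 := Complex.ofReal_injective (mul_right_cancel₀ hca h4)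
      nlinarith [mul_pos hs (sub_pos.2 h2)]
    · refine ⟨c, b, a, hbc.symm, hac.symm, hab.symm, by ring, by ring, by ring,
        fun s hs h3 => ?_⟩
      have h4 : ((t - 1 : ℝ) : ℂ) * (c - a) = ((-s : ℝ) : ℂ) * (c - a) := by
        push_cast
        linear_combination h3 - h1
      have h5 := Complex.ofReal_injective (mul_right_cancel₀ hca h4)
      linarith

/-- The Weierstrass equation in terms of the roots of the two-torsion polynomial. -/
theorem eq_roots {R : Type*} [Field R] [CharZero R] (k : ℂ →+* R) (W : WeierstrassCurve ℂ)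
    {a b c : ℂ} (h1 : W.b₂ = -4 * (a + b + c)) (h2 : 2 * W.b₄ = 4 * (a * b + a * c + b * c))
    (h3 : W.b₆ = -4 * (a * b * c)) {x y : R}
    (h : y ^ 2 + k W.a₁ * x * y + k W.a₃ * y = x ^ 3 + k W.a₂ * x ^ 2 + k W.a₄ * x + k W.a₆) :
    (y + k (W.a₁ / 2) * x + k (W.a₃ / 2)) ^ 2 =
      (x - k a) * ((x - k a) - k (b - a)) * ((x - k a) - k (c - a)) := by
  have k4 : k 4 = 4 := map_ofNat k 4
  have k2 : k 2 = 2 := map_ofNat k 2
  have e1 : k W.a₁ ^ 2 + 4 * k W.a₂ = -4 * (k a + k b + k c) := by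
    have := congrArg k h1
    rw [WeierstrassCurve.b₂] at this
    simpa [k4, k2] using this
  have e2 : 2 * (2 * k W.a₄ + k W.a₁ * k W.a₃) = 4 * (k a * k b + k a * k c + k b * k c) := by
    have := congrArg k h2
    rw [WeierstrassCurve.b₄] at this
    simpa [k4, k2] using this
  have e3 : k W.a₃ ^ 2 + 4 * k W.a₆ = -4 * (k a * k b * k c) := by
    have := congrArg k h3
    rw [WeierstrassCurve.b₆] at this
    simpa [k4, k2] using this
  have e4 : ∀ u : ℂ, 2 * k (u / 2) = k u := by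
    intro u
    have h5 : (2 : R) = k 2 := by rw [map_ofNat]
    rw [h5, ← map_mul]
    congr 1
    ring
  have e5 := e4 W.a₁
  have e6 := e4 W.a₃
  rw [← e5] at h e1 e2
  rw [← e6] at h e2 e3
  rw [map_sub, map_sub]
  have h4 : (4 : R) ≠ 0 := by norm_num
  apply mul_left_cancel₀ h4
  linear_combination 4 * h + x ^ 2 * e1 + x * e2 + e3

variable {L : Type*} [Field L]

/-- Change of coordinates. -/
theorem bd_change {k : ℂ →+* L} {x y : L} {a m n x₀ y₀ : ℂ} {S : KQ L 2} {c : ℂˣ}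
    (h : Bd k (x - k a) (y + k m * x + k n) (x₀ - a) (y₀ + m * x₀ + n) S c) :
    Bd k x y x₀ y₀ S c := by
  intro v hs hv π hπ
  obtain ⟨h1, h2, h3⟩ := h v hs hv π hπ
  have e1 : x - k a - k (x₀ - a) = x - k x₀ := by
    rw [map_sub]
    ring
  have e2 : y + k m * x + k n - k (y₀ + m * x₀ + n) = (y - k y₀) + k m * (x - k x₀) := by
    rw [map_add, map_add, map_mul]
    ring
  have e3 : y - k y₀ = (y + k m * x + k n - k (y₀ + m * x₀ + n)) + -(k m * (x - k x₀)) := by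
    rw [e2]
    ring
  rw [e1] at h1 h2
  have h4 : v (x - k x₀) < 1 → v (k m * (x - k x₀)) < 1 := fun h => by
    rw [map_mul, mul_comm]
    exact mul_lt_one_of_lt_of_le h (hv.le _)
  refine ⟨fun h5 h6 => h1 ((v.map_sub _ _).trans (max_le h5 (hv.le _))) fun h7 => h6 ⟨h7.1, ?_⟩,
    fun h5 h6 => h2 h5 ?_, fun h5 => h3 ?_⟩
  · rw [e3]
    refine v.map_add_lt h7.2 ?_
    rw [Valuation.map_neg]
    exact h4 h7.1
  · rw [e2]
    exact v.map_add_lt h6 (h4 h5)
  · rw [Valuation.map_sub_eq_of_lt_left v ((hv.le _).trans_lt h5)]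
    exact h5

/-- The generation property after a change of coordinates. -/
theorem gen_change {k : ℂ →+* L} {x y : L} {a m n : ℂ} (h : Gen k x y) :
    Gen k (x - k a) (y + k m * x + k n) := by
  have key : ∀ p q : ℂ[X], ∃ p' q' : ℂ[X], p.eval₂ k x + q.eval₂ k x * y =
      p'.eval₂ k (x - k a) + q'.eval₂ k (x - k a) * (y + k m * x + k n) := by
    intro p q
    have e : ∀ r : ℂ[X], (r.comp (X + C a)).eval₂ k (x - k a) = r.eval₂ k x := by
      intro r
      rw [Polynomial.eval₂_comp, Polynomial.eval₂_add, Polynomial.eval₂_X, Polynomial.eval₂_C,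
        sub_add_cancel]
    refine ⟨p.comp (X + C a) - q.comp (X + C a) * (C m * (X + C a) + C n), q.comp (X + C a), ?_⟩
    rw [Polynomial.eval₂_sub, Polynomial.eval₂_mul, e, e, Polynomial.eval₂_add,
      Polynomial.eval₂_mul, Polynomial.eval₂_add, Polynomial.eval₂_X, Polynomial.eval₂_C,
      Polynomial.eval₂_C, Polynomial.eval₂_C]
    ring
  intro f
  obtain ⟨p, q, p', q', h1, h2⟩ := h f
  obtain ⟨r, s, h3⟩ := key p q
  obtain ⟨r', s', h4⟩ := key p' q'
  exact ⟨r, s, r', s', by rw [← h4]; exact h1, by rw [← h3, ← h4]; exact h2⟩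

/-- The result for a field with a solution of a Weierstrass equation. -/
theorem weier {k : ℂ →+* L} {x y : L} (W : WeierstrassCurve ℂ) (hΔ : W.Δ ≠ 0)
    (hG : Gen k x y) (hx : ∀ a, x ≠ k a)
    (h : y ^ 2 + k W.a₁ * x * y + k W.a₃ * y = x ^ 3 + k W.a₂ * x ^ 2 + k W.a₄ * x + k W.a₆)
    {x₀ y₀ : ℂ} (h0 : y₀ ^ 2 + W.a₁ * x₀ * y₀ + W.a₃ * y₀ =
      x₀ ^ 3 + W.a₂ * x₀ ^ 2 + W.a₄ * x₀ + W.a₆) :
    ∃ (S : KQ L 2) (c : ℂˣ), ‖(c : ℂ)‖ ≠ 1 ∧ Bd k x y x₀ y₀ S c := by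
  have : CharZero L := charZero_of_injective_ringHom k.injective
  obtain ⟨a₁, b₁, c₁, hab₁, hac₁, hbc₁, e1, e2, e3⟩ := exists_roots W hΔ
  obtain ⟨a, b, c, hab, hac, hbc, f1, f2, f3, hR⟩ := exists_order hab₁ hac₁ hbc₁
  rw [← f1] at e1
  rw [← f2] at e2
  rw [← f3] at e3
  obtain ⟨σ, hσ⟩ := IsAlgClosed.exists_pow_nat_eq (b - a) two_pos
  obtain ⟨τ, hτ⟩ := IsAlgClosed.exists_pow_nat_eq (c - a) two_pos
  have hσ0 : σ ≠ 0 := by
    rintro rfl
    rw [zero_pow two_ne_zero] at hσ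
    exact hab (sub_eq_zero.1 hσ.symm).symm
  have hτ0 : τ ≠ 0 := by
    rintro rfl
    rw [zero_pow two_ne_zero] at hτ
    exact hac (sub_eq_zero.1 hτ.symm).symm
  have g1 := eq_roots k W e1 e2 e3 h
  have g2 := eq_roots (RingHom.id ℂ) W e1 e2 e3 (x := x₀) (y := y₀) h0
  simp only [RingHom.id_apply] at g2
  rw [← hσ, ← hτ] at g1 g2
  obtain ⟨S, d, hd, hS⟩ := short (gen_change (a := a) (m := W.a₁ / 2) (n := W.a₃ / 2) hG)
    (fun u h1 => hx (u + a) (by rw [map_add, ← h1]; ring)) g1 hσ0 hτ0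
    (by rw [hσ, hτ]; exact fun h => hbc (sub_left_inj.1 h))
    (fun t ht => by
      have ht0 : t ≠ 0 := by
        rintro rfl
        rw [Complex.ofReal_zero, zero_mul] at ht
        exact hσ0 ht
      refine hR (t ^ 2) (by positivity) ?_
      rw [← hσ, ← hτ, ht]
      push_cast
      ring) g2
  exact ⟨S, d, hd, bd_change hS⟩

end Pool.Agent.T9h40.PE
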